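import Mathlib

set_option autoImplicit false
set_option linter.unusedSectionVars false

/-!
# Even edge sets and linear forests

A finite edge set is a `Finset (Sym2 V)`. A linear forest is a loopless edge set of maximum degree at most two
without nonempty even subset.
-/

namespace Run7.h14.Pq

open Finset

variable {V : Type*} [DecidableEq V]

/-- The number of members of `S` at the vertex `v`. -/
def dg (S : Finset (Sym2 V)) (v : V) : ℕ := #{e ∈ S | v ∈ e}

/-- No member of `S` is a loop. -/
def LL (S : Finset (Sym2 V)) : Prop := ∀ e ∈ S, ¬ e.IsDiag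

/-- All degrees of `S` are even. -/
def Ev (S : Finset (Sym2 V)) : Prop := ∀ v, Even (dg S v)

/-- Exactly the vertices `a` and `b` have odd degree. -/
def OddAt (S : Finset (Sym2 V)) (a b : V) : Prop := ∀ v, Odd (dg S v) ↔ (v = a ∨ v = b)

/-- Linear forests. -/
structure LF (F : Finset (Sym2 V)) : Prop where
  ll : LL F
  le : ∀ v, dg F v ≤ 2
  ac : ∀ S ⊆ F, Ev S → S = ∅

lemma dg_empty (v : V) : dg (∅ : Finset (Sym2 V)) v = 0 := by simp [dg]

lemma dg_mono {S T : Finset (Sym2 V)} (h : S ⊆ T) (v : V) : dg S v ≤ dg T v :=
  card_le_card (filter_subset_filter _ h)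

lemma dg_insert {S : Finset (Sym2 V)} {e : Sym2 V} (he : e ∉ S) (v : V) :
    dg (insert e S) v = dg S v + if v ∈ e then 1 else 0 := by
  unfold dg
  rw [filter_insert]
  split_ifs with h
  · rw [card_insert_of_notMem (by simp [he])]
  · simp

lemma dg_erase {S : Finset (Sym2 V)} {e : Sym2 V} (he : e ∈ S) (v : V) :
    dg (S.erase e) v + (if v ∈ e then 1 else 0) = dg S v := by
  conv_rhs => rw [← insert_erase he]
  rw [dg_insert (notMem_erase _ _)]

lemma dg_union {S T : Finset (Sym2 V)} (h : Disjoint S T) (v : V) :
    dg (S ∪ T) v = dg S v + dg T v := by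
  unfold dg
  rw [filter_union, card_union_of_disjoint]
  exact disjoint_filter_filter h

lemma dg_sdiff {S T : Finset (Sym2 V)} (h : T ⊆ S) (v : V) :
    dg (S \ T) v + dg T v = dg S v := by
  rw [← dg_union sdiff_disjoint, sdiff_union_of_subset h]

lemma dg_pos {S : Finset (Sym2 V)} {e : Sym2 V} (he : e ∈ S) {v : V} (hv : v ∈ e) : 1 ≤ dg S v := by
  unfold dg
  exact card_pos.2 ⟨e, by simp [he, hv]⟩

lemma dg_eq_zero {S : Finset (Sym2 V)} {v : V} : dg S v = 0 ↔ ∀ e ∈ S, v ∉ e := by
  unfold dg
  rw [card_eq_zero, filter_eq_empty_iff]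

lemma exists_of_dg {S : Finset (Sym2 V)} {v : V} (h : 1 ≤ dg S v) : ∃ w, s(v, w) ∈ S := by
  unfold dg at h
  obtain ⟨e, he⟩ := card_pos.1 h
  rw [mem_filter] at he
  obtain ⟨w, rfl⟩ := he.2
  exact ⟨w, he.1⟩

/-- a vertex of degree at least two has a second neighbour -/
lemma exists_second {S : Finset (Sym2 V)} {v : V} (h : 2 ≤ dg S v) (x : V) : ∃ w, w ≠ x ∧ s(v, w) ∈ S := by
  by_contra hcon
  push Not at hcon
  have : dg S v ≤ 1 := by
    unfold dg
    rw [card_le_one]
    intro e he f hf
    rw [mem_filter] at he hf
    obtain ⟨w, rfl⟩ := he.2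
    obtain ⟨w', rfl⟩ := hf.2
    have h1 : w = x := by
      by_contra h1
      exact hcon w h1 he.1
    have h2 : w' = x := by
      by_contra h2
      exact hcon w' h2 hf.1
    rw [h1, h2]
  omega

lemma LL.ne {S : Finset (Sym2 V)} (h : LL S) {x y : V} (hxy : s(x, y) ∈ S) : x ≠ y := by
  intro he
  exact h _ hxy (by simp [he])

lemma LL.mono {S T : Finset (Sym2 V)} (h : LL T) (hS : S ⊆ T) : LL S := fun e he => h e (hS he)

lemma handshake [Fintype V] {S : Finset (Sym2 V)} (h : LL S) : ∑ v, dg S v = 2 * #S := by
  unfold dg
  have := sum_card_bipartiteAbove_eq_sum_card_bipartiteBelow (s := (univ : Finset V)) (t := S)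
    (fun v e => v ∈ e)
  unfold bipartiteAbove bipartiteBelow at this
  rw [this]
  rw [sum_congr rfl (g := fun _ => 2)]
  · simp [mul_comm]
  · intro e he
    have := Sym2.card_toFinset_of_not_isDiag e (h e he)
    rw [← this]
    congr 1
    ext v
    simp

lemma even_odd [Fintype V] {S : Finset (Sym2 V)} (h : LL S) : Even #{v | Odd (dg S v)} := by
  rw [← even_sum_iff_even_card_odd, handshake h]
  exact even_two_mul _

/-- In an edge set of maximum degree at most two, an even subset is closed under adjacency. -/
lemma closed {A S : Finset (Sym2 V)} (hS : S ⊆ A) {v : V} (hA : dg A v ≤ 2) (hev : Even (dg S v))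
    {e f : Sym2 V} (he : e ∈ S) (hve : v ∈ e) (hf : f ∈ A) (hvf : v ∈ f) : f ∈ S := by
  have h1 := dg_pos he hve
  have h2 : 2 ≤ dg S v := by
    obtain ⟨k, hk⟩ := hev
    omega
  have h3 : {e ∈ S | v ∈ e} = {e ∈ A | v ∈ e} := by
    apply eq_of_subset_of_card_le (filter_subset_filter _ hS)
    unfold dg at h2 hA
    omega
  have h4 : f ∈ {e ∈ A | v ∈ e} := by simp [hf, hvf]
  rw [← h3, mem_filter] at h4
  exact h4.1

lemma LF.mono {F F' : Finset (Sym2 V)} (h : LF F) (hF : F' ⊆ F) : LF F' where
  ll := h.ll.mono hF
  le v := (dg_mono hF v).trans (h.le v)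
  ac S hS := h.ac S (hS.trans hF)

/-- In a linear forest, an end `a` is joined to at most one other end. -/
lemma LF.unique [Fintype V] {F : Finset (Sym2 V)} (h : LF F) {a b c : V} (ha : dg F a ≤ 1)
    (hb : dg F b ≤ 1) (hc : dg F c ≤ 1) (hab : a ≠ b) (hac : a ≠ c) (hbc : b ≠ c)
    {S S' : Finset (Sym2 V)} (hS : S ⊆ F) (hS' : S' ⊆ F) (h1 : OddAt S a b) (h2 : OddAt S' a c) :
    False := by
  have key : ∀ v, Odd (dg (S ∩ S') v) ↔ v = a := by
    intro v
    have e1 := dg_mono hS v
    have e2 := dg_mono hS' v
    have e3 := dg_mono (inter_subset_left : S ∩ S' ⊆ S) v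
    have e4 := dg_mono (inter_subset_right : S ∩ S' ⊆ S') v
    have e5 := h.le v
    have full : dg S v = dg F v → dg S' v = dg F v → dg (S ∩ S') v = dg F v := by
      intro q1 q2
      unfold dg at q1 q2 ⊢
      have r1 := eq_of_subset_of_card_le (filter_subset_filter (fun e => v ∈ e) hS) q1.ge
      have r2 := eq_of_subset_of_card_le (filter_subset_filter (fun e => v ∈ e) hS') q2.ge
      congr 1
      ext e
      simp only [mem_filter, mem_inter]
      have r3 := Finset.ext_iff.1 r1 e
      have r4 := Finset.ext_iff.1 r2 e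
      simp only [mem_filter] at r3 r4
      tauto
    have h1v := h1 v
    have h2v := h2 v
    by_cases hva : v = a
    · subst hva
      have o1 : Odd (dg S v) := h1v.2 (Or.inl rfl)
      have o2 : Odd (dg S' v) := h2v.2 (Or.inl rfl)
      have p1 := o1.pos
      have p2 := o2.pos
      have := full (by omega) (by omega)
      have h3 : dg (S ∩ S') v = 1 := by omega
      simp [h3]
    · simp only [hva, iff_false, Nat.not_odd_iff_even]
      by_cases hvb : v = b
      · subst hvb
        have o2 : ¬ Odd (dg S' v) := by
          rw [h2v]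
          tauto
        have : dg S' v = 0 := by
          rw [Nat.not_odd_iff_even] at o2
          obtain ⟨k, hk⟩ := o2
          omega
        have h3 : dg (S ∩ S') v = 0 := by omega
        simp [h3]
      · by_cases hvc : v = c
        · subst hvc
          have o2 : ¬ Odd (dg S v) := by
            rw [h1v]
            tauto
          have : dg S v = 0 := by
            rw [Nat.not_odd_iff_even] at o2
            obtain ⟨k, hk⟩ := o2
            omega
          have h3 : dg (S ∩ S') v = 0 := by omega
          simp [h3]
        · have o1 : Even (dg S v) := by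
            rw [← Nat.not_odd_iff_even, h1v]
            tauto
          have o2 : Even (dg S' v) := by
            rw [← Nat.not_odd_iff_even, h2v]
            tauto
          obtain ⟨k, hk⟩ := o1
          obtain ⟨l, hl⟩ := o2
          by_cases hk0 : dg S v = 0
          · have h3 : dg (S ∩ S') v = 0 := by omega
            simp [h3]
          · by_cases hl0 : dg S' v = 0
            · have h3 : dg (S ∩ S') v = 0 := by omega
              simp [h3]
            · have := full (by omega) (by omega)
              rw [this]
              have : dg F v = 2 := by omega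
              simp [this]
  have heven := even_odd (h.ll.mono (inter_subset_left.trans hS) : LL (S ∩ S'))
  have : ({v | Odd (dg (S ∩ S') v)} : Finset V) = {a} := by
    ext v
    simp [key]
  rw [this] at heven
  simp at heven

/-- Adding an edge between two ends that are not joined. -/
lemma LF.add {F : Finset (Sym2 V)} (h : LF F) {x y : V} (hxy : x ≠ y) (he : s(x, y) ∉ F)
    (hx : dg F x ≤ 1) (hy : dg F y ≤ 1) (hno : ¬ ∃ S ⊆ F, OddAt S x y) :
    LF (insert s(x, y) F) where
  ll e he' := by
    rw [mem_insert] at he'
    rcases he' with rfl | he'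
    · simpa using hxy
    · exact h.ll e he'
  le v := by
    rw [dg_insert he]
    have := h.le v
    split_ifs with hv
    · rw [Sym2.mem_iff] at hv
      rcases hv with rfl | rfl <;> omega
    · omega
  ac S hS hev := by
    by_cases hmem : s(x, y) ∈ S
    · exfalso
      apply hno
      refine ⟨S.erase s(x, y), ?_, ?_⟩
      · intro e he'
        rw [mem_erase] at he'
        have := hS he'.2
        rw [mem_insert] at this
        tauto
      · intro v
        have h1 := dg_erase hmem v
        have h2 := hev v
        rw [← h1] at h2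
        simp only [Sym2.mem_iff] at h2
        by_cases hv : v = x ∨ v = y
        · simp only [hv, if_true, iff_true] at h2 ⊢
          rw [← Nat.not_even_iff_odd]
          intro h3
          exact (Nat.not_even_iff_odd.2 (h3.add_one)) h2
        · simp only [hv, if_false, add_zero, iff_false, Nat.not_odd_iff_even] at h2 ⊢
          exact h2
    · apply h.ac S _ hev
      intro e he'
      have := hS he'
      rw [mem_insert] at this
      rcases this with rfl | this
      · exact absurd he' hmem
      · exact this

/-- Adding an edge with an uncovered end. -/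
lemma LF.add_free {F : Finset (Sym2 V)} (h : LF F) {x y : V} (hxy : x ≠ y)
    (hx : dg F x = 0) (hy : dg F y ≤ 1) : LF (insert s(x, y) F) := by
  have hS : ¬ ∃ S ⊆ F, OddAt S x y := by
    rintro ⟨S, hS, ho⟩
    have h1 := (ho x).2 (Or.inl rfl)
    have h2 := dg_mono hS x
    have := h1.pos
    omega
  apply h.add hxy _ (by omega) hy hS
  intro hmem
  have := dg_pos hmem (v := x) (by simp)
  omega

lemma LF.empty : LF (∅ : Finset (Sym2 V)) where
  ll := by simp [LL]
  le v := by simp [dg]
  ac S hS _ := subset_empty.1 hS

end Run7.h14.Pq
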