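import Mathlib
import Pool.Agent.Run7.h14.PqBasic

set_option autoImplicit false
set_option linter.unusedSectionVars false

/-!
# Linking three linear forests into three paths
-/

namespace Run7.h14.Pq

open Finset

variable {V : Type*} [DecidableEq V]

/-- A linear forest with exactly two vertices of odd degree is a path. -/
lemma LF.exists_path [Fintype V] : ∀ (n : ℕ) (F : Finset (Sym2 V)) (_ : #F = n) (_ : LF F) (a b : V)
    (_ : a ≠ b) (_ : OddAt F a b),
    ∃ p : (⊤ : SimpleGraph V).Walk a b, p.IsPath ∧ (∀ e, e ∈ p.edges ↔ e ∈ F) ∧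
      ∀ v ∈ p.support, 1 ≤ dg F v := by
  intro n
  induction n using Nat.strong_induction_on with
  | _ n ih =>
    intro F hn hF a b hab ho
    have ha : Odd (dg F a) := (ho a).2 (Or.inl rfl)
    have ha1 : dg F a = 1 := by
      have := hF.le a
      obtain ⟨k, hk⟩ := ha
      omega
    have hb : Odd (dg F b) := (ho b).2 (Or.inr rfl)
    have hb1 : dg F b = 1 := by
      have := hF.le b
      obtain ⟨k, hk⟩ := hb
      omega
    obtain ⟨c, hc⟩ := exists_of_dg (S := F) (v := a) (by omega)
    have hac : a ≠ c := hF.ll.ne hc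
    have hdg : ∀ v, dg (F.erase s(a, c)) v + (if v = a ∨ v = c then 1 else 0) = dg F v := by
      intro v
      have := dg_erase hc v
      simpa only [Sym2.mem_iff] using this
    have hcard : #(F.erase s(a, c)) < n := by
      rw [← hn]
      exact card_erase_lt_of_mem hc
    have hF' : LF (F.erase s(a, c)) := hF.mono (erase_subset _ _)
    by_cases hcb : c = b
    · subst hcb
      have hz : F.erase s(a, c) = ∅ := by
        apply hF.ac _ (erase_subset _ _)
        intro v
        have h1 := hdg v
        by_cases hv : v = a ∨ v = c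
        · have : dg F v = 1 := by
            rcases hv with rfl | rfl <;> assumption
          simp only [hv, if_true] at h1
          have : dg (F.erase s(a, c)) v = 0 := by omega
          simp [this]
        · simp only [hv, if_false, add_zero] at h1
          rw [h1, ← Nat.not_odd_iff_even, ho v]
          exact hv
      refine ⟨SimpleGraph.Walk.cons (by simpa using hab) SimpleGraph.Walk.nil, ?_, ?_, ?_⟩
      · simp [SimpleGraph.Walk.cons_isPath_iff, hab]
      · intro e
        simp only [SimpleGraph.Walk.edges_cons, SimpleGraph.Walk.edges_nil, List.mem_singleton]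
        constructor
        · rintro rfl
          exact hc
        · intro he
          by_contra hne
          have : e ∈ F.erase s(a, c) := mem_erase.2 ⟨hne, he⟩
          rw [hz] at this
          simp at this
      · intro v hv
        simp only [SimpleGraph.Walk.support_cons, SimpleGraph.Walk.support_nil, List.mem_cons,
          List.not_mem_nil, or_false] at hv
        rcases hv with rfl | rfl <;> omega
    · have hc2 : dg F c = 2 := by
        have h1 := dg_pos hc (v := c) (by simp)
        have h2 := hF.le c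
        have h3 : ¬ Odd (dg F c) := by
          rw [ho c]
          tauto
        rw [Nat.not_odd_iff_even] at h3
        obtain ⟨k, hk⟩ := h3
        omega
      have ho' : OddAt (F.erase s(a, c)) c b := by
        intro v
        have h1 := hdg v
        by_cases hva : v = a
        · subst hva
          simp only [true_or, if_true] at h1
          have : dg (F.erase s(v, c)) v = 0 := by omega
          rw [this]
          simp [hac, hab]
        · by_cases hvc : v = c
          · subst hvc
            simp only [or_true, if_true] at h1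
            have : dg (F.erase s(a, v)) v = 1 := by omega
            rw [this]
            simp
          · simp only [hva, hvc, or_self, if_false, add_zero] at h1
            rw [h1, ho v]
            tauto
      obtain ⟨p, hp1, hp2, hp3⟩ := ih _ hcard _ rfl hF' c b hcb ho'
      have hna : a ∉ p.support := by
        intro hmem
        have h1 := hp3 a hmem
        have h2 := hdg a
        simp only [true_or, if_true] at h2
        omega
      refine ⟨SimpleGraph.Walk.cons (by simpa using hac) p, ?_, ?_, ?_⟩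
      · rw [SimpleGraph.Walk.cons_isPath_iff]
        exact ⟨hp1, hna⟩
      · intro e
        rw [SimpleGraph.Walk.edges_cons, List.mem_cons, hp2, mem_erase]
        constructor
        · rintro (rfl | h)
          · exact hc
          · exact h.2
        · intro h
          by_cases he : e = s(a, c)
          · exact Or.inl he
          · exact Or.inr ⟨he, h⟩
      · intro v hv
        rw [SimpleGraph.Walk.support_cons, List.mem_cons] at hv
        rcases hv with rfl | hv
        · omega
        · have h1 := hp3 v hv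
          have h2 := hdg v
          omega

/-- The vertices that have odd degree in both sets. -/
def TT [Fintype V] (F F' : Finset (Sym2 V)) : Finset V := {v | Odd (dg F v) ∧ Odd (dg F' v)}

lemma mem_TT [Fintype V] {F F' : Finset (Sym2 V)} {v : V} :
    v ∈ TT F F' ↔ Odd (dg F v) ∧ Odd (dg F' v) := by
  simp [TT]

lemma TT_comm [Fintype V] (F F' : Finset (Sym2 V)) : TT F F' = TT F' F := by
  ext v
  simp [TT, and_comm]

/-- Among three common ends there are two that can be joined in both forests. -/
lemma exists_good [Fintype V] {F F' : Finset (Sym2 V)} (h : LF F) (h' : LF F')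
    (hT : 2 < #(TT F F')) :
    ∃ x ∈ TT F F', ∃ y ∈ TT F F', x ≠ y ∧ (¬ ∃ S ⊆ F, OddAt S x y) ∧ ¬ ∃ S ⊆ F', OddAt S x y := by
  obtain ⟨a, b, c, ha, hb, hc, hab, hac, hbc⟩ := two_lt_card_iff.1 hT
  have hle : ∀ v ∈ TT F F', dg F v ≤ 1 ∧ dg F' v ≤ 1 := by
    intro v hv
    rw [mem_TT] at hv
    have h1 := h.le v
    have h2 := h'.le v
    obtain ⟨⟨k, hk⟩, ⟨l, hl⟩⟩ := hv
    omega
  have sym : ∀ {S : Finset (Sym2 V)} {x y : V}, OddAt S x y → OddAt S y x := by
    intro S x y hS v
    rw [hS v, or_comm]
  have u1 : ∀ x ∈ TT F F', ∀ y ∈ TT F F', ∀ z ∈ TT F F', x ≠ y → x ≠ z → y ≠ z →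
      (∃ S ⊆ F, OddAt S x y) → (∃ S ⊆ F, OddAt S x z) → False := by
    rintro x hx y hy z hz hxy hxz hyz ⟨S, hS, hS'⟩ ⟨T, hT, hT'⟩
    exact h.unique (hle x hx).1 (hle y hy).1 (hle z hz).1 hxy hxz hyz hS hT hS' hT'
  have u2 : ∀ x ∈ TT F F', ∀ y ∈ TT F F', ∀ z ∈ TT F F', x ≠ y → x ≠ z → y ≠ z →
      (∃ S ⊆ F', OddAt S x y) → (∃ S ⊆ F', OddAt S x z) → False := by
    rintro x hx y hy z hz hxy hxz hyz ⟨S, hS, hS'⟩ ⟨T, hT, hT'⟩
    exact h'.unique (hle x hx).2 (hle y hy).2 (hle z hz).2 hxy hxz hyz hS hT hS' hT'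
  have s1 : ∀ x y, (∃ S ⊆ F, OddAt S x y) → (∃ S ⊆ F, OddAt S y x) := by
    rintro x y ⟨S, hS, hS'⟩
    exact ⟨S, hS, sym hS'⟩
  have s2 : ∀ x y, (∃ S ⊆ F', OddAt S x y) → (∃ S ⊆ F', OddAt S y x) := by
    rintro x y ⟨S, hS, hS'⟩
    exact ⟨S, hS, sym hS'⟩
  by_contra hcon
  push Not at hcon
  have c1 := hcon a ha b hb hab
  have c2 := hcon a ha c hc hac
  have c3 := hcon b hb c hc hbc
  have v1 := u1 a ha b hb c hc hab hac hbc
  have v2 := u1 b hb a ha c hc hab.symm hbc hac
  have v3 := u1 c hc a ha b hb hac.symm hbc.symm hab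
  have w1 := u2 a ha b hb c hc hab hac hbc
  have w2 := u2 b hb a ha c hc hab.symm hbc hac
  have w3 := u2 c hc a ha b hb hac.symm hbc.symm hab
  have t1 := s1 a b
  have t2 := s1 a c
  have t3 := s1 b c
  have r1 := s2 a b
  have r2 := s2 a c
  have r3 := s2 b c
  by_cases q1 : ∃ S ⊆ F, OddAt S a b
  · have n1 : ¬ ∃ S ⊆ F, OddAt S a c := fun q => v1 q1 q
    have n2 : ¬ ∃ S ⊆ F, OddAt S b c := fun q => v2 (t1 q1) q
    have m1 : ∃ S ⊆ F', OddAt S a c := by
      apply c2
      push Not at n1
      exact n1
    have m2 : ∃ S ⊆ F', OddAt S b c := by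
      apply c3
      push Not at n2
      exact n2
    exact w3 (r2 m1) (r3 m2)
  · have m1 : ∃ S ⊆ F', OddAt S a b := by
      apply c1
      push Not at q1
      exact q1
    have n1 : ¬ ∃ S ⊆ F', OddAt S a c := fun q => w1 m1 q
    have n2 : ¬ ∃ S ⊆ F', OddAt S b c := fun q => w2 (r1 m1) q
    have l1 : ∃ S ⊆ F, OddAt S a c := by
      by_contra q
      push Not at q
      exact n1 (c2 q)
    have l2 : ∃ S ⊆ F, OddAt S b c := by
      by_contra q
      push Not at q
      exact n2 (c3 q)
    exact v3 (t2 l1) (t3 l2)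

/-- Three linear forests whose degrees add up to even numbers. -/
structure Tri (F G H : Finset (Sym2 V)) : Prop where
  f : LF F
  g : LF G
  h : LF H
  ev : ∀ v, Even (dg F v + dg G v + dg H v)

lemma Tri.rot {F G H : Finset (Sym2 V)} (t : Tri F G H) : Tri G H F where
  f := t.g
  g := t.h
  h := t.f
  ev v := by
    have := t.ev v
    rwa [show dg G v + dg H v + dg F v = dg F v + dg G v + dg H v by ring]

lemma xor_insert {F G : Finset (Sym2 V)} {e : Sym2 V} (hF : e ∉ F) (hG : e ∉ G) :
    symmDiff (insert e F) (insert e G) = symmDiff F G := by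
  ext x
  simp only [mem_symmDiff, mem_insert]
  by_cases hx : x = e
  · subst hx
    simp [hF, hG]
  · simp [hx]

/-- Reduction: join two common ends of `F` and `G`. -/
lemma Tri.reduce [Fintype V] {F G H : Finset (Sym2 V)} (t : Tri F G H) (hT : 2 < #(TT F G)) :
    ∃ F' G', Tri F' G' H ∧ symmDiff F' G' = symmDiff F G ∧ #(TT F' G') + 2 = #(TT F G) ∧
      #(TT G' H) = #(TT G H) ∧ #(TT H F') = #(TT H F) := by
  obtain ⟨x, hx, y, hy, hxy, h1, h2⟩ := exists_good t.f t.g hT
  have hle : ∀ v ∈ TT F G, dg F v = 1 ∧ dg G v = 1 := by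
    intro v hv
    rw [mem_TT] at hv
    have h1 := t.f.le v
    have h2 := t.g.le v
    obtain ⟨⟨k, hk⟩, ⟨l, hl⟩⟩ := hv
    omega
  have nF : s(x, y) ∉ F := by
    intro hmem
    apply h1
    refine ⟨{s(x, y)}, by simpa using hmem, ?_⟩
    intro v
    have : dg {s(x, y)} v = if v = x ∨ v = y then 1 else 0 := by
      unfold dg
      rw [filter_singleton]
      simp only [Sym2.mem_iff]
      split_ifs <;> simp
    rw [this]
    split_ifs with hv <;> simp [hv]
  have nG : s(x, y) ∉ G := by
    intro hmem
    apply h2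
    refine ⟨{s(x, y)}, by simpa using hmem, ?_⟩
    intro v
    have : dg {s(x, y)} v = if v = x ∨ v = y then 1 else 0 := by
      unfold dg
      rw [filter_singleton]
      simp only [Sym2.mem_iff]
      split_ifs <;> simp
    rw [this]
    split_ifs with hv <;> simp [hv]
  have dF : ∀ v, dg (insert s(x, y) F) v = dg F v + if v = x ∨ v = y then 1 else 0 := by
    intro v
    have := dg_insert nF v
    simpa only [Sym2.mem_iff] using this
  have dG : ∀ v, dg (insert s(x, y) G) v = dg G v + if v = x ∨ v = y then 1 else 0 := by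
    intro v
    have := dg_insert nG v
    simpa only [Sym2.mem_iff] using this
  have hH : ∀ v, v = x ∨ v = y → ¬ Odd (dg H v) := by
    intro v hv
    have hv' : v ∈ TT F G := by
      rcases hv with rfl | rfl <;> assumption
    have h3 := hle v hv'
    have h4 := t.ev v
    rw [h3.1, h3.2] at h4
    rw [Nat.not_odd_iff_even]
    obtain ⟨k, hk⟩ := h4
    exact ⟨k - 1, by omega⟩
  refine ⟨insert s(x, y) F, insert s(x, y) G, ⟨?_, ?_, t.h, ?_⟩, xor_insert nF nG, ?_, ?_, ?_⟩
  · exact t.f.add hxy nF (hle x hx).1.le (hle y hy).1.le h1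
  · exact t.g.add hxy nG (hle x hx).2.le (hle y hy).2.le h2
  · intro v
    rw [dF, dG]
    have := t.ev v
    split_ifs with hv
    · rw [show dg F v + 1 + (dg G v + 1) + dg H v = dg F v + dg G v + dg H v + 2 by ring]
      exact this.add even_two
    · simpa using this
  · have : TT (insert s(x, y) F) (insert s(x, y) G) = (TT F G \ {x, y}) := by
      ext v
      rw [mem_TT, mem_sdiff, mem_TT, dF, dG]
      by_cases hv : v = x ∨ v = y
      · have hv' : v ∈ TT F G := by
          rcases hv with rfl | rfl <;> assumption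
        have h3 := hle v hv'
        rw [h3.1, h3.2]
        simp only [hv, if_true, mem_insert, mem_singleton, not_true_eq_false, and_false, iff_false]
        decide
      · simp only [hv, if_false, add_zero, mem_insert, mem_singleton, not_false_eq_true, and_true]
    rw [this, card_sdiff_of_subset (by
      intro v hv
      rw [mem_insert, mem_singleton] at hv
      rcases hv with rfl | rfl <;> assumption), card_pair hxy]
    omega
  · congr 1
    ext v
    rw [mem_TT, mem_TT, dG]
    by_cases hv : v = x ∨ v = y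
    · have := hH v hv
      tauto
    · simp only [hv, if_false, add_zero]
  · congr 1
    ext v
    rw [mem_TT, mem_TT, dF]
    by_cases hv : v = x ∨ v = y
    · have := hH v hv
      tauto
    · simp only [hv, if_false, add_zero]

/-- The edge sets of paths of the complete graph. -/
def IsP (P : Finset (Sym2 V)) : Prop :=
  ∃ (a b : V) (p : (⊤ : SimpleGraph V).Walk a b), p.IsPath ∧ a ≠ b ∧ ∀ e, e ∈ p.edges ↔ e ∈ P

lemma base_path [Fintype V] {F G H : Finset (Sym2 V)} (t : Tri F G H) (h1 : #(TT F G) = 1)
    (h2 : #(TT H F) = 1) : IsP F := by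
  obtain ⟨a, ha⟩ := card_eq_one.1 h1
  obtain ⟨b, hb⟩ := card_eq_one.1 h2
  have ha' : ∀ v, v = a ↔ Odd (dg F v) ∧ Odd (dg G v) := by
    intro v
    rw [← mem_TT, ha, mem_singleton]
  have hb' : ∀ v, v = b ↔ Odd (dg H v) ∧ Odd (dg F v) := by
    intro v
    rw [← mem_TT, hb, mem_singleton]
  have hab : a ≠ b := by
    intro hab
    have h3 := (ha' a).1 rfl
    have h4 := (hb' a).1 hab
    have h5 := t.ev a
    have h6 := (h3.1.add_odd h3.2).add_odd h4.1
    exact (Nat.not_even_iff_odd.2 h6) h5
  obtain ⟨p, hp1, hp2, -⟩ := LF.exists_path _ F rfl t.f a b hab (by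
    intro v
    constructor
    · intro ho
      have h5 := t.ev v
      by_cases hg : Odd (dg G v)
      · exact Or.inl ((ha' v).2 ⟨ho, hg⟩)
      · right
        rw [hb' v]
        refine ⟨?_, ho⟩
        by_contra hh
        rw [Nat.not_odd_iff_even] at hg hh
        have h6 := (ho.add_even hg).add_even hh
        exact (Nat.not_even_iff_odd.2 h6) h5
    · rintro (hv | hv)
      · exact ((ha' v).1 hv).1
      · exact ((hb' v).1 hv).2)
  exact ⟨a, b, p, hp1, hab, hp2⟩

/-- Linking: three linear forests with odd numbers of common ends. -/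
theorem link [Fintype V] : ∀ (n : ℕ) (F G H : Finset (Sym2 V)),
    #(TT F G) + #(TT G H) + #(TT H F) ≤ n → Tri F G H → Odd #(TT F G) → Odd #(TT G H) →
    Odd #(TT H F) → ∃ P Q R : Finset (Sym2 V), IsP P ∧ IsP Q ∧ IsP R ∧
      symmDiff (symmDiff P Q) R = symmDiff (symmDiff F G) H := by
  intro n
  induction n using Nat.strong_induction_on with
  | _ n ih =>
    intro F G H hn t o1 o2 o3
    by_cases c1 : 2 < #(TT F G)
    · obtain ⟨F', G', t', hx, e1, e2, e3⟩ := t.reduce c1
      obtain ⟨P, Q, R, hP, hQ, hR, h⟩ := ih (n - 2) (by omega) F' G' H (by omega) t'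
        (by rw [← e1] at o1; simpa [Nat.odd_add, Nat.even_iff, Nat.odd_iff] using o1)
        (by rwa [e2]) (by rwa [e3])
      exact ⟨P, Q, R, hP, hQ, hR, by rw [h, hx]⟩
    by_cases c2 : 2 < #(TT G H)
    · obtain ⟨F', G', t', hx, e1, e2, e3⟩ := t.rot.reduce c2
      obtain ⟨P, Q, R, hP, hQ, hR, h⟩ := ih (n - 2) (by omega) F' G' F (by omega) t'
        (by rw [← e1] at o2; simpa [Nat.odd_add, Nat.even_iff, Nat.odd_iff] using o2)
        (by rwa [e2]) (by rwa [e3])
      refine ⟨P, Q, R, hP, hQ, hR, ?_⟩
      rw [h, hx, symmDiff_comm, symmDiff_assoc]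
    by_cases c3 : 2 < #(TT H F)
    · obtain ⟨F', G', t', hx, e1, e2, e3⟩ := t.rot.rot.reduce c3
      obtain ⟨P, Q, R, hP, hQ, hR, h⟩ := ih (n - 2) (by omega) F' G' G (by omega) t'
        (by rw [← e1] at o3; simpa [Nat.odd_add, Nat.even_iff, Nat.odd_iff] using o3)
        (by rwa [e2]) (by rwa [e3])
      refine ⟨P, Q, R, hP, hQ, hR, ?_⟩
      rw [h, hx, symmDiff_assoc, symmDiff_comm]
    have q1 := o1.pos
    have q2 := o2.pos
    have q3 := o3.pos
    have k1 : #(TT F G) = 1 := by
      obtain ⟨k, hk⟩ := o1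
      omega
    have k2 : #(TT G H) = 1 := by
      obtain ⟨k, hk⟩ := o2
      omega
    have k3 : #(TT H F) = 1 := by
      obtain ⟨k, hk⟩ := o3
      omega
    exact ⟨F, G, H, base_path t k1 k3, base_path t.rot k2 k1, base_path t.rot.rot k3 k2, rfl⟩

/-- Odd numbers of common ends come together. -/
lemma odd_transfer [Fintype V] {F G H : Finset (Sym2 V)} (t : Tri F G H) (h : Odd #(TT F G)) :
    Odd #(TT G H) := by
  have h1 := even_odd t.g.ll
  have h2 : ({v | Odd (dg G v)} : Finset V) = TT F G ∪ TT G H := by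
    ext v
    rw [mem_union, mem_TT, mem_TT, mem_filter]
    have h5 := t.ev v
    constructor
    · rintro ⟨-, ho⟩
      by_cases hf : Odd (dg F v)
      · exact Or.inl ⟨hf, ho⟩
      · right
        refine ⟨ho, ?_⟩
        by_contra hh
        rw [Nat.not_odd_iff_even] at hf hh
        have h6 := (hf.add_odd ho).add_even hh
        exact (Nat.not_even_iff_odd.2 h6) h5
    · rintro (h | h)
      · exact ⟨mem_univ _, h.2⟩
      · exact ⟨mem_univ _, h.1⟩
  have h3 : Disjoint (TT F G) (TT G H) := by
    rw [Finset.disjoint_left]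
    intro v hv hv'
    rw [mem_TT] at hv hv'
    have h6 := (hv.1.add_odd hv.2).add_odd hv'.2
    exact (Nat.not_even_iff_odd.2 h6) (t.ev v)
  rw [h2, card_union_of_disjoint h3] at h1
  by_contra hcon
  rw [Nat.not_odd_iff_even] at hcon
  exact (Nat.not_even_iff_odd.2 (h.add_even hcon)) h1

theorem link' [Fintype V] {F G H : Finset (Sym2 V)} (t : Tri F G H) (h : Odd #(TT F G)) :
    ∃ P Q R : Finset (Sym2 V), IsP P ∧ IsP Q ∧ IsP R ∧
      symmDiff (symmDiff P Q) R = symmDiff (symmDiff F G) H := by
  have h2 := odd_transfer t h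
  exact link _ F G H le_rfl t h h2 (odd_transfer t.rot h2)

end Run7.h14.Pq
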