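import Mathlib
import Pool.Agent.Run7.h14.PqBasic

set_option autoImplicit false
set_option linter.unusedSectionVars false

/-!
# Selectors: one edge from every cycle of an edge set of maximum degree two
-/

namespace Run7.h14.Pq

open Finset

variable {V : Type*} [DecidableEq V]

/-- Loopless edge sets of maximum degree at most two. -/
structure D2 (B : Finset (Sym2 V)) : Prop where
  ll : LL B
  le : ∀ v, dg B v ≤ 2

/-- Partial selectors: every member is the only member of `E` in some even subset of `B`. -/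
structure PSel (B E : Finset (Sym2 V)) : Prop where
  sub : E ⊆ B
  priv : ∀ e ∈ E, ∃ S ⊆ B, Ev S ∧ S ∩ E = {e}

/-- Selectors: partial selectors that meet every nonempty even subset of `B`. -/
structure Sel (B E : Finset (Sym2 V)) : Prop extends PSel B E where
  hit : ∀ S ⊆ B, Ev S → S.Nonempty → (S ∩ E).Nonempty

lemma PSel.priv' {B E : Finset (Sym2 V)} (h : PSel B E) {e : Sym2 V} (he : e ∈ E) :
    ∃ S ⊆ B, Ev S ∧ e ∈ S ∧ ∀ f ∈ E, f ∈ S → f = e := by
  obtain ⟨S, h1, h2, h3⟩ := h.priv e he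
  have h4 := Finset.ext_iff.1 h3
  simp only [mem_inter, mem_singleton] at h4
  exact ⟨S, h1, h2, ((h4 e).2 rfl).1, fun f hf hf' => (h4 f).1 ⟨hf', hf⟩⟩

/-- A selector is a matching. -/
lemma PSel.matching {B E : Finset (Sym2 V)} (hB : D2 B) (h : PSel B E) {e f : Sym2 V} {v : V}
    (he : e ∈ E) (hf : f ∈ E) (hve : v ∈ e) (hvf : v ∈ f) : e = f := by
  obtain ⟨S, h1, h2, h3, h4⟩ := h.priv' he
  exact (h4 f hf (closed h1 (hB.le v) (h2 v) h3 hve (h.sub hf) hvf)).symm

lemma PSel.dg_le {B E : Finset (Sym2 V)} (hB : D2 B) (h : PSel B E) (v : V) : dg E v ≤ 1 := by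
  unfold dg
  rw [card_le_one]
  intro e he f hf
  rw [mem_filter] at he hf
  exact h.matching hB he.1 hf.1 he.2 hf.2

/-- A covered vertex has degree two. -/
lemma PSel.dg_two {B E : Finset (Sym2 V)} (hB : D2 B) (h : PSel B E) {v : V} (hv : 1 ≤ dg E v) :
    dg B v = 2 := by
  obtain ⟨w, hw⟩ := exists_of_dg hv
  obtain ⟨S, h1, h2, h3, -⟩ := h.priv' hw
  have h4 := dg_pos h3 (v := v) (by simp)
  have h5 := dg_mono h1 v
  have h6 := hB.le v
  obtain ⟨k, hk⟩ := h2 v
  omega

lemma PSel.lf {B E : Finset (Sym2 V)} (hB : D2 B) (h : PSel B E) : LF E where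
  ll := hB.ll.mono h.sub
  le v := (h.dg_le hB v).trans (by norm_num)
  ac S hS hev := by
    by_contra hne
    obtain ⟨e, he⟩ := nonempty_iff_ne_empty.2 hne
    induction e using Sym2.ind with
    | _ x y =>
      have h1 := dg_pos he (v := x) (by simp)
      have h2 := (dg_mono hS x).trans (h.dg_le hB x)
      obtain ⟨k, hk⟩ := hev x
      omega

lemma Sel.lf_sdiff {B E : Finset (Sym2 V)} (hB : D2 B) (h : Sel B E) : LF (B \ E) where
  ll := hB.ll.mono sdiff_subset
  le v := (dg_mono sdiff_subset v).trans (hB.le v)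
  ac S hS hev := by
    by_contra hne
    obtain ⟨e, he⟩ := h.hit S (hS.trans sdiff_subset) hev (nonempty_iff_ne_empty.2 hne)
    rw [mem_inter] at he
    have := hS he.1
    rw [mem_sdiff] at this
    exact this.2 he.2

/-- Even subsets are closed under removing another even subset. -/
lemma ev_sdiff {B S T : Finset (Sym2 V)} (hB : D2 B) (hS : S ⊆ B) (hT : T ⊆ B) (eS : Ev S)
    (eT : Ev T) : Ev (S \ T) := by
  intro v
  by_cases h : ∃ e ∈ T, v ∈ e
  · obtain ⟨e, he, hve⟩ := h
    have : dg (S \ T) v = 0 := by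
      rw [dg_eq_zero]
      intro f hf hvf
      rw [mem_sdiff] at hf
      exact hf.2 (closed hT (hB.le v) (eT v) he hve (hS hf.1) hvf)
    simp [this]
  · push Not at h
    have : dg (S \ T) v = dg S v := by
      unfold dg
      congr 1
      ext f
      simp only [mem_filter, mem_sdiff]
      constructor
      · rintro ⟨⟨h1, -⟩, h2⟩
        exact ⟨h1, h2⟩
      · rintro ⟨h1, h2⟩
        exact ⟨⟨h1, fun h3 => h f h3 h2⟩, h2⟩
    rw [this]
    exact eS v

/-- Adding an edge of an even set that is not met. -/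
lemma PSel.insert {B E : Finset (Sym2 V)} (hB : D2 B) (h : PSel B E) {S : Finset (Sym2 V)}
    (hS : S ⊆ B) (eS : Ev S) (hd : ∀ f ∈ S, f ∉ E) {e : Sym2 V} (he : e ∈ S) :
    PSel B (insert e E) where
  sub := by
    intro f hf
    rw [mem_insert] at hf
    rcases hf with rfl | hf
    · exact hS he
    · exact h.sub hf
  priv f hf := by
    rw [mem_insert] at hf
    rcases hf with rfl | hf
    · refine ⟨S, hS, eS, ?_⟩
      ext g
      simp only [mem_inter, mem_insert, mem_singleton]
      constructor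
      · rintro ⟨h1, h2 | h2⟩
        · exact h2
        · exact absurd h2 (hd g h1)
      · rintro rfl
        exact ⟨he, Or.inl rfl⟩
    · obtain ⟨T, h1, h2, h3, h4⟩ := h.priv' hf
      refine ⟨T \ S, sdiff_subset.trans h1, ev_sdiff hB h1 hS h2 eS, ?_⟩
      ext g
      simp only [mem_inter, mem_insert, mem_singleton, mem_sdiff]
      constructor
      · rintro ⟨⟨g1, g2⟩, rfl | g3⟩
        · exact absurd he g2
        · exact h4 g g3 g1
      · rintro rfl
        exact ⟨⟨h3, fun h5 => hd _ h5 hf⟩, Or.inr hf⟩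

/-- Partial selectors extend to selectors, keeping the union with a matching `F` acyclic. -/
theorem PSel.extend [Fintype V] {B F : Finset (Sym2 V)} (hB : D2 B) (hF : ∀ v, dg F v ≤ 1)
    (hFB : Disjoint F B) : ∀ (n : ℕ) (E : Finset (Sym2 V)), #(B \ E) ≤ n → PSel B E → LF (F ∪ E) →
      ∃ E', E ⊆ E' ∧ Sel B E' ∧ LF (F ∪ E') := by
  intro n
  induction n with
  | zero =>
    intro E hn h hlf
    refine ⟨E, Subset.rfl, ⟨h, ?_⟩, hlf⟩
    intro S hS eS hne
    obtain ⟨e, he⟩ := hne
    refine ⟨e, mem_inter.2 ⟨he, ?_⟩⟩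
    by_contra hcon
    have : e ∈ B \ E := mem_sdiff.2 ⟨hS he, hcon⟩
    have := card_pos.2 ⟨e, this⟩
    omega
  | succ n ih =>
    intro E hn h hlf
    by_cases hhit : ∀ S ⊆ B, Ev S → S.Nonempty → (S ∩ E).Nonempty
    · exact ⟨E, Subset.rfl, ⟨h, hhit⟩, hlf⟩
    push Not at hhit
    obtain ⟨S, hS, eS, ⟨e, he⟩, hdis⟩ := hhit
    have hd : ∀ f ∈ S, f ∉ E := by
      intro f hf hf'
      have : f ∈ S ∩ E := mem_inter.2 ⟨hf, hf'⟩
      rw [hdis] at this
      simp at this
    -- an edge of `S` at `v` forces `v` to be uncovered by `E`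
    have hunc : ∀ v, 1 ≤ dg S v → dg E v = 0 := by
      intro v hv
      rw [dg_eq_zero]
      intro f hf hvf
      obtain ⟨w, hw⟩ := exists_of_dg hv
      exact hd f (closed hS (hB.le v) (eS v) hw (by simp) (h.sub hf) hvf) hf
    have hdisj : ∀ E'' ⊆ B, Disjoint F E'' := fun E'' hE => hFB.mono_right hE
    have hcov : ∀ v, 1 ≤ dg S v → dg (F ∪ E) v ≤ 1 := by
      intro v hv
      rw [dg_union (hdisj E h.sub), hunc v hv]
      exact hF v
    -- one step
    have step : ∀ g ∈ S, LF (Insert.insert g (F ∪ E)) →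
        ∃ E', E ⊆ E' ∧ Sel B E' ∧ LF (F ∪ E') := by
      intro g hg hlf'
      have hlt : #(B \ Insert.insert g E) ≤ n := by
        have h1 : B \ Insert.insert g E ⊂ B \ E := by
          rw [ssubset_iff_of_subset (sdiff_subset_sdiff Subset.rfl (subset_insert _ _))]
          exact ⟨g, mem_sdiff.2 ⟨hS hg, hd g hg⟩, by simp⟩
        have := card_lt_card h1
        omega
      obtain ⟨E', h1, h2, h3⟩ := ih (Insert.insert g E) hlt (h.insert hB hS eS hd hg) (by
        rw [union_insert]
        exact hlf')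
      exact ⟨E', (subset_insert _ _).trans h1, h2, h3⟩
    induction e using Sym2.ind with
    | _ x y =>
      have hx : 1 ≤ dg S x := dg_pos he (by simp)
      have hy : 1 ≤ dg S y := dg_pos he (by simp)
      have hy2 : 2 ≤ dg S y := by
        obtain ⟨k, hk⟩ := eS y
        omega
      obtain ⟨z, hzx, hz⟩ := exists_second hy2 x
      have hz1 : 1 ≤ dg S z := dg_pos hz (by simp)
      have hxy : x ≠ y := hB.ll.ne (hS he)
      have hyz : y ≠ z := hB.ll.ne (hS hz)
      have n1 : s(x, y) ∉ F ∪ E := by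
        rw [mem_union]
        rintro (h1 | h1)
        · exact (Finset.disjoint_left.1 hFB) h1 (hS he)
        · exact hd _ he h1
      have n2 : s(y, z) ∉ F ∪ E := by
        rw [mem_union]
        rintro (h1 | h1)
        · exact (Finset.disjoint_left.1 hFB) h1 (hS hz)
        · exact hd _ hz h1
      by_cases c1 : ∃ T ⊆ F ∪ E, OddAt T x y
      · by_cases c2 : ∃ T ⊆ F ∪ E, OddAt T y z
        · exfalso
          obtain ⟨T, hT, oT⟩ := c1
          obtain ⟨T', hT', oT'⟩ := c2
          exact hlf.unique (hcov y hy) (hcov x hx) (hcov z hz1) hxy.symm hyz hzx.symm hT hT'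
            (fun v => by rw [oT v, or_comm]) oT'
        · exact step _ hz (hlf.add hyz n2 (hcov y hy) (hcov z hz1) c2)
      · exact step _ he (hlf.add hxy n1 (hcov x hx) (hcov y hy) c1)

/-- Extending a single edge. -/
lemma extend_one [Fintype V] {B F : Finset (Sym2 V)} (hB : D2 B) (hF : ∀ v, dg F v ≤ 1)
    (hlf : LF F) (hFB : Disjoint F B) {S : Finset (Sym2 V)} (hS : S ⊆ B) (eS : Ev S) {e : Sym2 V}
    (he : e ∈ S) : ∃ E, e ∈ E ∧ Sel B E ∧ LF (F ∪ E) := by
  have h0 : PSel B (∅ : Finset (Sym2 V)) := ⟨empty_subset _, by simp⟩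
  have h1 : PSel B (insert e (∅ : Finset (Sym2 V))) := h0.insert hB hS eS (by simp) he
  have h2 : LF (F ∪ insert e ∅) := by
    rw [union_insert, union_empty]
    induction e using Sym2.ind with
    | _ x y =>
      have n1 : s(x, y) ∉ F := fun h => (Finset.disjoint_left.1 hFB) h (hS he)
      apply hlf.add (hB.ll.ne (hS he)) n1 (hF x) (hF y)
      rintro ⟨T, hT, oT⟩
      have o1 : Odd (dg T x) := (oT x).2 (Or.inl rfl)
      obtain ⟨w, hw⟩ := exists_of_dg (S := T) (v := x) o1.pos
      have o2 : 1 ≤ dg T w := dg_pos hw (by simp)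
      have o3 : dg T w = 1 := le_antisymm ((dg_mono hT w).trans (hF w)) o2
      have o4 : w = x ∨ w = y := (oT w).1 (by rw [o3]; exact odd_one)
      rcases o4 with rfl | rfl
      · exact (hlf.ll.ne (hT hw)) rfl
      · exact n1 (hT hw)
  obtain ⟨E', h3, h4, h5⟩ := PSel.extend hB hF hFB _ _ le_rfl h1 h2
  exact ⟨E', h3 (by simp), h4, h5⟩

/-- Extending the empty selector. -/
lemma extend_zero [Fintype V] {B F : Finset (Sym2 V)} (hB : D2 B) (hF : ∀ v, dg F v ≤ 1)
    (hlf : LF F) (hFB : Disjoint F B) : ∃ E, Sel B E ∧ LF (F ∪ E) := by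
  have h0 : PSel B (∅ : Finset (Sym2 V)) := ⟨empty_subset _, by simp⟩
  obtain ⟨E', -, h4, h5⟩ := PSel.extend hB hF hFB _ _ le_rfl h0 (by simpa using hlf)
  exact ⟨E', h4, h5⟩

/-- Shifting a selected edge `xy` to the next edge `yz`. -/
lemma Sel.shift {B E : Finset (Sym2 V)} (hB : D2 B) (h : Sel B E) {x y z : V} (hxz : x ≠ z)
    (hxy : s(x, y) ∈ E) (hyz : s(y, z) ∈ B) :
    s(y, z) ∉ E ∧ Sel B (insert s(y, z) (E.erase s(x, y))) := by
  have hne : s(x, y) ≠ s(y, z) := by
    intro he
    rw [Sym2.eq_iff] at he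
    have := hB.ll.ne hyz
    rcases he with ⟨h1, h2⟩ | ⟨h1, h2⟩
    · exact this h2
    · exact hxz h1
  -- even subsets contain both or none
  have both : ∀ S ⊆ B, Ev S → (s(x, y) ∈ S ↔ s(y, z) ∈ S) := by
    intro S hS eS
    constructor
    · intro h1
      exact closed hS (hB.le y) (eS y) h1 (by simp) hyz (by simp)
    · intro h1
      exact closed hS (hB.le y) (eS y) h1 (by simp) (h.sub hxy) (by simp)
  have hnot : s(y, z) ∉ E := fun hmem =>
    hne (h.matching hB hxy hmem (v := y) (by simp) (by simp))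
  refine ⟨hnot, ⟨?_, ?_⟩, ?_⟩
  · intro f hf
    rw [mem_insert, mem_erase] at hf
    rcases hf with rfl | hf
    · exact hyz
    · exact h.sub hf.2
  · intro f hf
    rw [mem_insert, mem_erase] at hf
    rcases hf with rfl | hf
    · obtain ⟨S, h1, h2, h3, h4⟩ := h.priv' hxy
      refine ⟨S, h1, h2, ?_⟩
      ext g
      simp only [mem_inter, mem_insert, mem_singleton, mem_erase]
      constructor
      · rintro ⟨g1, g2 | g2⟩
        · exact g2
        · exact absurd (h4 g g2.2 g1) g2.1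
      · rintro rfl
        exact ⟨(both S h1 h2).1 h3, Or.inl rfl⟩
    · obtain ⟨S, h1, h2, h3, h4⟩ := h.priv' hf.2
      refine ⟨S, h1, h2, ?_⟩
      ext g
      simp only [mem_inter, mem_insert, mem_singleton, mem_erase]
      constructor
      · rintro ⟨g1, rfl | g2⟩
        · exact absurd (h4 _ hxy ((both S h1 h2).2 g1)).symm hf.1
        · exact h4 g g2.2 g1
      · rintro rfl
        exact ⟨h3, Or.inr hf⟩
  · intro S hS eS hne'
    obtain ⟨g, hg⟩ := h.hit S hS eS hne'
    rw [mem_inter] at hg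
    by_cases hg' : g = s(x, y)
    · refine ⟨s(y, z), mem_inter.2 ⟨?_, mem_insert_self _ _⟩⟩
      rw [← both S hS eS, ← hg']
      exact hg.1
    · exact ⟨g, mem_inter.2 ⟨hg.1, mem_insert_of_mem (mem_erase.2 ⟨hg', hg.2⟩)⟩⟩

end Run7.h14.Pq
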