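import Mathlib
import Pool.Agent.Run7.h14.PqSel
import Pool.Agent.Run7.h14.PqLink

set_option autoImplicit false
set_option linter.unusedSectionVars false

/-!
# Three linear forests with odd numbers of common ends
-/

namespace Run7.h14.Pq

open Finset

variable {V : Type*} [DecidableEq V]

/-- The goal: three linear forests with sum `X` and an odd number of common ends of the first two. -/
def Conc [Fintype V] (X : Finset (Sym2 V)) : Prop :=
  ∃ F G H : Finset (Sym2 V), Tri F G H ∧ symmDiff (symmDiff F G) H = X ∧ Odd #(TT F G)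

lemma tri_of_sel {A B EA EB : Finset (Sym2 V)} (hA : D2 A) (hB : D2 B) (hAB : Disjoint A B)
    (hev : ∀ v, Even (dg A v + dg B v)) (sA : Sel A EA) (sB : Sel B EB) (hlf : LF (EA ∪ EB)) :
    Tri (A \ EA) (B \ EB) (EA ∪ EB) where
  f := sA.lf_sdiff hA
  g := sB.lf_sdiff hB
  h := hlf
  ev v := by
    have h1 := dg_sdiff sA.sub v
    have h2 := dg_sdiff sB.sub v
    have h3 := dg_union ((hAB.mono_left sA.sub).mono_right sB.sub) v
    have h4 := hev v
    rw [h3, show dg (A \ EA) v + dg (B \ EB) v + (dg EA v + dg EB v) = dg A v + dg B v by omega]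
    exact h4

lemma xor_of_sel {A B EA EB : Finset (Sym2 V)} (hAB : Disjoint A B) (sA : EA ⊆ A) (sB : EB ⊆ B) :
    symmDiff (symmDiff (A \ EA) (B \ EB)) (EA ∪ EB) = A ∪ B := by
  ext e
  have h1 := @sA e
  have h2 := @sB e
  have h3 : e ∈ A → e ∉ B := fun h => (Finset.disjoint_left.1 hAB) h
  simp only [mem_symmDiff, mem_sdiff, mem_union]
  tauto

lemma dg_shift {E : Finset (Sym2 V)} {e f : Sym2 V} (he : e ∈ E) (hf : f ∉ E) (v : V) :
    dg (insert f (E.erase e)) v + (if v ∈ e then 1 else 0) = dg E v + if v ∈ f then 1 else 0 := by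
  rw [dg_insert (fun h => hf (mem_of_mem_erase h)), ← dg_erase he v]
  ring

/-- Two adjacent uncovered vertices next to a covered one on a cycle of `B` give the goal. -/
lemma fact2 [Fintype V] {A B EA : Finset (Sym2 V)} (hA : D2 A) (hB : D2 B) (hAB : Disjoint A B)
    (hev : ∀ v, Even (dg A v + dg B v)) (hyp : ¬ Conc (A ∪ B)) (sA : Sel A EA) {u p q : V}
    (hpq : p ≠ q) {S : Finset (Sym2 V)} (hS : S ⊆ B) (eS : Ev S) (hup : s(u, p) ∈ S)
    (huq : s(u, q) ∈ B) (hu : dg EA u = 0) (hp : dg EA p = 0) (hq : dg EA q ≠ 0) : False := by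
  have hpu : s(p, u) = s(u, p) := Sym2.eq_swap
  obtain ⟨EB, hmem, sB, hlf⟩ := extend_one (F := EA) hB (sA.dg_le hA) (sA.lf hA)
    (hAB.mono_left sA.sub) hS eS hup
  obtain ⟨hnot, sB'⟩ := sB.shift hB (x := p) (y := u) (z := q) hpq (by rw [hpu]; exact hmem) huq
  rw [hpu] at sB'
  have hup' : u ≠ p := hB.ll.ne (hS hup)
  have huq' : u ≠ q := hB.ll.ne huq
  have hsh : ∀ v, dg (insert s(u, q) (EB.erase s(u, p))) v + (if v = u ∨ v = p then 1 else 0) =
      dg EB v + if v = u ∨ v = q then 1 else 0 := by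
    intro v
    have := dg_shift hmem hnot v
    simpa only [Sym2.mem_iff] using this
  have her : ∀ v, dg (EB.erase s(u, p)) v + (if v = u ∨ v = p then 1 else 0) = dg EB v := by
    intro v
    have := dg_erase hmem v
    simpa only [Sym2.mem_iff] using this
  have hle := sB.dg_le hB
  have hle' := sB'.dg_le hB
  have huS : 1 ≤ dg S u := dg_pos hup (by simp)
  have hpS : 1 ≤ dg S p := dg_pos hup (by simp)
  have huqS : s(u, q) ∈ S := closed hS (hB.le u) (eS u) hup (by simp) huq (by simp)
  have hqS : 1 ≤ dg S q := dg_pos huqS (by simp)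
  have two : ∀ v, 1 ≤ dg S v → dg B v = 2 := by
    intro v hv
    have h1 := dg_mono hS v
    have h2 := hB.le v
    obtain ⟨k, hk⟩ := eS v
    omega
  have hlf' : LF (EA ∪ insert s(u, q) (EB.erase s(u, p))) := by
    rw [union_insert]
    have hsub : EA ∪ EB.erase s(u, p) ⊆ EA ∪ EB := union_subset_union Subset.rfl (erase_subset _ _)
    have hdis : Disjoint EA (EB.erase s(u, p)) :=
      (hAB.mono_left sA.sub).mono_right ((erase_subset _ _).trans sB.sub)
    apply (hlf.mono hsub).add_free huq'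
    · rw [dg_union hdis]
      have h1 := her u
      have h2 := hle u
      simp only [true_or, if_true] at h1
      omega
    · rw [dg_union hdis]
      have h1 := her q
      have h2 := hsh q
      have h3 := hle' q
      have h4 := sA.dg_le hA q
      simp only [huq'.symm, hpq.symm, or_false, or_true, if_false, if_true, add_zero] at h1 h2
      omega
  have t1 := tri_of_sel hA hB hAB hev sA sB hlf
  have t2 := tri_of_sel hA hB hAB hev sA sB' hlf'
  have x1 := xor_of_sel hAB sA.sub sB.sub
  have x2 := xor_of_sel hAB sA.sub sB'.sub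
  have n1 : ¬ Odd #(TT (A \ EA) (B \ EB)) := fun h => hyp ⟨_, _, _, t1, x1, h⟩
  have n2 : ¬ Odd #(TT (A \ EA) (B \ insert s(u, q) (EB.erase s(u, p)))) :=
    fun h => hyp ⟨_, _, _, t2, x2, h⟩
  have hqn : q ∉ TT (A \ EA) (B \ EB) := by
    rw [mem_TT]
    rintro ⟨-, h⟩
    have h1 := dg_sdiff sB.sub q
    have h2 := hsh q
    have h3 := hle' q
    have h4 := two q hqS
    simp only [huq'.symm, hpq.symm, or_false, or_true, if_false, if_true, add_zero] at h2
    have h5 : dg (B \ EB) q = 2 := by omega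
    rw [h5] at h
    exact (by decide : ¬ Odd 2) h
  have hT : TT (A \ EA) (B \ insert s(u, q) (EB.erase s(u, p))) =
      insert q (TT (A \ EA) (B \ EB)) := by
    ext v
    rw [mem_insert, mem_TT, mem_TT]
    have h1 := dg_sdiff sB.sub v
    have h2 := dg_sdiff sB'.sub v
    have h3 := hsh v
    by_cases hvq : v = q
    · subst hvq
      simp only [true_or, iff_true]
      have g1 := dg_sdiff sA.sub v
      have g2 := sA.dg_le hA v
      have g3 := sA.dg_two hA (v := v) (by omega)
      have g4 := two v hqS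
      have g5 := hle' v
      simp only [huq'.symm, hpq.symm, or_false, or_true, if_false, if_true, add_zero] at h3
      have e1 : dg (A \ EA) v = 1 := by omega
      have e2 : dg (B \ insert s(u, v) (EB.erase s(u, p))) v = 1 := by omega
      rw [e1, e2]
      exact ⟨odd_one, odd_one⟩
    · by_cases hvp : v = p
      · subst hvp
        simp only [hvq, false_or]
        have g1 := dg_sdiff sA.sub v
        have g4 := two v hpS
        have g5 := hev v
        have e1 : ¬ Odd (dg (A \ EA) v) := by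
          rw [Nat.not_odd_iff_even]
          obtain ⟨k, hk⟩ := g5
          exact ⟨k - 1, by omega⟩
        tauto
      · simp only [hvq, hvp, or_false, false_or] at h3 ⊢
        have e1 : dg (B \ insert s(u, q) (EB.erase s(u, p))) v = dg (B \ EB) v := by omega
        rw [e1]
  rw [hT, card_insert_of_notMem hqn] at n2
  rw [Nat.not_odd_iff_even] at n1
  exact n2 (n1.add_one)

/-- An uncovered vertex next to a covered one on a cycle of `B` gives the goal. -/
lemma mixed [Fintype V] {A B EA : Finset (Sym2 V)} (hA : D2 A) (hB : D2 B) (hAB : Disjoint A B)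
    (hev : ∀ v, Even (dg A v + dg B v)) (hyp : ¬ Conc (A ∪ B)) (sA : Sel A EA) {u p : V}
    {S : Finset (Sym2 V)} (hS : S ⊆ B) (eS : Ev S) (hup : s(u, p) ∈ S)
    (hu : dg EA u = 0) (hp : dg EA p ≠ 0) : False := by
  have huS : 2 ≤ dg S u := by
    have h1 := dg_pos hup (v := u) (by simp)
    obtain ⟨k, hk⟩ := eS u
    omega
  obtain ⟨q, hqp, huq⟩ := exists_second huS p
  have hq : dg EA q ≠ 0 := by
    intro hq
    exact fact2 hA hB hAB hev hyp sA hqp hS eS huq (hS hup) hu hq hp
  have key : ∀ p q : V, p ≠ q → s(u, p) ∈ S → s(u, q) ∈ S → dg EA p ≠ 0 → dg EA q ≠ 0 →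
      ∃ p', s(p, p') ∈ EA ∧ s(p', u) ∈ A := by
    intro p q hpq hup huq hp hq
    obtain ⟨p', hp'⟩ := exists_of_dg (S := EA) (v := p) (by omega)
    have hp'1 : 1 ≤ dg EA p' := dg_pos hp' (by simp)
    have hp'2 := sA.dg_two hA hp'1
    obtain ⟨p'', hp''p, hp''⟩ := exists_second (S := A) (v := p') (by omega) p
    refine ⟨p', hp', ?_⟩
    by_cases hc : p'' = u
    · rwa [hc] at hp''
    exfalso
    obtain ⟨hnot, sA'⟩ := sA.shift hA (x := p) (y := p') (z := p'') hp''p.symm hp' hp''
    have hsh : ∀ v, dg (insert s(p', p'') (EA.erase s(p, p'))) v + (if v = p ∨ v = p' then 1 else 0) =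
        dg EA v + if v = p' ∨ v = p'' then 1 else 0 := by
      intro v
      have := dg_shift hp' hnot v
      simpa only [Sym2.mem_iff] using this
    have hpp' : p ≠ p' := hA.ll.ne (sA.sub hp')
    have hup1 : u ≠ p := by
      rintro rfl
      exact hp hu
    have hup2 : u ≠ p' := by
      rintro rfl
      omega
    refine fact2 hA hB hAB hev hyp sA' hpq hS eS hup (hS huq) ?_ ?_ ?_
    · have h1 := hsh u
      simp only [hup1, hup2, Ne.symm hc, or_self, if_false, add_zero] at h1
      omega
    · have h1 := hsh p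
      have h2 := sA.dg_le hA p
      simp only [hpp', hp''p.symm, true_or, or_self, if_true, if_false, add_zero] at h1
      omega
    · have h1 := hsh q
      by_cases hqp' : q = p'
      · simp only [hqp', true_or, or_true, if_true] at h1 ⊢
        omega
      · simp only [hpq.symm, hqp', or_self, if_false, add_zero, false_or] at h1
        split_ifs at h1 <;> omega
  obtain ⟨p', hp1, hp2⟩ := key p q hqp.symm hup huq hp hq
  obtain ⟨q', hq1, hq2⟩ := key q p hqp huq hup hq hp
  obtain ⟨T, hT, eT, hpT, huniq⟩ := sA.priv' hp1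
  have c1 : s(p', u) ∈ T := closed hT (hA.le p') (eT p') hpT (by simp) hp2 (by simp)
  have c2 : s(q', u) ∈ T := closed hT (hA.le u) (eT u) c1 (by simp) hq2 (by simp)
  have c3 : s(q, q') ∈ T := closed hT (hA.le q') (eT q') c2 (by simp) (sA.sub hq1) (by simp)
  have c4 := huniq _ hq1 c3
  rw [Sym2.eq_iff] at c4
  rcases c4 with ⟨h1, -⟩ | ⟨-, h2⟩
  · exact hqp h1
  · rw [h2] at hq2
    have : s(p, u) = s(u, p) := Sym2.eq_swap
    rw [this] at hq2
    exact (Finset.disjoint_left.1 hAB) hq2 (hS hup)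

/-- A vertex on a cycle of `A` and on a cycle of `B`. -/
lemma case2 [Fintype V] {A B : Finset (Sym2 V)} (hA : D2 A) (hB : D2 B) (hAB : Disjoint A B)
    (hev : ∀ v, Even (dg A v + dg B v)) {x : V} {S T : Finset (Sym2 V)} (hS : S ⊆ A) (eS : Ev S)
    (hx : 1 ≤ dg S x) (hT : T ⊆ B) (eT : Ev T) (hx' : 1 ≤ dg T x) : Conc (A ∪ B) := by
  by_contra hyp
  obtain ⟨y, hy⟩ := exists_of_dg hx
  obtain ⟨w, hw⟩ := exists_of_dg hx'
  obtain ⟨EA, hmem, sA, -⟩ := extend_one (F := ∅) hA (by simp [dg]) LF.empty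
    (Finset.disjoint_empty_left _) hS eS hy
  have hxy : x ≠ y := hA.ll.ne (hS hy)
  have hxw : x ≠ w := hB.ll.ne (hT hw)
  have hx1 : 1 ≤ dg EA x := dg_pos hmem (by simp)
  have hy1 : 1 ≤ dg EA y := dg_pos hmem (by simp)
  by_cases hw0 : dg EA w = 0
  · have : s(w, x) = s(x, w) := Sym2.eq_swap
    exact mixed hA hB hAB hev hyp sA (u := w) (p := x) hT eT (by rw [this]; exact hw) hw0 (by omega)
  · have hy2 := sA.dg_two hA hy1
    obtain ⟨z, hzx, hz⟩ := exists_second (S := A) (v := y) (by omega) x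
    obtain ⟨hnot, sA'⟩ := sA.shift hA (x := x) (y := y) (z := z) hzx.symm hmem hz
    have hsh : ∀ v, dg (insert s(y, z) (EA.erase s(x, y))) v + (if v = x ∨ v = y then 1 else 0) =
        dg EA v + if v = y ∨ v = z then 1 else 0 := by
      intro v
      have := dg_shift hmem hnot v
      simpa only [Sym2.mem_iff] using this
    refine mixed hA hB hAB hev hyp sA' (u := x) (p := w) hT eT hw ?_ ?_
    · have h1 := hsh x
      have h2 := sA.dg_le hA x
      simp only [hxy, hzx.symm, true_or, or_self, if_true, if_false, add_zero] at h1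
      omega
    · have h1 := hsh w
      by_cases hwy : w = y
      · simp only [hwy, true_or, or_true, if_true] at h1 ⊢
        omega
      · simp only [hxw.symm, hwy, or_self, if_false, add_zero, false_or] at h1
        split_ifs at h1 <;> omega

/-- A path component of `A` with at least two edges. -/
lemma case1 [Fintype V] {A B : Finset (Sym2 V)} (hA : D2 A) (hB : D2 B) (hAB : Disjoint A B)
    (hev : ∀ v, Even (dg A v + dg B v)) {u v : V} (huv : s(u, v) ∈ A) (hu : dg A u = 1)
    (hv : dg A v = 2) : Conc (A ∪ B) := by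
  obtain ⟨EA, sA, -⟩ := extend_zero (F := ∅) hA (by simp [dg]) LF.empty
    (Finset.disjoint_empty_left _)
  have hne : u ≠ v := hA.ll.ne huv
  have hAu : dg EA u = 0 := by
    by_contra h
    have := sA.dg_two hA (v := u) (by omega)
    omega
  have hAv : dg EA v = 0 := by
    by_contra h
    obtain ⟨w, hw⟩ := exists_of_dg (S := EA) (v := v) (by omega)
    obtain ⟨S, hS, eS, h1, -⟩ := sA.priv' hw
    have h2 : s(u, v) ∈ S := closed hS (hA.le v) (eS v) h1 (by simp) huv (by simp)
    have h3 := dg_pos h2 (v := u) (by simp)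
    have h4 := dg_mono hS u
    obtain ⟨k, hk⟩ := eS u
    omega
  obtain ⟨EB, sB, hlf, hBv⟩ : ∃ EB, Sel B EB ∧ LF (EA ∪ EB) ∧ dg EB v = 0 := by
    by_cases h : ∃ S ⊆ B, Ev S ∧ 1 ≤ dg S v
    · obtain ⟨S, hS, eS, h1⟩ := h
      obtain ⟨p, hp⟩ := exists_of_dg h1
      have hp2 : 2 ≤ dg S p := by
        have h1 := dg_pos hp (v := p) (by simp)
        obtain ⟨k, hk⟩ := eS p
        omega
      obtain ⟨p', hp'v, hp'⟩ := exists_second hp2 v
      obtain ⟨EB, hmem, sB, hlf⟩ := extend_one (F := EA) hB (sA.dg_le hA) (sA.lf hA)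
        (hAB.mono_left sA.sub) hS eS hp'
      refine ⟨EB, sB, hlf, ?_⟩
      rw [dg_eq_zero]
      intro f hf hvf
      obtain ⟨T, hT, eT, h2, h3⟩ := sB.priv' hmem
      have h4 : s(v, p) ∈ T := closed hT (hB.le p) (eT p) h2 (by simp) (hS hp) (by simp)
      have h5 : f ∈ T := closed hT (hB.le v) (eT v) h4 (by simp) (sB.sub hf) hvf
      have h6 := h3 f hf h5
      rw [h6, Sym2.mem_iff] at hvf
      rcases hvf with h7 | h7
      · exact hB.ll.ne (hS hp) h7
      · exact hp'v h7.symm
    · obtain ⟨EB, sB, hlf⟩ := extend_zero (F := EA) hB (sA.dg_le hA) (sA.lf hA)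
        (hAB.mono_left sA.sub)
      refine ⟨EB, sB, hlf, ?_⟩
      by_contra h2
      obtain ⟨w, hw⟩ := exists_of_dg (S := EB) (v := v) (by omega)
      obtain ⟨S, hS, eS, h1, -⟩ := sB.priv' hw
      exact h ⟨S, hS, eS, dg_pos h1 (by simp)⟩
  have hBu : dg B u = 1 := by
    have h1 := hev u
    have h2 := hB.le u
    obtain ⟨k, hk⟩ := h1
    omega
  have hBu0 : dg EB u = 0 := by
    by_contra h
    have := sB.dg_two hB (v := u) (by omega)
    omega
  have t := tri_of_sel hA hB hAB hev sA sB hlf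
  have xx := xor_of_sel hAB sA.sub sB.sub
  by_cases ho : Odd #(TT (A \ EA) (B \ EB))
  · exact ⟨_, _, _, t, xx, ho⟩
  have hdis : Disjoint EA EB := (hAB.mono_left sA.sub).mono_right sB.sub
  have nA : s(u, v) ∉ EA := by
    intro h
    have := dg_pos h (v := u) (by simp)
    omega
  have nB : s(u, v) ∉ EB := fun h => (Finset.disjoint_left.1 hAB) huv (sB.sub h)
  have nU : s(u, v) ∉ EA ∪ EB := by
    rw [mem_union]
    tauto
  have mA : s(u, v) ∈ A \ EA := mem_sdiff.2 ⟨huv, nA⟩
  have dE : ∀ x, dg ((A \ EA).erase s(u, v)) x + (if x = u ∨ x = v then 1 else 0) = dg (A \ EA) x := by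
    intro x
    have := dg_erase mA x
    simpa only [Sym2.mem_iff] using this
  have dI : ∀ x, dg (insert s(u, v) (EA ∪ EB)) x = dg (EA ∪ EB) x + if x = u ∨ x = v then 1 else 0 := by
    intro x
    have := dg_insert nU x
    simpa only [Sym2.mem_iff] using this
  refine ⟨(A \ EA).erase s(u, v), B \ EB, insert s(u, v) (EA ∪ EB), ⟨?_, t.g, ?_, ?_⟩, ?_, ?_⟩
  · exact t.f.mono (erase_subset _ _)
  · apply t.h.add_free hne
    · rw [dg_union hdis, hAu, hBu0]
    · rw [dg_union hdis, hAv, hBv]
      norm_num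
  · intro x
    have h1 := dE x
    have h2 := dI x
    have h3 := t.ev x
    have : dg ((A \ EA).erase s(u, v)) x + dg (B \ EB) x + dg (insert s(u, v) (EA ∪ EB)) x =
      dg (A \ EA) x + dg (B \ EB) x + dg (EA ∪ EB) x := by omega
    rw [this]
    exact h3
  · rw [← xx]
    ext e
    simp only [mem_symmDiff, mem_erase, mem_insert]
    by_cases he : e = s(u, v)
    · subst he
      have nB' : s(u, v) ∉ B \ EB := fun h => (Finset.disjoint_left.1 hAB) huv (mem_sdiff.1 h).1
      tauto
    · tauto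
  · have hT : TT ((A \ EA).erase s(u, v)) (B \ EB) = (TT (A \ EA) (B \ EB)).erase u := by
      ext x
      rw [mem_erase, mem_TT, mem_TT]
      have h1 := dE x
      by_cases hxu : x = u
      · subst hxu
        simp only [true_or, if_true] at h1
        have h2 := dg_sdiff sA.sub x
        have h3 : dg ((A \ EA).erase s(x, v)) x = 0 := by omega
        rw [h3]
        simp
      · by_cases hxv : x = v
        · subst hxv
          have h2 := dg_sdiff sA.sub x
          have h3 := dg_sdiff sB.sub x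
          have h4 := hev x
          have e1 : ¬ Odd (dg (B \ EB) x) := by
            rw [Nat.not_odd_iff_even]
            obtain ⟨k, hk⟩ := h4
            exact ⟨k - 1, by omega⟩
          tauto
        · simp only [hxu, hxv, or_self, if_false, add_zero] at h1
          rw [h1]
          simp [hxu]
    have hmem : u ∈ TT (A \ EA) (B \ EB) := by
      rw [mem_TT]
      have h2 := dg_sdiff sA.sub u
      have h3 := dg_sdiff sB.sub u
      have e1 : dg (A \ EA) u = 1 := by omega
      have e2 : dg (B \ EB) u = 1 := by omega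
      rw [e1, e2]
      exact ⟨odd_one, odd_one⟩
    rw [hT, card_erase_of_mem hmem]
    have hpos := card_pos.2 ⟨u, hmem⟩
    rw [Nat.not_odd_iff_even] at ho
    obtain ⟨k, hk⟩ := ho
    exact ⟨k - 1, by omega⟩

/-- A vertex of degree two on no even subset: there is a path component with at least two edges. -/
lemma exists_end [Fintype V] {A : Finset (Sym2 V)} (hA : D2 A) {x : V} (hx : dg A x = 2)
    (hno : ¬ ∃ S ⊆ A, Ev S ∧ 1 ≤ dg S x) : ∃ u v, s(u, v) ∈ A ∧ dg A u = 1 ∧ dg A v = 2 := by
  classical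
  by_contra hcon
  push Not at hcon
  apply hno
  have hfil : ∀ v, dg A v = 2 → dg {e ∈ A | ∀ w ∈ e, dg A w = 2} v = 2 := by
    intro v hv
    have hkey : ({e ∈ A | ∀ w ∈ e, dg A w = 2} : Finset (Sym2 V)).filter (fun e => v ∈ e) =
        A.filter (fun e => v ∈ e) := by
      ext e
      simp only [mem_filter]
      constructor
      · rintro ⟨⟨h1, -⟩, h2⟩
        exact ⟨h1, h2⟩
      · rintro ⟨h1, h2⟩
        refine ⟨⟨h1, ?_⟩, h2⟩
        obtain ⟨w, rfl⟩ := h2
        intro z hz
        rw [Sym2.mem_iff] at hz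
        rcases hz with rfl | rfl
        · exact hv
        · have h3 := hcon z v (by rw [Sym2.eq_swap]; exact h1)
          have h4 := dg_pos h1 (v := z) (by simp)
          have h5 := hA.le z
          by_contra h6
          exact h3 (by omega) hv
    have hdef : dg {e ∈ A | ∀ w ∈ e, dg A w = 2} v = dg A v := by
      show #(({e ∈ A | ∀ w ∈ e, dg A w = 2} : Finset (Sym2 V)).filter (fun e => v ∈ e)) =
        #(A.filter (fun e => v ∈ e))
      rw [hkey]
    rw [hdef, hv]
  refine ⟨{e ∈ A | ∀ w ∈ e, dg A w = 2}, filter_subset _ _, ?_, ?_⟩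
  · intro v
    by_cases hv : dg A v = 2
    · rw [hfil v hv]
      exact even_two
    · have : dg {e ∈ A | ∀ w ∈ e, dg A w = 2} v = 0 := by
        rw [dg_eq_zero]
        intro e he hve
        rw [mem_filter] at he
        exact hv (he.2 v hve)
      rw [this]
      exact Even.zero
  · rw [hfil x hx]
    norm_num

/-- The decomposition theorem. -/
theorem decomp [Fintype V] {A B : Finset (Sym2 V)} (hA : D2 A) (hB : D2 B) (hAB : Disjoint A B)
    (hev : ∀ v, Even (dg A v + dg B v)) {x : V} (hx : dg A x + dg B x = 4) : Conc (A ∪ B) := by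
  have h1 := hA.le x
  have h2 := hB.le x
  by_cases c1 : ∃ S ⊆ A, Ev S ∧ 1 ≤ dg S x
  · by_cases c2 : ∃ S ⊆ B, Ev S ∧ 1 ≤ dg S x
    · obtain ⟨S, hS, eS, h3⟩ := c1
      obtain ⟨T, hT, eT, h4⟩ := c2
      exact case2 hA hB hAB hev hS eS h3 hT eT h4
    · obtain ⟨u, v, h3, h4, h5⟩ := exists_end hB (by omega) c2
      rw [union_comm]
      exact case1 hB hA hAB.symm (fun v => by rw [add_comm]; exact hev v) h3 h4 h5
  · obtain ⟨u, v, h3, h4, h5⟩ := exists_end hA (by omega) c1
    exact case1 hA hB hAB hev h3 h4 h5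

end Run7.h14.Pq
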