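import Mathlib
import Pool.Agent.Run7.h14.PqSel

set_option autoImplicit false
set_option linter.unusedSectionVars false

/-!
# Splitting an even edge set of maximum degree four into two of maximum degree two

An even edge set has a balanced orientation; its arcs, viewed as a bipartite graph of maximum degree two, are
properly coloured with two colours.
-/

namespace Run7.h14.Pq

open Finset

section Col

variable {α β : Type*} [DecidableEq α] [DecidableEq β]

def rw1 (O : Finset (α × β)) (a : α) : ℕ := #{x ∈ O | x.1 = a}

def cl1 (O : Finset (α × β)) (b : β) : ℕ := #{x ∈ O | x.2 = b}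

lemma rw1_insert {O : Finset (α × β)} {x : α × β} (hx : x ∉ O) (a : α) :
    rw1 (insert x O) a = rw1 O a + if x.1 = a then 1 else 0 := by
  unfold rw1
  rw [filter_insert]
  split_ifs with h
  · rw [card_insert_of_notMem (by simp [hx])]
  · simp

lemma cl1_insert {O : Finset (α × β)} {x : α × β} (hx : x ∉ O) (b : β) :
    cl1 (insert x O) b = cl1 O b + if x.2 = b then 1 else 0 := by
  unfold cl1
  rw [filter_insert]
  split_ifs with h
  · rw [card_insert_of_notMem (by simp [hx])]
  · simp

lemma rw1_erase {O : Finset (α × β)} {x : α × β} (hx : x ∈ O) (a : α) :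
    rw1 (O.erase x) a + (if x.1 = a then 1 else 0) = rw1 O a := by
  conv_rhs => rw [← insert_erase hx]
  rw [rw1_insert (notMem_erase _ _)]

lemma cl1_erase {O : Finset (α × β)} {x : α × β} (hx : x ∈ O) (b : β) :
    cl1 (O.erase x) b + (if x.2 = b then 1 else 0) = cl1 O b := by
  conv_rhs => rw [← insert_erase hx]
  rw [cl1_insert (notMem_erase _ _)]

lemma rw1_union {P Q : Finset (α × β)} (h : Disjoint P Q) (a : α) :
    rw1 (P ∪ Q) a = rw1 P a + rw1 Q a := by
  unfold rw1
  rw [filter_union, card_union_of_disjoint]
  exact disjoint_filter_filter h

lemma cl1_union {P Q : Finset (α × β)} (h : Disjoint P Q) (b : β) :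
    cl1 (P ∪ Q) b = cl1 P b + cl1 Q b := by
  unfold cl1
  rw [filter_union, card_union_of_disjoint]
  exact disjoint_filter_filter h

lemma rw1_zero {O : Finset (α × β)} {a : α} (h : ∀ b, (a, b) ∉ O) : rw1 O a = 0 := by
  unfold rw1
  rw [card_eq_zero, filter_eq_empty_iff]
  rintro ⟨a', b⟩ hx rfl
  exact h b hx

lemma cl1_zero {O : Finset (α × β)} {b : β} (h : ∀ a, (a, b) ∉ O) : cl1 O b = 0 := by
  unfold cl1
  rw [card_eq_zero, filter_eq_empty_iff]
  rintro ⟨a, b'⟩ hx rfl
  exact h a hx

/-- A proper two-colouring. -/
structure Col (O P Q : Finset (α × β)) : Prop where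
  dis : Disjoint P Q
  un : P ∪ Q = O
  rP : ∀ a, rw1 P a ≤ 1
  cP : ∀ b, cl1 P b ≤ 1
  rQ : ∀ a, rw1 Q a ≤ 1
  cQ : ∀ b, cl1 Q b ≤ 1

lemma Col.swap {O P Q : Finset (α × β)} (h : Col O P Q) : Col O Q P where
  dis := h.dis.symm
  un := by rw [union_comm, h.un]
  rP := h.rQ
  cP := h.cQ
  rQ := h.rP
  cQ := h.cP

/-- Adding an element to the first colour. -/
lemma Col.insert {O P Q : Finset (α × β)} (h : Col O P Q) {a : α} {b : β} (hab : (a, b) ∉ O)
    (hr : rw1 P a = 0) (hc : cl1 P b = 0) : Col (insert (a, b) O) (insert (a, b) P) Q where
  dis := by
    rw [disjoint_insert_left]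
    refine ⟨fun h' => hab ?_, h.dis⟩
    rw [← h.un]
    exact mem_union_right _ h'
  un := by rw [insert_union, h.un]
  rP x := by
    have hn : (a, b) ∉ P := fun h' => hab (by rw [← h.un]; exact mem_union_left _ h')
    rw [rw1_insert hn]
    have := h.rP x
    by_cases hx : a = x
    · subst hx
      simp [hr]
    · simpa [hx] using this
  cP x := by
    have hn : (a, b) ∉ P := fun h' => hab (by rw [← h.un]; exact mem_union_left _ h')
    rw [cl1_insert hn]
    have := h.cP x
    by_cases hx : b = x
    · subst hx
      simp [hc]
    · simpa [hx] using this
  rQ := h.rQ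
  cQ := h.cQ

/-- Removing an element of the first colour. -/
lemma Col.erase {O P Q : Finset (α × β)} (h : Col O P Q) {x : α × β} (hx : x ∈ P) :
    Col (O.erase x) (P.erase x) Q where
  dis := h.dis.mono_left (erase_subset _ _)
  un := by
    have hn : x ∉ Q := fun h' => (Finset.disjoint_left.1 h.dis) hx h'
    rw [← h.un, erase_union_distrib, erase_eq_of_notMem hn]
  rP a := le_trans (by have := rw1_erase hx a; omega) (h.rP a)
  cP b := le_trans (by have := cl1_erase hx b; omega) (h.cP b)
  rQ := h.rQ
  cQ := h.cQ

theorem two_color : ∀ (n : ℕ) (O : Finset (α × β)), #O = n → (∀ a, rw1 O a ≤ 2) →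
    (∀ b, cl1 O b ≤ 2) → ∃ P Q, Col O P Q := by
  intro n
  induction n using Nat.strong_induction_on with
  | _ n ih =>
    intro O hn hr hc
    rcases O.eq_empty_or_nonempty with rfl | ⟨⟨a, b⟩, hab⟩
    · exact ⟨∅, ∅, by simp, by simp, by simp [rw1], by simp [cl1], by simp [rw1], by simp [cl1]⟩
    by_cases hcase : (∃ b', b' ≠ b ∧ (a, b') ∈ O) ∧ ∃ a', a' ≠ a ∧ (a', b) ∈ O
    · obtain ⟨⟨b', hb', hab'⟩, a', ha', ha'b⟩ := hcase
      have m1 : (a, b') ∈ O.erase (a, b) := mem_erase.2 ⟨by simp [hb'], hab'⟩
      have m2 : (a', b) ∈ (O.erase (a, b)).erase (a, b') :=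
        mem_erase.2 ⟨by simp [ha'], mem_erase.2 ⟨by simp [ha'], ha'b⟩⟩
      have r1 := rw1_erase hab
      have r2 := rw1_erase m1
      have r3 := rw1_erase m2
      have d1 := cl1_erase hab
      have d2 := cl1_erase m1
      have d3 := cl1_erase m2
      have k1 := card_erase_of_mem hab
      have k2 := card_erase_of_mem m1
      have k3 := card_erase_of_mem m2
      have kp := card_pos.2 ⟨_, m2⟩
      simp only at r1 r2 r3 d1 d2 d3
      by_cases hw : (a', b') ∈ O
      · have m3 : (a', b') ∈ ((O.erase (a, b)).erase (a, b')).erase (a', b) := by
          simp [ha', hb', hw]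
        have r4 := rw1_erase m3
        have d4 := cl1_erase m3
        have k4 := card_erase_of_mem m3
        simp only at r4 d4
        set O' := (((O.erase (a, b)).erase (a, b')).erase (a', b)).erase (a', b') with hO'
        obtain ⟨P, Q, hcol⟩ := ih (#O') (by omega) O' rfl
          (fun x => by have := r1 x; have := r2 x; have := r3 x; have := r4 x; have := hr x; omega)
          (fun x => by have := d1 x; have := d2 x; have := d3 x; have := d4 x; have := hc x; omega)
        have ra : rw1 O' a = 0 := by
          have e1 := r1 a
          have e2 := r2 a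
          have e3 := hr a
          have e4 := r3 a
          have e5 := r4 a
          simp only [if_true] at e1 e2
          omega
        have ra' : rw1 O' a' = 0 := by
          have e1 := r1 a'
          have e2 := r2 a'
          have e3 := hr a'
          have e4 := r3 a'
          have e5 := r4 a'
          simp only [if_true] at e4 e5
          omega
        have cb : cl1 O' b = 0 := by
          have e1 := d1 b
          have e2 := d2 b
          have e3 := hc b
          have e4 := d3 b
          have e5 := d4 b
          simp only [if_true] at e1 e4
          omega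
        have cb' : cl1 O' b' = 0 := by
          have e1 := d1 b'
          have e2 := d2 b'
          have e3 := hc b'
          have e4 := d3 b'
          have e5 := d4 b'
          simp only [if_true] at e2 e5
          omega
        have un1 : ∀ x, rw1 P x + rw1 Q x = rw1 O' x := fun x => by
          rw [← rw1_union hcol.dis, hcol.un]
        have un2 : ∀ x, cl1 P x + cl1 Q x = cl1 O' x := fun x => by
          rw [← cl1_union hcol.dis, hcol.un]
        have n1 : (a', b') ∉ O' := by simp [hO']
        have s1 := hcol.insert n1 (by have := un1 a'; omega) (by have := un2 b'; omega)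
        have e1 : insert (a', b') O' = ((O.erase (a, b)).erase (a, b')).erase (a', b) :=
          insert_erase m3
        rw [e1] at s1
        have nP1 : (a', b') ∉ P := fun h => n1 (by rw [← hcol.un]; exact mem_union_left _ h)
        have s2 := s1.swap.insert (a := a') (b := b) (by simp)
          (by have := un1 a'; omega) (by have := un2 b; omega)
        rw [insert_erase m2] at s2
        have s3 := s2.insert (a := a) (b := b') (by simp)
          (by
            rw [rw1_insert (fun h => by
              have h' : (a', b) ∈ O' := by rw [← hcol.un]; exact mem_union_right _ h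
              simp [hO'] at h')]
            have := un1 a
            simp only [ha', if_false, add_zero]
            omega)
          (by
            rw [cl1_insert (fun h => by
              have h' : (a', b) ∈ O' := by rw [← hcol.un]; exact mem_union_right _ h
              simp [hO'] at h')]
            have := un2 b'
            simp only [hb'.symm, if_false, add_zero]
            omega)
        rw [insert_erase m1] at s3
        have s4 := s3.swap.insert (a := a) (b := b) (by simp)
          (by
            rw [rw1_insert nP1]
            have := un1 a
            simp only [ha', if_false, add_zero]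
            omega)
          (by
            rw [cl1_insert nP1]
            have := un2 b
            simp only [hb', if_false, add_zero]
            omega)
        rw [insert_erase hab] at s4
        exact ⟨_, _, s4⟩
      · set O₀ := ((O.erase (a, b)).erase (a, b')).erase (a', b) with hO₀
        have nw : (a', b') ∉ O₀ := by
          intro h
          simp only [hO₀, mem_erase] at h
          exact hw h.2.2.2
        have r4 := rw1_insert nw
        have d4 := cl1_insert nw
        have k4 := card_insert_of_notMem nw
        simp only at r4 d4
        obtain ⟨P, Q, hcol⟩ := ih (#(insert (a', b') O₀)) (by omega) (insert (a', b') O₀) rfl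
          (fun x => by have := r1 x; have := r2 x; have := r3 x; have := r4 x; have := hr x; omega)
          (fun x => by have := d1 x; have := d2 x; have := d3 x; have := d4 x; have := hc x; omega)
        have ra : rw1 (insert (a', b') O₀) a = 0 := by
          have e1 := r1 a
          have e2 := r2 a
          have e3 := hr a
          have e4 := r3 a
          have e5 := r4 a
          simp only [if_true, ha', if_false] at e1 e2 e4 e5
          omega
        have cb : cl1 (insert (a', b') O₀) b = 0 := by
          have e1 := d1 b
          have e2 := d2 b
          have e3 := hc b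
          have e4 := d3 b
          have e5 := d4 b
          simp only [if_true, hb', if_false] at e1 e2 e4 e5
          omega
        -- we may assume that the new element has the first colour
        have main : ∀ P Q, Col (insert (a', b') O₀) P Q → (a', b') ∈ P → ∃ P Q, Col O P Q := by
          intro P Q hcol hmem
          have un1 : ∀ x, rw1 P x + rw1 Q x = rw1 (insert (a', b') O₀) x := fun x => by
            rw [← rw1_union hcol.dis, hcol.un]
          have un2 : ∀ x, cl1 P x + cl1 Q x = cl1 (insert (a', b') O₀) x := fun x => by
            rw [← cl1_union hcol.dis, hcol.un]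
          have s1 := hcol.erase hmem
          rw [erase_insert nw] at s1
          have p1 := rw1_erase hmem
          have p2 := cl1_erase hmem
          simp only at p1 p2
          have s2 := s1.insert (a := a') (b := b) (by simp [hO₀])
            (by
              have := p1 a'
              have := hcol.rP a'
              simp only [if_true] at *
              omega)
            (by
              have := p2 b
              have := un2 b
              omega)
          rw [insert_erase m2] at s2
          have nP : (a', b) ∉ P.erase (a', b') := by
            intro h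
            have : (a', b) ∈ O₀ := by
              rw [← s1.un]
              exact mem_union_left _ h
            simp [hO₀] at this
          have s3 := s2.insert (a := a) (b := b') (by simp)
            (by
              rw [rw1_insert nP]
              have := p1 a
              have := un1 a
              simp only [ha', if_false, add_zero]
              omega)
            (by
              rw [cl1_insert nP]
              have := p2 b'
              have := hcol.cP b'
              simp only [hb'.symm, if_true, if_false, add_zero] at *
              omega)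
          rw [insert_erase m1] at s3
          have s4 := s3.swap.insert (a := a) (b := b) (by simp)
            (by
              have := un1 a
              omega)
            (by
              have := un2 b
              omega)
          rw [insert_erase hab] at s4
          exact ⟨_, _, s4⟩
        have hmem : (a', b') ∈ P ∪ Q := by
          rw [hcol.un]
          exact mem_insert_self _ _
        rw [mem_union] at hmem
        rcases hmem with h | h
        · exact main P Q hcol h
        · exact main Q P hcol.swap h
    · have k1 := card_erase_of_mem hab
      have kp := card_pos.2 ⟨_, hab⟩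
      have r1 := rw1_erase hab
      have d1 := cl1_erase hab
      simp only at r1 d1
      obtain ⟨P, Q, hcol⟩ := ih (#(O.erase (a, b))) (by omega) (O.erase (a, b)) rfl
        (fun x => by have := r1 x; have := hr x; omega)
        (fun x => by have := d1 x; have := hc x; omega)
      have un1 : ∀ x, rw1 P x + rw1 Q x = rw1 (O.erase (a, b)) x := fun x => by
        rw [← rw1_union hcol.dis, hcol.un]
      have un2 : ∀ x, cl1 P x + cl1 Q x = cl1 (O.erase (a, b)) x := fun x => by
        rw [← cl1_union hcol.dis, hcol.un]
      have q1 := un1 a
      have q2 := un2 b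
      have q3 := r1 a
      have q4 := d1 b
      have q5 := hr a
      have q6 := hc b
      simp only [if_true] at q3 q4
      have hor : rw1 (O.erase (a, b)) a = 0 ∨ cl1 (O.erase (a, b)) b = 0 := by
        by_cases h1 : ∃ b', b' ≠ b ∧ (a, b') ∈ O
        · right
          apply cl1_zero
          intro a' ha'
          rw [mem_erase] at ha'
          apply hcase
          refine ⟨h1, a', ?_, ha'.2⟩
          rintro rfl
          exact ha'.1 rfl
        · left
          apply rw1_zero
          intro b' hb'
          rw [mem_erase] at hb'
          apply h1
          refine ⟨b', ?_, hb'.2⟩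
          rintro rfl
          exact hb'.1 rfl
      by_cases hP : rw1 P a = 0 ∧ cl1 P b = 0
      · have := hcol.insert (a := a) (b := b) (by simp) hP.1 hP.2
        rw [insert_erase hab] at this
        exact ⟨_, _, this⟩
      · have := hcol.swap.insert (a := a) (b := b) (by simp) (by omega) (by omega)
        rw [insert_erase hab] at this
        exact ⟨_, _, this⟩

end Col

variable {V : Type*} [DecidableEq V]

/-- `O` orients the edge set `E`. -/
structure Ori (E : Finset (Sym2 V)) (O : Finset (V × V)) : Prop where
  inj : ∀ x ∈ O, ∀ y ∈ O, s(x.1, x.2) = s(y.1, y.2) → x = y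
  img : ∀ e, e ∈ E ↔ ∃ x ∈ O, s(x.1, x.2) = e
  deg : ∀ v, rw1 O v + cl1 O v = dg E v

lemma Ori.insert {E : Finset (Sym2 V)} {O : Finset (V × V)} (h : Ori E O) {x y : V} (hxy : x ≠ y)
    (hn : s(x, y) ∉ E) : Ori (insert s(x, y) E) (insert (x, y) O) ∧ (x, y) ∉ O := by
  have hnO : (x, y) ∉ O := fun h' => hn ((h.img _).2 ⟨_, h', rfl⟩)
  refine ⟨⟨?_, ?_, ?_⟩, hnO⟩
  · intro a ha b hb hab
    rw [mem_insert] at ha hb
    rcases ha with rfl | ha
    · rcases hb with rfl | hb
      · rfl
      · exact absurd ((h.img _).2 ⟨b, hb, hab.symm⟩) hn
    · rcases hb with rfl | hb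
      · exact absurd ((h.img _).2 ⟨a, ha, hab⟩) hn
      · exact h.inj a ha b hb hab
  · intro e
    rw [mem_insert, h.img]
    constructor
    · rintro (rfl | ⟨a, ha, rfl⟩)
      · exact ⟨(x, y), mem_insert_self _ _, rfl⟩
      · exact ⟨a, mem_insert_of_mem ha, rfl⟩
    · rintro ⟨a, ha, rfl⟩
      rw [mem_insert] at ha
      rcases ha with rfl | ha
      · exact Or.inl rfl
      · exact Or.inr ⟨a, ha, rfl⟩
  · intro v
    rw [rw1_insert hnO, cl1_insert hnO, dg_insert hn, ← h.deg v]
    simp only [Sym2.mem_iff]
    by_cases h1 : x = v
    · subst h1
      simp [hxy.symm, hxy]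
      ring
    · by_cases h2 : y = v
      · subst h2
        simp [h1]
        ring
      · simp [h1, h2, Ne.symm h1, Ne.symm h2]

lemma Ori.erase {E : Finset (Sym2 V)} {O : Finset (V × V)} (h : Ori E O) {x y : V} (hxy : x ≠ y)
    (hm : (x, y) ∈ O) : Ori (E.erase s(x, y)) (O.erase (x, y)) where
  inj a ha b hb hab := h.inj a (mem_of_mem_erase ha) b (mem_of_mem_erase hb) hab
  img e := by
    rw [mem_erase, h.img]
    constructor
    · rintro ⟨h1, a, ha, rfl⟩
      refine ⟨a, mem_erase.2 ⟨?_, ha⟩, rfl⟩
      rintro rfl
      exact h1 rfl
    · rintro ⟨a, ha, rfl⟩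
      rw [mem_erase] at ha
      exact ⟨fun h' => ha.1 (h.inj a ha.2 (x, y) hm h'), a, ha.2, rfl⟩
  deg v := by
    have hmE : s(x, y) ∈ E := (h.img _).2 ⟨_, hm, rfl⟩
    have h1 := rw1_erase hm v
    have h2 := cl1_erase hm v
    have h3 := dg_erase hmE v
    have h4 := h.deg v
    simp only [Sym2.mem_iff] at h1 h2 h3
    by_cases h5 : x = v
    · subst h5
      simp only [hxy.symm, hxy, if_true, if_false, true_or, add_zero] at h1 h2 h3
      omega
    · by_cases h6 : y = v
      · subst h6
        simp only [h5, if_true, if_false, or_true, add_zero] at h1 h2 h3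
        omega
      · simp only [h5, h6, Ne.symm h5, Ne.symm h6, if_false, or_self, add_zero] at h1 h2 h3
        omega

/-- Balanced orientations. -/
theorem exists_ori : ∀ (n : ℕ) (E : Finset (Sym2 V)), #E = n → LL E → Ev E →
    ∃ O, Ori E O ∧ ∀ v, rw1 O v = cl1 O v := by
  intro n
  induction n using Nat.strong_induction_on with
  | _ n ih =>
    intro E hn hll hev
    rcases E.eq_empty_or_nonempty with rfl | ⟨e, he⟩
    · refine ⟨∅, ⟨by simp, by simp, ?_⟩, ?_⟩ <;> intro v <;> simp [rw1, cl1, dg]
    induction e using Sym2.ind with
    | _ v a =>
      have hva : v ≠ a := hll.ne he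
      have h2 : 2 ≤ dg E v := by
        have h1 := dg_pos he (v := v) (by simp)
        obtain ⟨k, hk⟩ := hev v
        omega
      obtain ⟨b, hba, hb⟩ := exists_second h2 a
      have hvb : v ≠ b := hll.ne hb
      have m1 : s(v, b) ∈ E.erase s(v, a) := by
        refine mem_erase.2 ⟨?_, hb⟩
        intro h
        rw [Sym2.eq_iff] at h
        rcases h with ⟨-, h⟩ | ⟨h, -⟩
        · exact hba h
        · exact hva h
      have d1 := dg_erase he
      have d2 := dg_erase m1
      have k1 := card_erase_of_mem he
      have k2 := card_erase_of_mem m1
      have kp := card_pos.2 ⟨_, m1⟩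
      simp only [Sym2.mem_iff] at d1 d2
      by_cases hab : s(a, b) ∈ E
      · have m2 : s(a, b) ∈ (E.erase s(v, a)).erase s(v, b) := by
          refine mem_erase.2 ⟨?_, mem_erase.2 ⟨?_, hab⟩⟩
          · intro h
            rw [Sym2.eq_iff] at h
            rcases h with ⟨h, -⟩ | ⟨-, h⟩
            · exact hva h.symm
            · exact hvb h.symm
          · intro h
            rw [Sym2.eq_iff] at h
            rcases h with ⟨-, h⟩ | ⟨-, h⟩
            · exact hba h
            · exact hvb h.symm
        have d3 := dg_erase m2
        have k3 := card_erase_of_mem m2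
        simp only [Sym2.mem_iff] at d3
        set E' := ((E.erase s(v, a)).erase s(v, b)).erase s(a, b) with hE'
        have hsub : E' ⊆ E := (erase_subset _ _).trans ((erase_subset _ _).trans (erase_subset _ _))
        obtain ⟨O, hO, hbal⟩ := ih (#E') (by omega) E' rfl (hll.mono hsub) (by
          intro w
          have e1 := d1 w
          have e2 := d2 w
          have e3 := d3 w
          have e4 := hev w
          by_cases hwv : w = v
          · subst hwv
            simp only [true_or, if_true, hva, hvb, or_self, if_false, add_zero] at e1 e2 e3
            obtain ⟨k, hk⟩ := e4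
            exact ⟨k - 1, by omega⟩
          · by_cases hwa : w = a
            · subst hwa
              simp only [or_true, true_or, if_true, hva.symm, hba.symm, or_self, if_false,
                add_zero] at e1 e2 e3
              obtain ⟨k, hk⟩ := e4
              exact ⟨k - 1, by omega⟩
            · by_cases hwb : w = b
              · subst hwb
                simp only [or_true, if_true, hvb.symm, hba, or_self, if_false,
                  add_zero] at e1 e2 e3
                obtain ⟨k, hk⟩ := e4
                exact ⟨k - 1, by omega⟩
              · simp only [hwv, hwa, hwb, or_self, if_false, add_zero] at e1 e2 e3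
                rwa [e3, e2, e1])
        obtain ⟨s1, n1⟩ := hO.insert (x := a) (y := b) hba.symm (by simp [hE'])
        rw [insert_erase m2] at s1
        have hbv : s(b, v) = s(v, b) := Sym2.eq_swap
        obtain ⟨s2, n2⟩ := s1.insert (x := b) (y := v) hvb.symm (by rw [hbv]; simp)
        rw [hbv, insert_erase m1] at s2
        obtain ⟨s3, n3⟩ := s2.insert (x := v) (y := a) hva (by simp)
        rw [insert_erase he] at s3
        refine ⟨_, s3, ?_⟩
        intro w
        rw [rw1_insert n3, rw1_insert n2, rw1_insert n1, cl1_insert n3, cl1_insert n2,
          cl1_insert n1, hbal w]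
        simp only
        omega
      · set E₀ := (E.erase s(v, a)).erase s(v, b) with hE₀
        have nab : s(a, b) ∉ E₀ := fun h => hab (mem_of_mem_erase (mem_of_mem_erase h))
        have d3 := dg_insert nab
        have k3 := card_insert_of_notMem nab
        simp only [Sym2.mem_iff] at d3
        obtain ⟨O, hO, hbal⟩ := ih (#(insert s(a, b) E₀)) (by omega) (insert s(a, b) E₀) rfl (by
          intro e he'
          rw [mem_insert] at he'
          rcases he' with rfl | he'
          · simpa using hba.symm
          · exact hll e (mem_of_mem_erase (mem_of_mem_erase he'))) (by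
          intro w
          have e1 := d1 w
          have e2 := d2 w
          have e3 := d3 w
          have e4 := hev w
          by_cases hwv : w = v
          · subst hwv
            simp only [true_or, if_true, hva, hvb, or_self, if_false, add_zero] at e1 e2 e3
            obtain ⟨k, hk⟩ := e4
            exact ⟨k - 1, by omega⟩
          · by_cases hwa : w = a
            · subst hwa
              simp only [or_true, true_or, if_true, hva.symm, hba.symm, or_self, if_false,
                add_zero] at e1 e2 e3
              obtain ⟨k, hk⟩ := e4
              exact ⟨k, by omega⟩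
            · by_cases hwb : w = b
              · subst hwb
                simp only [or_true, if_true, hvb.symm, hba, or_self, if_false,
                  add_zero] at e1 e2 e3
                obtain ⟨k, hk⟩ := e4
                exact ⟨k, by omega⟩
              · simp only [hwv, hwa, hwb, or_self, if_false, add_zero] at e1 e2 e3
                rwa [e3, e2, e1])
        obtain ⟨⟨x, y⟩, hmem, hxy⟩ := (hO.img s(a, b)).1 (mem_insert_self _ _)
        simp only [Sym2.eq_iff] at hxy
        rcases hxy with ⟨rfl, rfl⟩ | ⟨rfl, rfl⟩
        · have s1 := hO.erase hba.symm hmem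
          have r1 := rw1_erase hmem
          have c1 := cl1_erase hmem
          rw [erase_insert nab] at s1
          have hav : s(x, v) = s(v, x) := Sym2.eq_swap
          obtain ⟨s2, n2⟩ := s1.insert (x := v) (y := y) hvb (by simp [hE₀])
          rw [insert_erase m1] at s2
          obtain ⟨s3, n3⟩ := s2.insert (x := x) (y := v) hva.symm (by rw [hav]; simp)
          rw [hav, insert_erase he] at s3
          refine ⟨_, s3, ?_⟩
          intro w
          rw [rw1_insert n3, rw1_insert n2, cl1_insert n3, cl1_insert n2]
          have q1 := r1 w
          have q2 := c1 w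
          have q3 := hbal w
          simp only at q1 q2 ⊢
          omega
        · have s1 := hO.erase hba hmem
          have r1 := rw1_erase hmem
          have c1 := cl1_erase hmem
          have hsw : s(x, y) = s(y, x) := Sym2.eq_swap
          rw [hsw, erase_insert nab] at s1
          have hbv : s(x, v) = s(v, x) := Sym2.eq_swap
          obtain ⟨s2, n2⟩ := s1.insert (x := x) (y := v) hvb.symm (by rw [hbv]; simp [hE₀])
          rw [hbv, insert_erase m1] at s2
          obtain ⟨s3, n3⟩ := s2.insert (x := v) (y := y) hva (by simp)
          rw [insert_erase he] at s3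
          refine ⟨_, s3, ?_⟩
          intro w
          rw [rw1_insert n3, rw1_insert n2, cl1_insert n3, cl1_insert n2]
          have q1 := r1 w
          have q2 := c1 w
          have q3 := hbal w
          simp only at q1 q2 ⊢
          omega

/-- Degrees of the image of a set of arcs. -/
lemma dg_image_le {P : Finset (V × V)} (v : V) :
    dg (P.image fun x => s(x.1, x.2)) v ≤ rw1 P v + cl1 P v := by
  unfold dg rw1 cl1
  have h1 : (P.image fun x => s(x.1, x.2)).filter (fun e => v ∈ e) ⊆
      (P.filter (fun x => x.1 = v) ∪ P.filter (fun x => x.2 = v)).image fun x => s(x.1, x.2) := by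
    intro e he
    rw [mem_filter, mem_image] at he
    obtain ⟨⟨x, hx, rfl⟩, hv⟩ := he
    rw [Sym2.mem_iff] at hv
    rw [mem_image]
    refine ⟨x, ?_, rfl⟩
    rw [mem_union, mem_filter, mem_filter]
    rcases hv with hv | hv
    · exact Or.inl ⟨hx, hv.symm⟩
    · exact Or.inr ⟨hx, hv.symm⟩
  exact (card_le_card h1).trans (card_image_le.trans (card_union_le _ _))

/-- Splitting into two edge sets of maximum degree two. -/
theorem exists_split {E : Finset (Sym2 V)} (hll : LL E) (hev : Ev E) (h4 : ∀ v, dg E v ≤ 4) :
    ∃ A B : Finset (Sym2 V), D2 A ∧ D2 B ∧ Disjoint A B ∧ A ∪ B = E := by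
  obtain ⟨O, hO, hbal⟩ := exists_ori _ E rfl hll hev
  obtain ⟨P, Q, hcol⟩ := two_color _ O rfl
    (fun v => by have := hO.deg v; have := hbal v; have := h4 v; omega)
    (fun v => by have := hO.deg v; have := hbal v; have := h4 v; omega)
  have hP : P ⊆ O := by
    rw [← hcol.un]
    exact subset_union_left
  have hQ : Q ⊆ O := by
    rw [← hcol.un]
    exact subset_union_right
  have hun : (P.image fun x => s(x.1, x.2)) ∪ (Q.image fun x => s(x.1, x.2)) = E := by
    rw [← image_union, hcol.un]
    ext e
    rw [mem_image, hO.img]
  refine ⟨P.image fun x => s(x.1, x.2), Q.image fun x => s(x.1, x.2), ⟨?_, ?_⟩, ⟨?_, ?_⟩, ?_, hun⟩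
  · apply hll.mono
    rw [← hun]
    exact subset_union_left
  · intro v
    have h1 := dg_image_le (P := P) v
    have h2 := hcol.rP v
    have h3 := hcol.cP v
    omega
  · apply hll.mono
    rw [← hun]
    exact subset_union_right
  · intro v
    have h1 := dg_image_le (P := Q) v
    have h2 := hcol.rQ v
    have h3 := hcol.cQ v
    omega
  · rw [Finset.disjoint_left]
    intro e he he'
    rw [mem_image] at he he'
    obtain ⟨x, hx, rfl⟩ := he
    obtain ⟨y, hy, hxy⟩ := he'
    have := hO.inj y (hQ hy) x (hP hx) hxy
    subst this
    exact (Finset.disjoint_left.1 hcol.dis) hx hy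

end Run7.h14.Pq
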