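import Pool.Agent.Run7.h14.OcSys

/-!
Explicit zigzag sequences realising the classes.
-/

namespace Run7.h14

/-- zigzag list on `{s,…,s+l-1}`, even order -/
def S0 : ℕ → ℤ → List ℤ
  | 0, _ => []
  | 1, s => [s]
  | (l + 2), s => s :: (s + l + 1) :: S0 l (s + 1)

/-- zigzag list on `{s,…,s+l-1}`, odd order -/
def S1 : ℕ → ℤ → List ℤ
  | 0, _ => []
  | 1, s => [s]
  | 2, s => [s, s + 1]
  | 3, s => [s, s + 1, s + 2]
  | (l + 4), s => s :: (s + l + 2) :: (s + 1) :: (s + l + 3) :: S1 l (s + 2)

/-- symmetric version of the rule -/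
def rs (o : ℕ) (T x y : ℤ) : Prop := (x < y ∧ ruleo o T x y) ∨ (y < x ∧ ruleo o T y x)

theorem rs_symm {o : ℕ} {T x y : ℤ} (h : rs o T x y) : rs o T y x := by
  unfold rs at *
  tauto

theorem S0_spec : ∀ (l : ℕ) (s : ℤ), (S0 l s).length = l ∧
    (∀ x ∈ S0 l s, s ≤ x ∧ x < s + l) ∧ (S0 l s).Nodup ∧ (∀ y ∈ (S0 l s).head?, y = s) ∧
    (S0 l s).IsChain (rs 0 (2 * s + l - 1))
  | 0, s => by simp [S0]
  | 1, s => by simp [S0]
  | (l + 2), s => by
    obtain ⟨h1, h2, h3, h4, h5⟩ := S0_spec l (s + 1)
    refine ⟨by simp [S0, h1], ?_, ?_, by simp [S0], ?_⟩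
    · intro x hx
      simp only [S0, List.mem_cons] at hx
      push_cast
      rcases hx with rfl | rfl | hx
      · omega
      · omega
      · have := h2 x hx
        omega
    · simp only [S0, List.nodup_cons, List.mem_cons, not_or]
      refine ⟨⟨by omega, fun h => ?_⟩, fun h => ?_, h3⟩
      · have := h2 _ h
        omega
      · have := h2 _ h
        omega
    · rw [S0, List.isChain_cons_cons, List.isChain_cons]
      refine ⟨?_, ?_, ?_⟩
      · unfold rs ruleo rule0 rule1
        push_cast
        simp only [true_and, false_and, false_or, or_false]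
        omega
      · intro y hy
        have hy1 := h4 y hy
        have hy2 := h2 y (List.mem_of_mem_head? hy)
        unfold rs ruleo rule0 rule1
        push_cast
        simp only [true_and, false_and, false_or, or_false]
        omega
      · have : 2 * s + ((l + 2 : ℕ) : ℤ) - 1 = 2 * (s + 1) + l - 1 := by
          push_cast
          ring
        rw [this]
        exact h5

theorem S1_spec : ∀ (l : ℕ) (s : ℤ), s % 2 = 1 → (S1 l s).length = l ∧
    (∀ x ∈ S1 l s, s ≤ x ∧ x < s + l) ∧ (S1 l s).Nodup ∧ (∀ y ∈ (S1 l s).head?, y = s) ∧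
    (S1 l s).IsChain (rs 1 (2 * s + l))
  | 0, s => by simp [S1]
  | 1, s => by simp [S1]
  | 2, s => by
    intro hs
    refine ⟨by simp [S1], ?_, by simp [S1], by simp [S1], ?_⟩
    · intro x hx
      simp only [S1, List.mem_cons, List.not_mem_nil, or_false] at hx
      push_cast
      omega
    · simp only [S1, List.isChain_cons_cons, List.isChain_singleton, and_true]
      unfold rs ruleo rule0 rule1
      push_cast
      simp only [true_and, false_and, false_or, or_false]
      omega
  | 3, s => by
    intro hs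
    refine ⟨by simp [S1], ?_, by simp [S1], by simp [S1], ?_⟩
    · intro x hx
      simp only [S1, List.mem_cons, List.not_mem_nil, or_false] at hx
      push_cast
      omega
    · simp only [S1, List.isChain_cons_cons, List.isChain_singleton, and_true]
      unfold rs ruleo rule0 rule1
      push_cast
      simp only [true_and, false_and, false_or, or_false]
      omega
  | (l + 4), s => by
    intro hs
    obtain ⟨h1, h2, h3, h4, h5⟩ := S1_spec l (s + 2) (by omega)
    refine ⟨by simp [S1, h1], ?_, ?_, by simp [S1], ?_⟩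
    · intro x hx
      simp only [S1, List.mem_cons] at hx
      push_cast
      rcases hx with rfl | rfl | rfl | rfl | hx
      · omega
      · omega
      · omega
      · omega
      · have := h2 x hx
        omega
    · simp only [S1, List.nodup_cons, List.mem_cons, not_or]
      refine ⟨⟨by omega, by omega, by omega, fun h => ?_⟩, ⟨by omega, by omega, fun h => ?_⟩,
        ⟨by omega, fun h => ?_⟩, fun h => ?_, h3⟩
      · have := h2 _ h
        omega
      · have := h2 _ h
        omega
      · have := h2 _ h
        omega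
      · have := h2 _ h
        omega
    · rw [S1, List.isChain_cons_cons, List.isChain_cons_cons, List.isChain_cons_cons,
        List.isChain_cons]
      refine ⟨?_, ?_, ?_, ?_, ?_⟩
      · unfold rs ruleo rule0 rule1
        push_cast
        simp only [true_and, false_and, false_or, or_false]
        omega
      · unfold rs ruleo rule0 rule1
        push_cast
        simp only [true_and, false_and, false_or, or_false]
        omega
      · unfold rs ruleo rule0 rule1
        push_cast
        simp only [true_and, false_and, false_or, or_false]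
        omega
      · intro y hy
        have hy1 := h4 y hy
        have hy2 := h2 y (List.mem_of_mem_head? hy)
        unfold rs ruleo rule0 rule1
        push_cast
        simp only [true_and, false_and, false_or, or_false]
        omega
      · have : 2 * s + ((l + 4 : ℕ) : ℤ) = 2 * (s + 2) + l := by
          push_cast
          ring
        rw [this]
        exact h5

/-- zigzag list, both parities -/
def So (o l : ℕ) (s : ℤ) : List ℤ := if o = 0 then S0 l s else S1 l s

theorem So_spec {o l : ℕ} {s : ℤ} (ho : o = 0 ∨ (o = 1 ∧ s % 2 = 1)) : (So o l s).length = l ∧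
    (∀ x ∈ So o l s, s ≤ x ∧ x < s + l) ∧ (So o l s).Nodup ∧ (∀ y ∈ (So o l s).head?, y = s) ∧
    (So o l s).IsChain (rs o (2 * s + l - 1 + o)) := by
  rcases ho with rfl | ⟨rfl, hs⟩
  · have := S0_spec l s
    simpa [So] using this
  · have := S1_spec l s hs
    simpa [So] using this

/-- alternating part -/
def cr : ℕ → ℤ → ℤ → List ℤ → List ℤ
  | 0, a, _, t => a :: t
  | (r + 1), a, b, t => a :: b :: cr r (a + 1) (b - 1) t

/-- the relation of class `k` in pivot coordinates -/
def Cp (m o k : ℕ) (x y : ℤ) : Prop :=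
  (1 ≤ x ∧ 1 ≤ y ∧ rs o (k + 1) x y) ∨ (x ≤ 0 ∧ y ≤ 0 ∧ rs o (2 * m - k) (1 - x) (1 - y)) ∨
    (((1 ≤ x ∧ y ≤ 0) ∨ (x ≤ 0 ∧ 1 ≤ y)) ∧ (x + y = k + 1 ∨ x + y = k + 2))

theorem Cp_symm {m o k : ℕ} {x y : ℤ} (h : Cp m o k x y) : Cp m o k y x := by
  rcases h with ⟨a, b, c⟩ | ⟨a, b, c⟩ | ⟨a, b⟩
  · exact Or.inl ⟨b, a, rs_symm c⟩
  · exact Or.inr (Or.inl ⟨b, a, rs_symm c⟩)
  · refine Or.inr (Or.inr ⟨by omega, by omega⟩)

theorem cr_spec (m o k : ℕ) : ∀ (r : ℕ) (a b : ℤ) (t : List ℤ), 1 ≤ a → b ≤ 0 → a + b = k + 1 →
    (∀ x ∈ t, x ≤ b - r) → t.Nodup → (∀ y ∈ t.head?, y = b - r) → t.IsChain (Cp m o k) →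
    (cr r a b t).length = 2 * r + 1 + t.length ∧
    (∀ x ∈ cr r a b t, (a ≤ x ∧ x ≤ a + r) ∨ (b - r < x ∧ x ≤ b) ∨ x ∈ t) ∧
    (cr r a b t).Nodup ∧ (cr r a b t).head? = some a ∧ (cr r a b t).IsChain (Cp m o k)
  | 0, a, b, t, ha, hb, hab, ht, hn, hh, hc => by
    refine ⟨by simp [cr]; omega, ?_, ?_, by simp [cr], ?_⟩
    · intro x hx
      simp only [cr, List.mem_cons] at hx
      rcases hx with rfl | hx
      · left
        omega
      · exact Or.inr (Or.inr hx)
    · simp only [cr, List.nodup_cons]
      refine ⟨fun h => ?_, hn⟩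
      have := ht _ h
      push_cast at this
      omega
    · simp only [cr, List.isChain_cons]
      refine ⟨fun y hy => ?_, hc⟩
      have := hh y hy
      push_cast at this
      refine Or.inr (Or.inr ⟨by omega, by omega⟩)
  | (r + 1), a, b, t, ha, hb, hab, ht, hn, hh, hc => by
    have ht' : ∀ x ∈ t, x ≤ b - 1 - r := by
      intro x hx
      have := ht x hx
      push_cast at this
      omega
    obtain ⟨h1, h2, h3, h4, h5⟩ := cr_spec m o k r (a + 1) (b - 1) t (by omega) (by omega)
      (by omega) ht' hn
      (by intro y hy; have := hh y hy; push_cast at this; omega) hc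
    refine ⟨by simp [cr, h1]; omega, ?_, ?_, by simp [cr], ?_⟩
    · intro x hx
      simp only [cr, List.mem_cons] at hx
      push_cast
      rcases hx with rfl | rfl | hx
      · left
        omega
      · right; left
        omega
      · rcases h2 x hx with h | h | h
        · left
          omega
        · right; left
          omega
        · exact Or.inr (Or.inr h)
    · simp only [cr, List.nodup_cons, List.mem_cons, not_or]
      refine ⟨⟨by omega, fun h => ?_⟩, fun h => ?_, h3⟩
      · rcases h2 _ h with h | h | h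
        · omega
        · omega
        · have := ht' _ h
          omega
      · rcases h2 _ h with h | h | h
        · omega
        · omega
        · have := ht' _ h
          omega
    · rw [cr, List.isChain_cons_cons, List.isChain_cons]
      refine ⟨Or.inr (Or.inr ⟨by omega, by omega⟩), ?_, h5⟩
      intro y hy
      rw [h4] at hy
      simp only [Option.mem_def, Option.some.injEq] at hy
      refine Or.inr (Or.inr ⟨by omega, by omega⟩)

/-- offset: `1` if a vertex is left out -/
def dl (o k : ℕ) : ℕ := if o = 1 ∧ 1 ≤ k then 1 else 0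

theorem dl_spec (o k : ℕ) : (o = 1 ∧ 1 ≤ k ∧ dl o k = 1) ∨ (¬ (o = 1 ∧ 1 ≤ k) ∧ dl o k = 0) := by
  unfold dl
  split_ifs with h
  · exact Or.inl ⟨h.1, h.2, rfl⟩
  · exact Or.inr ⟨h, rfl⟩

/-- first part of the sequence -/
def Hp (o k : ℕ) : List ℤ :=
  (if o = 1 ∧ 1 ≤ k then [(k : ℤ)] else []) ++ (So o (k - dl o k) 1).reverse

/-- last part of the sequence -/
def Ht (o k M M' : ℕ) : List ℤ :=
  cr (M - k - 1) (k + 1) 0 ((So o (M' + k + 1 - M) (M - k)).map (fun x => 1 - x))

theorem Ht_spec {m o k M M' : ℕ} (hk : k + 1 ≤ M)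
    (ho : (o = 0 ∧ M = m ∧ M' = m) ∨ (o = 1 ∧ (M + k) % 2 = 1 ∧ M + M' + 1 = 2 * m ∧ M ≤ m ∧ M' ≤ m)) :
    (Ht o k M M').length = M + M' - k ∧
    (∀ x ∈ Ht o k M M', 1 - (M' : ℤ) ≤ x ∧ x ≤ M ∧ (x ≤ 0 ∨ (k : ℤ) + 1 ≤ x)) ∧
    (Ht o k M M').Nodup ∧ (Ht o k M M').head? = some ((k : ℤ) + 1) ∧
    (Ht o k M M').IsChain (Cp m o k) := by
  have hs : o = 0 ∨ (o = 1 ∧ ((M : ℤ) - k) % 2 = 1) := by omega
  obtain ⟨h1, h2, h3, h4, h5⟩ := So_spec (l := M' + k + 1 - M) hs
  set t : List ℤ := (So o (M' + k + 1 - M) (M - k)).map (fun x => 1 - x) with ht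
  have ht1 : t.length = M' + k + 1 - M := by simp [ht, h1]
  have ht2 : ∀ x ∈ t, 1 - (M' : ℤ) ≤ x ∧ x ≤ 0 - ((M - k - 1 : ℕ) : ℤ) := by
    intro x hx
    simp only [ht, List.mem_map] at hx
    obtain ⟨y, hy, rfl⟩ := hx
    have := h2 y hy
    omega
  have ht3 : t.Nodup := by
    rw [ht]
    exact h3.map (fun a b hab => by simpa using hab)
  have ht4 : ∀ y ∈ t.head?, y = 0 - ((M - k - 1 : ℕ) : ℤ) := by
    intro y hy
    simp only [ht, List.head?_map, Option.mem_def, Option.map_eq_some_iff] at hy
    obtain ⟨z, hz, rfl⟩ := hy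
    have := h4 z hz
    omega
  have ht5 : t.IsChain (Cp m o k) := by
    rw [ht, List.isChain_map]
    refine List.IsChain.imp_of_mem_imp ?_ h5
    intro a b ha hb hab
    have ha1 := h2 a ha
    have hb1 := h2 b hb
    right; left
    refine ⟨by omega, by omega, ?_⟩
    have e : 2 * ((M : ℤ) - k) + ((M' + k + 1 - M : ℕ) : ℤ) - 1 + o = 2 * m - k := by omega
    rw [e] at hab
    simpa using hab
  obtain ⟨c1, c2, c3, c4, c5⟩ := cr_spec m o k (M - k - 1) (k + 1) 0 t (by omega) le_rfl
    (by omega) (fun x hx => (ht2 x hx).2) ht3 ht4 ht5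
  refine ⟨?_, ?_, c3, c4, c5⟩
  · unfold Ht
    rw [← ht, c1, ht1]
    omega
  · intro x hx
    unfold Ht at hx
    rw [← ht] at hx
    rcases c2 x hx with h | h | h
    · omega
    · omega
    · have := ht2 x h
      omega

theorem Hp_spec (m o k : ℕ) (ho : o = 0 ∨ o = 1) :
    (Hp o k).length = k ∧ (∀ x ∈ Hp o k, 1 ≤ x ∧ x ≤ k) ∧ (Hp o k).Nodup ∧
    (dl o k = 1 → (Hp o k).head? = some (k : ℤ)) ∧
    ((Hp o k).drop (dl o k)).IsChain (Cp m o k) ∧
    (∀ x ∈ (Hp o k).drop (dl o k), 1 ≤ x ∧ x ≤ k - dl o k) ∧
    (∀ x ∈ ((Hp o k).drop (dl o k)).getLast?, x = 1) := by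
  have hs : o = 0 ∨ (o = 1 ∧ (1 : ℤ) % 2 = 1) := by omega
  obtain ⟨h1, h2, h3, h4, h5⟩ := So_spec (l := k - dl o k) hs
  have hch : (So o (k - dl o k) 1).reverse.IsChain (Cp m o k) := by
    rw [List.isChain_reverse]
    refine List.IsChain.imp_of_mem_imp ?_ h5
    intro a b ha hb hab
    have ha1 := h2 a ha
    have hb1 := h2 b hb
    apply Cp_symm
    left
    refine ⟨by omega, by omega, ?_⟩
    have e : 2 * (1 : ℤ) + ((k - dl o k : ℕ) : ℤ) - 1 + o = k + 1 := by
      have := dl_spec o k
      omega
    rwa [e] at hab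
  have hlast : ∀ x ∈ (So o (k - dl o k) 1).reverse.getLast?, x = 1 := by
    intro x hx
    rw [List.getLast?_reverse] at hx
    exact h4 x hx
  unfold Hp
  rcases dl_spec o k with ⟨h, h', e⟩ | ⟨h, e⟩
  · rw [if_pos ⟨h, h'⟩, e]
    rw [e] at h1 h2 h3 hch hlast
    refine ⟨by simp [h1]; omega, ?_, ?_, by simp, by simpa using hch, ?_, by simpa using hlast⟩
    · intro x hx
      simp only [List.singleton_append, List.mem_cons, List.mem_reverse] at hx
      rcases hx with rfl | hx
      · omega
      · have := h2 x hx
        omega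
    · simp only [List.singleton_append, List.nodup_cons, List.mem_reverse, List.nodup_reverse]
      refine ⟨fun hx => ?_, h3⟩
      have := h2 _ hx
      omega
    · intro x hx
      simp only [List.singleton_append, List.drop_succ_cons, List.drop_zero,
        List.mem_reverse] at hx
      have := h2 x hx
      omega
  · rw [if_neg h, e]
    rw [e] at h1 h2 h3 hch hlast
    refine ⟨by simpa using h1, ?_, by simpa using h3, by simp, by simpa using hch, ?_,
      by simpa using hlast⟩
    · intro x hx
      simp only [List.nil_append, List.mem_reverse] at hx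
      have := h2 x hx
      omega
    · intro x hx
      simp only [List.nil_append, List.drop_zero, List.mem_reverse] at hx
      have := h2 x hx
      omega

/-- existence of the explicit sequence in pivot coordinates -/
theorem exSeq {m o k M M' : ℕ} (hk : k + 1 ≤ M)
    (ho : (o = 0 ∧ M = m ∧ M' = m) ∨ (o = 1 ∧ (M + k) % 2 = 1 ∧ M + M' + 1 = 2 * m ∧ M ≤ m ∧ M' ≤ m)) :
    ∃ h : ℕ → ℤ, (∀ x, x < M + M' → 1 - (M' : ℤ) ≤ h x ∧ h x ≤ M) ∧
      (∀ x y, x < M + M' → y < M + M' → h x = h y → x = y) ∧
      (∀ x, x < M + M' → (x < dl o k → h x = k) ∧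
        (dl o k ≤ x → x < k → 1 ≤ h x ∧ h x ≤ k - dl o k) ∧
        (x = k → h x = k + 1) ∧ (k < x → h x ≤ 0 ∨ (k : ℤ) + 1 < h x)) ∧
      (∀ x, dl o k ≤ x → x + 1 < M + M' → Cp m o k (h x) (h (x + 1))) := by
  obtain ⟨t1, t2, t3, t4, t5⟩ := Ht_spec hk ho
  obtain ⟨p1, p2, p3, p4, p5, p6, p7⟩ := Hp_spec m o k (by omega)
  have hdl := dl_spec o k
  set H : List ℤ := Hp o k ++ Ht o k M M' with hH
  have hlen : H.length = M + M' := by
    rw [hH, List.length_append, p1, t1]
    omega
  have hnd : H.Nodup := by
    rw [hH, List.nodup_append]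
    refine ⟨p3, t3, ?_⟩
    intro a ha b hb hab
    have := p2 a ha
    have := t2 b hb
    omega
  have hchain : (H.drop (dl o k)).IsChain (Cp m o k) := by
    have e : H.drop (dl o k) = (Hp o k).drop (dl o k) ++ Ht o k M M' := by
      rw [hH, List.drop_append_of_le_length]
      omega
    rw [e, List.isChain_append]
    refine ⟨p5, t5, ?_⟩
    intro x hx y hy
    rw [t4] at hy
    simp only [Option.mem_def, Option.some.injEq] at hy
    have hx1 := p7 x hx
    have hx2 := p6 x (List.mem_of_mem_getLast? hx)
    left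
    refine ⟨by omega, by omega, ?_⟩
    subst hx1
    subst hy
    unfold rs ruleo rule0 rule1
    omega
  refine ⟨fun x => H.getD x 0, ?_, ?_, ?_, ?_⟩
  · intro x hx
    have hx' : x < H.length := by omega
    simp only [List.getD_eq_getElem _ _ hx']
    have hmem : H[x] ∈ H := List.getElem_mem hx'
    generalize H[x] = z at hmem ⊢
    rw [hH, List.mem_append] at hmem
    rcases hmem with h | h
    · have := p2 _ h
      omega
    · have := t2 _ h
      omega
  · intro x y hx hy hxy
    have hx' : x < H.length := by omega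
    have hy' : y < H.length := by omega
    simp only [List.getD_eq_getElem _ _ hx', List.getD_eq_getElem _ _ hy'] at hxy
    exact (hnd.getElem_inj_iff).1 hxy
  · intro x hx
    have hx' : x < H.length := by omega
    simp only [List.getD_eq_getElem _ _ hx']
    refine ⟨?_, ?_, ?_, ?_⟩
    · intro hxd
      have hx0 : x = 0 := by omega
      have hd1 : dl o k = 1 := by omega
      have h0 := p4 hd1
      subst hx0
      have h1 : H.head? = some (k : ℤ) := by
        rw [hH, List.head?_append, h0]
        rfl
      rw [List.head?_eq_getElem?, List.getElem?_eq_getElem hx'] at h1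
      exact Option.some.inj h1
    · intro h1 h2
      have hxp : x < (Hp o k).length := by omega
      have e : H[x] = (Hp o k)[x] := by
        simp only [hH]
        exact List.getElem_append_left hxp
      rw [e]
      apply p6
      rw [List.mem_iff_getElem]
      refine ⟨x - dl o k, by rw [List.length_drop]; omega, ?_⟩
      rw [List.getElem_drop]
      congr 1
      omega
    · intro h1
      subst h1
      have h1 : (H.drop x).head? = some ((x : ℤ) + 1) := by
        rw [hH, List.drop_append_of_le_length (by omega)]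
        have : (Hp o x).drop x = [] := by
          rw [List.drop_eq_nil_iff]
          omega
        rw [this, List.nil_append, t4]
      rw [List.head?_drop, List.getElem?_eq_getElem hx'] at h1
      exact Option.some.inj h1
    · intro h1
      have hk' : k < H.length := by omega
      have e1 : H[k] = (k : ℤ) + 1 := by
        have h1 : (H.drop k).head? = some ((k : ℤ) + 1) := by
          rw [hH, List.drop_append_of_le_length (by omega)]
          have : (Hp o k).drop k = [] := by
            rw [List.drop_eq_nil_iff]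
            omega
          rw [this, List.nil_append, t4]
        rw [List.head?_drop, List.getElem?_eq_getElem hk'] at h1
        exact Option.some.inj h1
      have hmem : H[x] ∈ Ht o k M M' := by
        have e : H[x] = (Ht o k M M')[x - k]'(by omega) := by
          simp only [hH]
          rw [List.getElem_append_right (by omega)]
          congr 1
          omega
        rw [e]
        exact List.getElem_mem _
      have h2 := t2 _ hmem
      have h3 : H[x] ≠ H[k] := by
        intro h
        have := (hnd.getElem_inj_iff).1 h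
        omega
      rw [e1] at h3
      omega
  · intro x h1 h2
    have hx' : x < H.length := by omega
    have hx1' : x + 1 < H.length := by omega
    simp only [List.getD_eq_getElem _ _ hx', List.getD_eq_getElem _ _ hx1']
    have := hchain.getElem (x - dl o k) (by rw [List.length_drop]; omega)
    rw [List.getElem_drop, List.getElem_drop] at this
    have e1 : dl o k + (x - dl o k) = x := by omega
    have e2 : dl o k + (x - dl o k + 1) = x + 1 := by omega
    simpa only [e1, e2] using this

end Run7.h14
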