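import Mathlib

/-!
The parity argument: if there is exactly one choice of sequences (one from each family) whose
steps use every pair exactly once, then every graph is a mod 2 sum of contiguous pieces of
sequences from the families.
-/

namespace Run7.h14

open Classical

/-- steps: pairs (family, position) -/
abbrev Jx (m n : ℕ) (d : Fin m → ℕ) : Type :=
  {j : Fin m × Fin n // d j.1 ≤ (j.2 : ℕ) ∧ (j.2 : ℕ) + 1 < n}

/-- the pair of vertices joined by a step -/
def edg {m n : ℕ} {d : Fin m → ℕ} (P : Fin m → Fin n → Fin n) (j : Jx m n d) : Sym2 (Fin n) :=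
  s(P j.1.1 j.1.2, P j.1.1 ⟨(j.1.2 : ℕ) + 1, j.2.2⟩)

/-- number (mod 2) of chosen steps using the pair `e` -/
noncomputable def cnt {m n : ℕ} {d : Fin m → ℕ} (P : Fin m → Fin n → Fin n)
    (s : Jx m n d → ZMod 2) (e : Sym2 (Fin n)) : ZMod 2 :=
  ∑ j, s j * (if edg P j = e then 1 else 0)

/-- the chosen steps sum to `G` -/
def sumsTo {m n : ℕ} {d : Fin m → ℕ} (P : Fin m → Fin n → Fin n)
    (s : Jx m n d → ZMod 2) (G : Set (Sym2 (Fin n))) : Prop :=
  ∀ e : Sym2 (Fin n), ¬ e.IsDiag → cnt P s e = if e ∈ G then 1 else 0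

theorem z2 (z : ZMod 2) : z = 0 ∨ z = 1 := by
  revert z
  decide

theorem z2add (z : ZMod 2) : z + z = 0 := by
  revert z
  decide

theorem sum_inj {m n : ℕ} {d : Fin m → ℕ} (P : Fin m → Fin n → Fin n) (G : Set (Sym2 (Fin n)))
    (hinj : Function.Injective (edg (d := d) P)) (hnd : ∀ j : Jx m n d, ¬ (edg P j).IsDiag)
    (hsur : ∀ e : Sym2 (Fin n), ¬ e.IsDiag → ∃ j : Jx m n d, edg P j = e) :
    (∑ s : Jx m n d → ZMod 2, if sumsTo P s G then (1 : ZMod 2) else 0) = 1 := by
  have hc : ∀ (s : Jx m n d → ZMod 2) (j : Jx m n d), cnt P s (edg P j) = s j := by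
    intro s j
    unfold cnt
    rw [Finset.sum_eq_single j]
    · simp
    · intro b _ hb
      rw [if_neg (fun h => hb (hinj h)), mul_zero]
    · intro h
      exact absurd (Finset.mem_univ j) h
  have key : ∀ s : Jx m n d → ZMod 2,
      sumsTo P s G ↔ s = fun j => if edg P j ∈ G then 1 else 0 := by
    intro s
    constructor
    · intro h
      funext j
      rw [← h _ (hnd j), hc]
    · rintro rfl e he
      obtain ⟨j, rfl⟩ := hsur e he
      rw [hc]
  simp only [key]
  simp

theorem sum_ninj {m n : ℕ} {d : Fin m → ℕ} (P : Fin m → Fin n → Fin n) (G : Set (Sym2 (Fin n)))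
    (hinj : ¬ Function.Injective (edg (d := d) P)) :
    (∑ s : Jx m n d → ZMod 2, if sumsTo P s G then (1 : ZMod 2) else 0) = 0 := by
  unfold Function.Injective at hinj
  push Not at hinj
  obtain ⟨j1, j2, he, hne⟩ := hinj
  have hcnt : ∀ (s : Jx m n d → ZMod 2) (e : Sym2 (Fin n)),
      cnt P (s + (Pi.single j1 1 + Pi.single j2 1)) e = cnt P s e := by
    intro s e
    unfold cnt
    simp only [Pi.add_apply, add_mul, Finset.sum_add_distrib, Pi.single_apply, ite_mul, one_mul,
      zero_mul, Finset.sum_ite_eq', Finset.mem_univ, if_true]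
    rw [he, z2add, add_zero]
  refine Finset.sum_involution (fun s _ => s + (Pi.single j1 1 + Pi.single j2 1)) ?_ ?_ ?_ ?_
  · intro s _
    have : sumsTo P (s + (Pi.single j1 1 + Pi.single j2 1)) G ↔ sumsTo P s G := by
      unfold sumsTo
      simp only [hcnt]
    simp only [this, z2add]
  · intro s _ _ h
    have h1 : (Pi.single j1 1 + Pi.single j2 1 : Jx m n d → ZMod 2) = 0 := by
      simpa using h
    have h2 := congrFun h1 j1
    simp only [Pi.add_apply, Pi.single_eq_same, Pi.zero_apply] at h2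
    rw [Pi.single_eq_of_ne hne, add_zero] at h2
    exact one_ne_zero h2
  · intro s _
    exact Finset.mem_univ _
  · intro s _
    have : (Pi.single j1 1 + Pi.single j2 1 : Jx m n d → ZMod 2) +
        (Pi.single j1 1 + Pi.single j2 1) = 0 := by
      funext j
      exact z2add _
    rw [add_assoc, this, add_zero]

/-- reversal of the positions `a,…,b` -/
def rv {n : ℕ} (a b : ℕ) (hb : b < n) (x : Fin n) : Fin n :=
  if h : a ≤ (x : ℕ) ∧ (x : ℕ) ≤ b then ⟨a + b - x, by omega⟩ else x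

theorem rv_in {n a b : ℕ} (hb : b < n) {x : Fin n} (h1 : a ≤ (x : ℕ)) (h2 : (x : ℕ) ≤ b) :
    ((rv a b hb x : Fin n) : ℕ) = a + b - x := by
  unfold rv
  rw [dif_pos ⟨h1, h2⟩]

theorem rv_out {n a b : ℕ} (hb : b < n) {x : Fin n} (h : ¬ (a ≤ (x : ℕ) ∧ (x : ℕ) ≤ b)) :
    rv a b hb x = x := by
  unfold rv
  rw [dif_neg h]

theorem rv_rv {n a b : ℕ} (hb : b < n) (x : Fin n) : rv a b hb (rv a b hb x) = x := by
  by_cases h : a ≤ (x : ℕ) ∧ (x : ℕ) ≤ b
  · apply Fin.ext
    have h1 := rv_in hb h.1 h.2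
    rw [rv_in hb (by omega) (by omega), h1]
    omega
  · rw [rv_out hb h, rv_out hb h]

/-- step map corresponding to the reversal -/
def rj {m n : ℕ} {d : Fin m → ℕ} (k0 : Fin m) (a b : ℕ) (hb : b < n) (ha : d k0 ≤ a)
    (j : Jx m n d) : Jx m n d :=
  if h : j.1.1 = k0 ∧ a ≤ (j.1.2 : ℕ) ∧ (j.1.2 : ℕ) < b then
    ⟨(k0, ⟨a + b - 1 - j.1.2, by omega⟩), by
      refine ⟨?_, ?_⟩
      · show d k0 ≤ a + b - 1 - (j.1.2 : ℕ)
        omega
      · show a + b - 1 - (j.1.2 : ℕ) + 1 < n
        omega⟩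
  else j

theorem rj_in {m n : ℕ} {d : Fin m → ℕ} {k0 : Fin m} {a b : ℕ} (hb : b < n) (ha : d k0 ≤ a)
    {j : Jx m n d} (h : j.1.1 = k0 ∧ a ≤ (j.1.2 : ℕ) ∧ (j.1.2 : ℕ) < b) :
    (rj k0 a b hb ha j).1.1 = k0 ∧ ((rj k0 a b hb ha j).1.2 : ℕ) = a + b - 1 - j.1.2 := by
  unfold rj
  rw [dif_pos h]
  exact ⟨rfl, rfl⟩

theorem rj_rj {m n : ℕ} {d : Fin m → ℕ} {k0 : Fin m} {a b : ℕ} (hb : b < n) (ha : d k0 ≤ a)
    (j : Jx m n d) : rj k0 a b hb ha (rj k0 a b hb ha j) = j := by
  by_cases h : j.1.1 = k0 ∧ a ≤ (j.1.2 : ℕ) ∧ (j.1.2 : ℕ) < b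
  · have h1 := rj_in hb ha h
    have h2 := rj_in hb ha (j := rj k0 a b hb ha j) ⟨h1.1, by omega, by omega⟩
    apply Subtype.ext
    apply Prod.ext
    · rw [h2.1, h.1]
    · apply Fin.ext
      rw [h2.2, h1.2]
      omega
  · have : rj k0 a b hb ha j = j := by
      unfold rj
      rw [dif_neg h]
    rw [this, this]

theorem cnt_rev {m n : ℕ} {d : Fin m → ℕ} (P : Fin m → Fin n → Fin n) (s : Jx m n d → ZMod 2)
    (k0 : Fin m) (a b : ℕ) (hb : b < n) (ha : d k0 ≤ a)
    (hrun : ∀ j : Jx m n d, j.1.1 = k0 → a ≤ (j.1.2 : ℕ) → (j.1.2 : ℕ) < b → s j = 1)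
    (hlo : ∀ j : Jx m n d, j.1.1 = k0 → (j.1.2 : ℕ) + 1 = a → s j = 0)
    (hhi : ∀ j : Jx m n d, j.1.1 = k0 → (j.1.2 : ℕ) = b → s j = 0) (e : Sym2 (Fin n)) :
    cnt (Function.update P k0 (P k0 ∘ rv a b hb)) s e = cnt P s e := by
  unfold cnt
  let σ : Jx m n d ≃ Jx m n d :=
    Function.Involutive.toPerm (rj k0 a b hb ha) (rj_rj hb ha)
  rw [← Equiv.sum_comp σ]
  apply Finset.sum_congr rfl
  intro j _
  show s (rj k0 a b hb ha j) * _ = s j * _
  by_cases h : j.1.1 = k0 ∧ a ≤ (j.1.2 : ℕ) ∧ (j.1.2 : ℕ) < b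
  · have h1 := rj_in hb ha h
    have hs1 : s (rj k0 a b hb ha j) = 1 := hrun _ h1.1 (by omega) (by omega)
    have hs2 : s j = 1 := hrun _ h.1 h.2.1 h.2.2
    have he : edg (Function.update P k0 (P k0 ∘ rv a b hb)) (rj k0 a b hb ha j) = edg P j := by
      unfold edg
      rw [h1.1, h.1, Function.update_self]
      rw [Sym2.eq_swap]
      simp only [Function.comp_apply]
      congr 2
      · apply Fin.ext
        rw [rv_in hb (by show a ≤ _ + 1; omega) (by show _ + 1 ≤ b; omega)]
        show a + b - (((rj k0 a b hb ha j).1.2 : ℕ) + 1) = _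
        omega
      · apply Fin.ext
        rw [rv_in hb (by omega) (by omega)]
        show a + b - ((rj k0 a b hb ha j).1.2 : ℕ) = (j.1.2 : ℕ) + 1
        omega
    show s (rj k0 a b hb ha j) * (if edg _ (rj k0 a b hb ha j) = e then 1 else 0) = _
    rw [hs1, hs2, he]
  · have hj : rj k0 a b hb ha j = j := by
      unfold rj
      rw [dif_neg h]
    show s (rj k0 a b hb ha j) * (if edg _ (rj k0 a b hb ha j) = e then 1 else 0) = _
    rw [hj]
    rcases z2 (s j) with h0 | h0
    · rw [h0, zero_mul, zero_mul]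
    · have he : edg (Function.update P k0 (P k0 ∘ rv a b hb)) j = edg P j := by
        unfold edg
        by_cases hk : j.1.1 = k0
        · rw [hk, Function.update_self]
          have n1 : (j.1.2 : ℕ) + 1 ≠ a := by
            intro hh
            rw [hlo j hk hh] at h0
            exact zero_ne_one h0
          have n2 : (j.1.2 : ℕ) ≠ b := by
            intro hh
            rw [hhi j hk hh] at h0
            exact zero_ne_one h0
          simp only [Function.comp_apply]
          rw [rv_out hb (by omega), rv_out hb (by show ¬ (a ≤ (j.1.2 : ℕ) + 1 ∧ _ + 1 ≤ b); omega)]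
        · rw [Function.update_of_ne hk]
      rw [he]

/-- the step at position `x` of family `k` is chosen -/
def onn {m n : ℕ} {d : Fin m → ℕ} (s : Jx m n d → ZMod 2) (k : Fin m) (x : ℕ) : Prop :=
  ∃ j : Jx m n d, j.1.1 = k ∧ (j.1.2 : ℕ) = x ∧ s j = 1

theorem run_exists (Pr : ℕ → Prop) (x N : ℕ) (hx : Pr x) (hN : ∀ t, N ≤ t → ¬ Pr t) :
    ∃ a b, a ≤ x ∧ x < b ∧ (∀ t, a ≤ t → t < b → Pr t) ∧ ¬ Pr b ∧ (∀ t, t + 1 = a → ¬ Pr t) := by
  have hxN : x < N := by
    by_contra h
    exact hN x (by omega) hx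
  have hb : ∃ b, x < b ∧ ¬ Pr b := ⟨N, hxN, hN N le_rfl⟩
  have ha : ∃ a, a ≤ x ∧ ∀ t, a ≤ t → t ≤ x → Pr t :=
    ⟨x, le_rfl, fun t h1 h2 => by
      have : t = x := by omega
      rwa [this]⟩
  refine ⟨Nat.find ha, Nat.find hb, (Nat.find_spec ha).1, (Nat.find_spec hb).1, ?_,
    (Nat.find_spec hb).2, ?_⟩
  · intro t h1 h2
    by_cases h : t ≤ x
    · exact (Nat.find_spec ha).2 t h1 h
    · by_contra h3
      exact Nat.find_min hb h2 ⟨by omega, h3⟩
  · intro t h1 h2
    have h4 : t < Nat.find ha := by omega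
    apply Nat.find_min ha h4
    refine ⟨by have := (Nat.find_spec ha).1; omega, fun u h5 h6 => ?_⟩
    by_cases h : u = t
    · rwa [h]
    · exact (Nat.find_spec ha).2 u (by omega) h6

/-- the parity theorem -/
theorem parity_main {m n : ℕ} {d : Fin m → ℕ} (Fam : Fin m → (Fin n → Fin n) → Prop)
    (hrev : ∀ (k : Fin m) (f : Fin n → Fin n) (a b : ℕ) (hb : b < n), d k ≤ a → a < b →
      (b < (k : ℕ) ∨ (k : ℕ) < a) → Fam k f → Fam k (f ∘ rv a b hb))
    (hfi : ∀ k f, Fam k f → Function.Injective f)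
    (P0 : Fin m → Fin n → Fin n) (h0 : ∀ k, Fam k (P0 k))
    (h0i : Function.Injective (edg (d := d) P0))
    (huniq : ∀ P : Fin m → Fin n → Fin n, (∀ k, Fam k (P k)) →
      Function.Injective (edg (d := d) P) → P = P0)
    (hcard : Fintype.card (Jx m n d) = n.choose 2) (G : Set (Sym2 (Fin n))) :
    ∃ (P : Fin m → Fin n → Fin n) (s : Jx m n d → ZMod 2), (∀ k, Fam k (P k)) ∧
      sumsTo P s G ∧ ∀ (k : Fin m) (x y z : ℕ), x < y → y < z → onn s k x → onn s k z →
        onn s k y := by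
  by_contra hcon
  push Not at hcon
  -- total sum
  have hnd : ∀ (P : Fin m → Fin n → Fin n), (∀ k, Fam k (P k)) → ∀ j : Jx m n d,
      ¬ (edg P j).IsDiag := by
    intro P hP j hj
    unfold edg at hj
    rw [Sym2.mk_isDiag_iff] at hj
    have := hfi _ _ (hP _) hj
    have := congrArg Fin.val this
    simp at this
  have hsur : ∀ e : Sym2 (Fin n), ¬ e.IsDiag → ∃ j : Jx m n d, edg P0 j = e := by
    intro e he
    let F : Jx m n d → {e : Sym2 (Fin n) // ¬ e.IsDiag} := fun j => ⟨edg P0 j, hnd P0 h0 j⟩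
    have hF : Function.Injective F := fun a b hab => h0i (congrArg Subtype.val hab)
    have hFb : Function.Bijective F := by
      rw [Fintype.bijective_iff_injective_and_card]
      refine ⟨hF, ?_⟩
      rw [hcard, Sym2.card_subtype_not_diag, Fintype.card_fin]
    obtain ⟨j, hj⟩ := hFb.2 ⟨e, he⟩
    exact ⟨j, congrArg Subtype.val hj⟩
  have ha : (∑ P ∈ Finset.univ.filter (fun P : Fin m → Fin n → Fin n => ∀ k, Fam k (P k)),
      ∑ s : Jx m n d → ZMod 2, if sumsTo P s G then (1 : ZMod 2) else 0) = 1 := by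
    rw [Finset.sum_eq_single P0]
    · exact sum_inj P0 G h0i (hnd P0 h0) hsur
    · intro P hP hne
      apply sum_ninj
      intro hi
      exact hne (huniq P (Finset.mem_filter.1 hP).2 hi)
    · intro h
      exact absurd (Finset.mem_filter.2 ⟨Finset.mem_univ _, h0⟩) h
  rw [Finset.sum_comm] at ha
  have hb : (∑ s : Jx m n d → ZMod 2,
      ∑ P ∈ Finset.univ.filter (fun P : Fin m → Fin n → Fin n => ∀ k, Fam k (P k)),
      if sumsTo P s G then (1 : ZMod 2) else 0) = 0 := by
    apply Finset.sum_eq_zero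
    intro s _
    by_cases hs : ∀ (k : Fin m) (x y z : ℕ), x < y → y < z → onn s k x → onn s k z → onn s k y
    · apply Finset.sum_eq_zero
      intro P hP
      rw [if_neg]
      intro hG
      obtain ⟨k, x, y, z, h1, h2, h3, h4, h5⟩ := hcon P s (Finset.mem_filter.1 hP).2 hG
      exact h5 (hs k x y z h1 h2 h3 h4)
    · push Not at hs
      obtain ⟨k0, x, y, z, hxy, hyz, hx, hz, hy⟩ := hs
      have hbd : ∀ t, n ≤ t → ¬ onn s k0 t := by
        rintro t ht ⟨j, _, h2, _⟩
        have := j.1.2.2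
        omega
      -- find the run
      have hrun : ∃ a b, a < b ∧ (∀ t, a ≤ t → t < b → onn s k0 t) ∧ ¬ onn s k0 b ∧
          (∀ t, t + 1 = a → ¬ onn s k0 t) ∧ (b < (k0 : ℕ) ∨ (k0 : ℕ) < a) := by
        by_cases hyk : y < (k0 : ℕ)
        · obtain ⟨a, b, h1, h2, h3, h4, h5⟩ := run_exists (onn s k0) x n hx hbd
          refine ⟨a, b, by omega, h3, h4, h5, Or.inl ?_⟩
          by_contra hc
          exact hy (h3 y (by omega) (by omega))
        · obtain ⟨a, b, h1, h2, h3, h4, h5⟩ := run_exists (onn s k0) z n hz hbd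
          refine ⟨a, b, by omega, h3, h4, h5, Or.inr ?_⟩
          by_contra hc
          exact hy (h3 y (by omega) (by omega))
      obtain ⟨a, b, hab, hr, hrb, hra, hkk⟩ := hrun
      have hda : d k0 ≤ a := by
        obtain ⟨j, h1, h2, _⟩ := hr a le_rfl hab
        have := j.2.1
        rw [h1] at this
        omega
      have hbn : b < n := by
        obtain ⟨j, h1, h2, _⟩ := hr (b - 1) (by omega) (by omega)
        have := j.2.2
        omega
      have c1 : ∀ j : Jx m n d, j.1.1 = k0 → a ≤ (j.1.2 : ℕ) → (j.1.2 : ℕ) < b → s j = 1 := by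
        intro j h1 h2 h3
        obtain ⟨j', h1', h2', h3'⟩ := hr _ h2 h3
        have : j' = j := Subtype.ext (Prod.ext (h1'.trans h1.symm) (Fin.ext h2'))
        rwa [this] at h3'
      have c2 : ∀ j : Jx m n d, j.1.1 = k0 → (j.1.2 : ℕ) + 1 = a → s j = 0 := by
        intro j h1 h2
        rcases z2 (s j) with h | h
        · exact h
        · exact absurd ⟨j, h1, rfl, h⟩ (hra _ h2)
      have c3 : ∀ j : Jx m n d, j.1.1 = k0 → (j.1.2 : ℕ) = b → s j = 0 := by
        intro j h1 h2
        rcases z2 (s j) with h | h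
        · exact h
        · exact absurd ⟨j, h1, h2, h⟩ hrb
      refine Finset.sum_involution
        (fun P _ => Function.update P k0 (P k0 ∘ rv a b hbn)) ?_ ?_ ?_ ?_
      · intro P hP
        have : sumsTo (Function.update P k0 (P k0 ∘ rv a b hbn)) s G ↔ sumsTo P s G := by
          unfold sumsTo
          simp only [cnt_rev P s k0 a b hbn hda c1 c2 c3]
        simp only [this, z2add]
      · intro P hP _ heq
        have h1 := congrFun (congrFun heq k0) ⟨a, by omega⟩
        rw [Function.update_self] at h1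
        have h2 := hfi _ _ ((Finset.mem_filter.1 hP).2 k0) h1
        have h3 := congrArg Fin.val h2
        rw [rv_in hbn (by show a ≤ a; exact le_rfl) (by show a ≤ b; omega)] at h3
        simp at h3
        omega
      · intro P hP
        rw [Finset.mem_filter] at hP ⊢
        refine ⟨Finset.mem_univ _, fun k => ?_⟩
        by_cases hk : k = k0
        · subst hk
          rw [Function.update_self]
          exact hrev k _ a b hbn hda hab hkk (hP.2 k)
        · rw [Function.update_of_ne hk]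
          exact hP.2 k
      · intro P hP
        funext k x
        by_cases hk : k = k0
        · subst hk
          simp only [Function.update_self, Function.comp_apply, rv_rv]
        · rw [Function.update_of_ne hk, Function.update_of_ne hk]
  rw [ha] at hb
  exact one_ne_zero hb

end Run7.h14
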