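import Pool.Agent.Run7.h14.OcSeq
import Pool.Agent.Run7.h14.OcParity

/-!
Every graph on `n` vertices is a mod 2 sum of at most `⌈n/2⌉` paths.
-/

namespace Run7.h14

open Classical

/-- integer label of a vertex -/
def lab (q : ℕ) {n : ℕ} (v : Fin n) : ℤ := ((v : ℕ) : ℤ) + 1 - q

theorem lab_inj {q n : ℕ} {u v : Fin n} (h : lab q u = lab q v) : u = v := by
  unfold lab at h
  apply Fin.ext
  omega

/-- the integer sequence of a function -/
def sqq (q : ℕ) {n : ℕ} (f : Fin n → Fin n) (t : ℕ) : ℤ :=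
  if h : t < n then lab q (f ⟨t, h⟩) else 0

theorem sqq_lt {q n : ℕ} {f : Fin n → Fin n} {t : ℕ} (h : t < n) :
    sqq q f t = lab q (f ⟨t, h⟩) := by
  unfold sqq
  rw [dif_pos h]

/-- the families -/
def Famm (n o q : ℕ) (k : ℕ) (f : Fin n → Fin n) : Prop :=
  Function.Injective f ∧ zones n o k (pv k (sqq q f))

theorem Famm_rev {n o q k : ℕ} {f : Fin n → Fin n} (a b : ℕ) (hb : b < n) (ha : dl o k ≤ a)
    (hk : b < k ∨ k < a) (hf : Famm n o q k f) : Famm n o q k (f ∘ rv a b hb) := by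
  refine ⟨hf.1.comp (Function.LeftInverse.injective (rv_rv hb)), ?_⟩
  intro x hx
  have hy : ((rv a b hb ⟨x, hx⟩ : Fin n) : ℕ) < n := (rv a b hb ⟨x, hx⟩).2
  have e : pv k (sqq q (f ∘ rv a b hb)) x = pv k (sqq q f) (rv a b hb ⟨x, hx⟩ : Fin n) := by
    unfold pv
    rw [sqq_lt hx, sqq_lt hy]
    rfl
  have z := hf.2 _ hy
  rw [e]
  by_cases hin : a ≤ x ∧ x ≤ b
  · have h1 := rv_in hb (x := ⟨x, hx⟩) hin.1 hin.2
    have h2 : (((⟨x, hx⟩ : Fin n) : Fin n) : ℕ) = x := rfl
    omega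
  · have h1 := rv_out hb (x := ⟨x, hx⟩) hin
    have h2 : ((rv a b hb ⟨x, hx⟩ : Fin n) : ℕ) = x := by rw [h1]
    rw [h2] at z ⊢
    exact z

/-- the integer sequences of a tuple of functions -/
def FF (q : ℕ) {m n : ℕ} (P : Fin m → Fin n → Fin n) (k t : ℕ) : ℤ :=
  if h : k < m then sqq q (P ⟨k, h⟩) t else 0

theorem FF_lt {q m n : ℕ} {P : Fin m → Fin n → Fin n} {k t : ℕ} (h : k < m) (ht : t < n) :
    FF q P k t = lab q (P ⟨k, h⟩ ⟨t, ht⟩) := by
  unfold FF
  rw [dif_pos h, sqq_lt ht]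

theorem FF_fun {q m n : ℕ} {P : Fin m → Fin n → Fin n} {k : ℕ} (h : k < m) :
    FF q P k = sqq q (P ⟨k, h⟩) := by
  funext t
  unfold FF
  rw [dif_pos h]

theorem RF_step {n m o q : ℕ} {P : Fin m → Fin n → Fin n} {k : ℕ} {x y : ℤ}
    (h : RF n m o (FF q P) k x y) : ∃ j : Jx m n (fun k => dl o k), (j.1.1 : ℕ) = k ∧
      ∃ u v : Fin n, edg P j = s(u, v) ∧ lab q u = x ∧ lab q v = y := by
  obtain ⟨hk, t, h1, h2, h3⟩ := h
  refine ⟨⟨(⟨k, hk⟩, ⟨t, by omega⟩), h1, h2⟩, rfl, ?_⟩
  rw [FF_lt hk (by omega), FF_lt hk h2] at h3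
  rcases h3 with ⟨h3, h4⟩ | ⟨h3, h4⟩
  · exact ⟨_, _, rfl, h3, h4⟩
  · exact ⟨_, _, Sym2.eq_swap, h4, h3⟩

theorem step_RF {n m o q : ℕ} {P : Fin m → Fin n → Fin n} (j : Jx m n (fun k => dl o k))
    {u v : Fin n} (h : edg P j = s(u, v)) : RF n m o (FF q P) (j.1.1 : ℕ) (lab q u) (lab q v) := by
  refine ⟨j.1.1.2, (j.1.2 : ℕ), j.2.1, j.2.2, ?_⟩
  rw [FF_lt j.1.1.2 j.1.2.2, FF_lt j.1.1.2 j.2.2]
  unfold edg at h
  rw [Sym2.eq_iff] at h
  rcases h with ⟨h1, h2⟩ | ⟨h1, h2⟩
  · left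
    exact ⟨congrArg _ h1, congrArg _ h2⟩
  · right
    exact ⟨congrArg _ h1, congrArg _ h2⟩

theorem edg_nd {m n : ℕ} {d : Fin m → ℕ} {P : Fin m → Fin n → Fin n}
    (hP : ∀ k, Function.Injective (P k)) (j : Jx m n d) : ¬ (edg P j).IsDiag := by
  intro hj
  unfold edg at hj
  rw [Sym2.mk_isDiag_iff] at hj
  have := hP _ hj
  have := congrArg Fin.val this
  simp at this

theorem edg_surj {m n : ℕ} {d : Fin m → ℕ} {P : Fin m → Fin n → Fin n}
    (hP : ∀ k, Function.Injective (P k)) (hi : Function.Injective (edg (d := d) P))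
    (hcard : Fintype.card (Jx m n d) = n.choose 2) (e : Sym2 (Fin n)) (he : ¬ e.IsDiag) :
    ∃ j : Jx m n d, edg P j = e := by
  let F : Jx m n d → {e : Sym2 (Fin n) // ¬ e.IsDiag} := fun j => ⟨edg P j, edg_nd hP j⟩
  have hF : Function.Injective F := fun a b hab => hi (congrArg Subtype.val hab)
  have hFb : Function.Bijective F := by
    rw [Fintype.bijective_iff_injective_and_card]
    refine ⟨hF, ?_⟩
    rw [hcard, Sym2.card_subtype_not_diag, Fintype.card_fin]
  obtain ⟨j, hj⟩ := hFb.2 ⟨e, he⟩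
  exact ⟨j, congrArg Subtype.val hj⟩

theorem adm_of {m o p q n : ℕ} (hn : n = p + q) {P : Fin m → Fin n → Fin n}
    (hP : ∀ k : Fin m, Famm n o q k (P k))
    (hi : Function.Injective (edg (d := fun k : Fin m => dl o k) P))
    (hcard : Fintype.card (Jx m n (fun k => dl o k)) = n.choose 2) :
    Adm n m o p q (FF q P) where
  inj k hk x y hx hy hxy := by
    rw [FF_lt hk hx, FF_lt hk hy] at hxy
    have := (hP ⟨k, hk⟩).1 (lab_inj hxy)
    exact congrArg Fin.val this
  zn k hk := by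
    rw [FF_fun hk]
    exact (hP ⟨k, hk⟩).2
  ex x y h1 h2 h3 h4 h5 := by
    have hu : (x + q - 1).toNat < n := by omega
    have hv : (y + q - 1).toNat < n := by omega
    have lu : lab q (⟨_, hu⟩ : Fin n) = x := by
      unfold lab
      show (((x + q - 1).toNat : ℕ) : ℤ) + 1 - q = x
      omega
    have lv : lab q (⟨_, hv⟩ : Fin n) = y := by
      unfold lab
      show (((y + q - 1).toNat : ℕ) : ℤ) + 1 - q = y
      omega
    have hnd : ¬ (s((⟨_, hu⟩ : Fin n), (⟨_, hv⟩ : Fin n))).IsDiag := by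
      rw [Sym2.mk_isDiag_iff]
      intro h
      rw [h, lv] at lu
      exact h5 lu.symm
    obtain ⟨j, hj⟩ := edg_surj (fun k => (hP k).1) hi hcard _ hnd
    refine ⟨j.1.1, ?_⟩
    have := step_RF (q := q) j hj
    rwa [lu, lv] at this
  uniq k k' x y h1 h2 := by
    obtain ⟨j, hj, u, v, e, e1, e2⟩ := RF_step h1
    obtain ⟨j', hj', u', v', e', e1', e2'⟩ := RF_step h2
    have hu : u = u' := lab_inj (e1.trans e1'.symm)
    have hv : v = v' := lab_inj (e2.trans e2'.symm)
    subst hu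
    subst hv
    have : j = j' := hi (e.trans e'.symm)
    rw [← hj, ← hj', this]

theorem exP0 {m o p q n : ℕ} (hn : n = p + q) (hPar : Par m o 0 p q) :
    ∃ P : Fin m → Fin n → Fin n, (∀ k : Fin m, Famm n o q k (P k)) ∧
      Function.Injective (edg (d := fun k : Fin m => dl o k) P) := by
  subst hn
  obtain ⟨F, h1, h2, h3, h4⟩ := exFam hPar
  let P : Fin m → Fin (p + q) → Fin (p + q) := fun k t =>
    ⟨(F k t + q - 1).toNat, by have := h3 k t k.2 t.2; omega⟩
  have hlab : ∀ (k : Fin m) (t : Fin (p + q)), lab q (P k t) = F k t := by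
    intro k t
    have := h3 k t k.2 t.2
    unfold lab
    show (((F k t + q - 1).toNat : ℕ) : ℤ) + 1 - q = F k t
    omega
  have hinj : ∀ k, Function.Injective (P k) := by
    intro k a b hab
    apply Fin.ext
    apply h1 k k.2 _ _ a.2 b.2
    rw [← hlab, ← hlab, hab]
  refine ⟨P, fun k => ⟨hinj k, ?_⟩, ?_⟩
  · intro x hx
    have e : pv k (sqq q (P k)) x = pv k (F k) x := by
      unfold pv
      rw [sqq_lt hx, hlab]
    rw [e]
    exact h2 k k.2 x hx
  · have hQ : ∀ (j : Jx m (p + q) (fun k => dl o k)) (u v : Fin (p + q)), edg P j = s(u, v) →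
        lab q u < lab q v → Q m o (j.1.1 : ℕ) (lab q u) (lab q v) := by
      intro j u v hj huv
      have h5 := h4 j.1.1 j.1.2 j.1.1.2 j.2.1 j.2.2
      unfold edg at hj
      rw [Sym2.eq_iff] at hj
      have e1 := hlab j.1.1 j.1.2
      have e2 := hlab j.1.1 ⟨(j.1.2 : ℕ) + 1, j.2.2⟩
      rcases hj with ⟨h6, h7⟩ | ⟨h6, h7⟩
      · rw [h6] at e1
        rw [h7] at e2
        rw [e1, e2] at huv ⊢
        exact h5.1 huv
      · rw [h6] at e1
        rw [h7] at e2
        rw [e1, e2] at huv ⊢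
        exact h5.2 huv
    intro j j' hjj
    have hnd := edg_nd hinj j
    -- same family
    have hk : j.1.1 = j'.1.1 := by
      obtain ⟨u, v, huv⟩ : ∃ u v, edg P j = s(u, v) := ⟨_, _, rfl⟩
      have hne : u ≠ v := by
        intro h
        apply hnd
        rw [huv, Sym2.mk_isDiag_iff]
        exact h
      have hl : lab q u ≠ lab q v := fun h => hne (lab_inj h)
      apply Fin.ext
      rcases lt_or_gt_of_ne hl with h | h
      · exact Q_unique j.1.1.2 j'.1.1.2 (hQ j u v huv h) (hQ j' u v (by rw [← hjj, huv]) h)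
      · exact Q_unique j.1.1.2 j'.1.1.2 (hQ j v u (by rw [huv, Sym2.eq_swap]) h)
          (hQ j' v u (by rw [← hjj, huv, Sym2.eq_swap]) h)
    apply Subtype.ext
    apply Prod.ext hk
    apply Fin.ext
    have h6 : edg P j = edg P j' := hjj
    unfold edg at h6
    rw [Sym2.eq_iff, hk] at h6
    rcases h6 with ⟨h7, h8⟩ | ⟨h7, h8⟩
    · exact congrArg Fin.val (hinj _ h7)
    · have e1 := congrArg Fin.val (hinj _ h7)
      have e2 := congrArg Fin.val (hinj _ h8)
      simp at e1 e2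
      omega

theorem sum_steps (m n o : ℕ) (hm : (o = 0 ∧ n = 2 * m) ∨ (o = 1 ∧ n + 1 = 2 * m)) :
    ∑ k ∈ Finset.range m, (n - 1 - dl o k) = n.choose 2 := by
  rcases hm with ⟨ho, hn⟩ | ⟨ho, hn⟩
  · have : ∀ k ∈ Finset.range m, n - 1 - dl o k = n - 1 := by
      intro k _
      have := dl_spec o k
      omega
    rw [Finset.sum_congr rfl this, Finset.sum_const, Finset.card_range, Nat.choose_two_right, hn]
    simp only [smul_eq_mul]
    rw [show 2 * m * (2 * m - 1) = 2 * (m * (2 * m - 1)) by ring, Nat.mul_div_cancel_left _ (by norm_num)]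
  · obtain ⟨m', rfl⟩ : ∃ m', m = m' + 1 := ⟨m - 1, by omega⟩
    rw [Finset.sum_range_succ']
    have : ∀ k ∈ Finset.range m', n - 1 - dl o (k + 1) = 2 * m' - 1 := by
      intro k _
      have := dl_spec o (k + 1)
      omega
    rw [Finset.sum_congr rfl this, Finset.sum_const, Finset.card_range, Nat.choose_two_right]
    have h0 := dl_spec o 0
    have h1 : n - 1 - dl o 0 = 2 * m' := by omega
    have h2 : n = 2 * m' + 1 := by omega
    rw [h1, h2]
    simp only [smul_eq_mul, Nat.add_sub_cancel]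
    rw [show (2 * m' + 1) * (2 * m') = 2 * ((2 * m' + 1) * m') by ring,
      Nat.mul_div_cancel_left _ (by norm_num)]
    rcases Nat.eq_zero_or_pos m' with h | h
    · subst h
      rfl
    · obtain ⟨r, hr⟩ : ∃ r, 2 * m' = r + 1 := ⟨2 * m' - 1, by omega⟩
      rw [hr]
      simp only [Nat.add_sub_cancel]
      nlinarith

theorem card_steps (m n o : ℕ) (hm : (o = 0 ∧ n = 2 * m) ∨ (o = 1 ∧ n + 1 = 2 * m)) :
    Fintype.card (Jx m n (fun k => dl o k)) = n.choose 2 := by
  rw [← sum_steps m n o hm, Fintype.card_subtype, Finset.card_filter, ← Finset.univ_product_univ,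
    Finset.sum_product, ← Fin.sum_univ_eq_sum_range (fun k => n - 1 - dl o k) m]
  apply Finset.sum_congr rfl
  intro k _
  have h1 : (∑ x : Fin n, if dl o (k : ℕ) ≤ (x : ℕ) ∧ (x : ℕ) + 1 < n then 1 else 0) =
      ∑ x ∈ Finset.range n, if dl o (k : ℕ) ≤ x ∧ x + 1 < n then 1 else 0 :=
    Fin.sum_univ_eq_sum_range (fun x => if dl o (k : ℕ) ≤ x ∧ x + 1 < n then 1 else 0) n
  rw [h1, ← Finset.card_filter]
  have h2 : Finset.filter (fun x => dl o (k : ℕ) ≤ x ∧ x + 1 < n) (Finset.range n) =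
      Finset.Ico (dl o (k : ℕ)) (n - 1) := by
    ext x
    simp only [Finset.mem_filter, Finset.mem_range, Finset.mem_Ico]
    omega
  rw [h2, Nat.card_Ico]

theorem walk_of_seq {n : ℕ} (g : ℕ → Fin n) : ∀ (l a : ℕ),
    (∀ x y, a ≤ x → x ≤ a + l → a ≤ y → y ≤ a + l → g x = g y → x = y) →
    ∃ (v : Fin n) (w : (⊤ : SimpleGraph (Fin n)).Walk (g a) v), w.IsPath ∧
      (∀ u ∈ w.support, ∃ x, a ≤ x ∧ x ≤ a + l ∧ u = g x) ∧
      (∀ e, e ∈ w.edges ↔ ∃ x, a ≤ x ∧ x < a + l ∧ e = s(g x, g (x + 1))) := by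
  intro l
  induction l with
  | zero =>
    intro a _
    refine ⟨g a, SimpleGraph.Walk.nil, SimpleGraph.Walk.IsPath.nil, ?_, ?_⟩
    · intro u hu
      rw [SimpleGraph.Walk.support_nil, List.mem_singleton] at hu
      exact ⟨a, le_rfl, by omega, hu⟩
    · intro e
      rw [SimpleGraph.Walk.edges_nil]
      constructor
      · intro h
        exact absurd h List.not_mem_nil
      · rintro ⟨x, h1, h2, _⟩
        omega
  | succ l ih =>
    intro a hinj
    obtain ⟨v, w, hw, hs, he⟩ := ih (a + 1)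
      (fun x y h1 h2 h3 h4 h5 => hinj x y (by omega) (by omega) (by omega) (by omega) h5)
    have hne : g a ≠ g (a + 1) := by
      intro h
      have := hinj a (a + 1) (by omega) (by omega) (by omega) (by omega) h
      omega
    have hadj : (⊤ : SimpleGraph (Fin n)).Adj (g a) (g (a + 1)) := by
      rw [SimpleGraph.top_adj]
      exact hne
    refine ⟨v, SimpleGraph.Walk.cons hadj w, ?_, ?_, ?_⟩
    · rw [SimpleGraph.Walk.cons_isPath_iff]
      refine ⟨hw, fun hm => ?_⟩
      obtain ⟨x, h1, h2, h3⟩ := hs _ hm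
      have := hinj a x (by omega) (by omega) (by omega) (by omega) h3
      omega
    · intro u hu
      rw [SimpleGraph.Walk.support_cons, List.mem_cons] at hu
      rcases hu with rfl | hu
      · exact ⟨a, le_rfl, by omega, rfl⟩
      · obtain ⟨x, h1, h2, h3⟩ := hs _ hu
        exact ⟨x, by omega, by omega, h3⟩
    · intro e
      rw [SimpleGraph.Walk.edges_cons, List.mem_cons, he]
      constructor
      · rintro (h | ⟨x, h1, h2, h3⟩)
        · exact ⟨a, le_rfl, by omega, h⟩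
        · exact ⟨x, by omega, by omega, h3⟩
      · rintro ⟨x, h1, h2, h3⟩
        by_cases hx : x = a
        · subst hx
          exact Or.inl h3
        · exact Or.inr ⟨x, by omega, by omega, h3⟩

theorem interval_of {Pr : ℕ → Prop} (N : ℕ) (hN : ∀ t, N ≤ t → ¬ Pr t)
    (hi : ∀ x y z, x < y → y < z → Pr x → Pr z → Pr y) :
    ∃ a l, (∀ x, Pr x ↔ a ≤ x ∧ x < a + l) := by
  by_cases h : ∃ x, Pr x
  · obtain ⟨x, hx⟩ := h
    obtain ⟨a, b, h1, h2, h3, h4, h5⟩ := run_exists Pr x N hx hN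
    refine ⟨a, b - a, fun y => ⟨fun hy => ?_, fun hy => h3 y hy.1 (by omega)⟩⟩
    constructor
    · by_contra hc
      have h6 : a - 1 + 1 = a := by omega
      have h7 := h5 (a - 1) h6
      by_cases h8 : y = a - 1
      · exact h7 (h8 ▸ hy)
      · exact h7 (hi y (a - 1) a (by omega) (by omega) hy (h3 a le_rfl (by omega)))
    · by_contra hc
      by_cases h8 : y = b
      · exact h4 (h8 ▸ hy)
      · exact h4 (hi x b y (by omega) (by omega) hx hy)
  · push Not at h
    exact ⟨0, 0, fun x => ⟨fun hx => absurd hx (h x), fun hx => absurd hx.2 (by omega)⟩⟩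

theorem edg_eq {m n : ℕ} {d : Fin m → ℕ} (P : Fin m → Fin n → Fin n) (j : Jx m n d) {k : Fin m}
    (h : j.1.1 = k) :
    edg P j = s(P k ⟨j.1.2, j.1.2.2⟩, P k ⟨(j.1.2 : ℕ) + 1, j.2.2⟩) := by
  subst h
  rfl

/-- one family contributes a path -/
theorem one_path {m n : ℕ} {d : Fin m → ℕ} (P : Fin m → Fin n → Fin n)
    (hP : ∀ k, Function.Injective (P k)) (s : Jx m n d → ZMod 2) (k : Fin m) (hn : 0 < n)
    (hint : ∀ x y z, x < y → y < z → onn s k x → onn s k z → onn s k y) :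
    ∃ (u v : Fin n) (w : (⊤ : SimpleGraph (Fin n)).Walk u v), w.IsPath ∧
      ∀ e : Sym2 (Fin n), (∑ j ∈ Finset.univ.filter (fun j : Jx m n d => j.1.1 = k),
        s j * (if edg P j = e then 1 else 0)) = if e ∈ w.edges then 1 else 0 := by
  have hbd : ∀ t, n ≤ t → ¬ onn s k t := by
    rintro t ht ⟨j, _, h2, _⟩
    have := j.1.2.2
    omega
  obtain ⟨a, l, hal⟩ := interval_of n hbd hint
  let g : ℕ → Fin n := fun t => if h : t < n then P k ⟨t, h⟩ else P k ⟨0, hn⟩
  have hg : ∀ t (h : t < n), g t = P k ⟨t, h⟩ := fun t h => dif_pos h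
  have hrange : 0 < l → a + l < n := by
    intro hl
    obtain ⟨j, h1, h2, h3⟩ := (hal (a + l - 1)).2 ⟨by omega, by omega⟩
    have := j.2.2
    omega
  have hinj : ∀ x y, a ≤ x → x ≤ a + l → a ≤ y → y ≤ a + l → g x = g y → x = y := by
    intro x y h1 h2 h3 h4 h5
    rcases Nat.eq_zero_or_pos l with h | h
    · omega
    · have := hrange h
      rw [hg x (by omega), hg y (by omega)] at h5
      exact congrArg Fin.val (hP k h5)
  obtain ⟨v, w, hw, _, he⟩ := walk_of_seq g l a hinj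
  refine ⟨g a, v, w, hw, fun e => ?_⟩
  by_cases hmem : e ∈ w.edges
  · rw [if_pos hmem]
    obtain ⟨x, h1, h2, h3⟩ := (he e).1 hmem
    obtain ⟨j, hj1, hj2, hj3⟩ := (hal x).2 ⟨h1, h2⟩
    have hln := hrange (by omega)
    have hej : edg P j = e := by
      rw [h3, hg x (by omega), hg (x + 1) (by omega)]
      unfold edg
      rw [hj1]
      congr 2
      · exact Fin.ext hj2
      · apply Fin.ext
        show (j.1.2 : ℕ) + 1 = x + 1
        omega
    rw [Finset.sum_eq_single j]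
    · rw [hj3, hej]
      simp
    · intro j' hj' hne
      rw [Finset.mem_filter] at hj'
      have : edg P j' ≠ e := by
        intro h
        rw [← hej] at h
        unfold edg at h
        rw [Sym2.eq_iff, hj1, hj'.2] at h
        apply hne
        apply Subtype.ext
        apply Prod.ext (hj'.2.trans hj1.symm)
        apply Fin.ext
        rcases h with ⟨h4, h5⟩ | ⟨h4, h5⟩
        · exact congrArg Fin.val (hP _ h4)
        · have e1 := congrArg Fin.val (hP _ h4)
          have e2 := congrArg Fin.val (hP _ h5)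
          simp at e1 e2
          omega
      rw [if_neg this, mul_zero]
    · intro h
      refine absurd ?_ h
      rw [Finset.mem_filter]
      exact ⟨Finset.mem_univ _, hj1⟩
  · rw [if_neg hmem]
    apply Finset.sum_eq_zero
    intro j hj
    rw [Finset.mem_filter] at hj
    rcases z2 (s j) with h0 | h0
    · rw [h0, zero_mul]
    · have : edg P j ≠ e := by
        intro h
        apply hmem
        rw [he]
        have hx := (hal (j.1.2 : ℕ)).1 ⟨j, hj.2, rfl, h0⟩
        refine ⟨j.1.2, hx.1, hx.2, ?_⟩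
        rw [← h, hg _ j.1.2.2, hg _ j.2.2]
        exact edg_eq P j hj.2
      rw [if_neg this, mul_zero]

theorem oddCover (n : ℕ) (G : SimpleGraph (Fin n)) :
    ∃ (u v : Fin ((n + 1) / 2) → Fin n)
      (W : ∀ i : Fin ((n + 1) / 2), (⊤ : SimpleGraph (Fin n)).Walk (u i) (v i)),
      (∀ i, (W i).IsPath) ∧
      ∀ a b : Fin n, a ≠ b → (G.Adj a b ↔
        Odd ((Finset.univ.filter (fun i : Fin ((n + 1) / 2) => s(a, b) ∈ (W i).edges)).card)) := by
  obtain ⟨m, o, p, q, hm, hn, hPar, hc⟩ : ∃ m o p q : ℕ, m = (n + 1) / 2 ∧ n = p + q ∧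
      Par m o 0 p q ∧ ((o = 0 ∧ n = 2 * m) ∨ (o = 1 ∧ n + 1 = 2 * m)) := by
    rcases Nat.mod_two_eq_zero_or_one n with h | h
    · refine ⟨n / 2, 0, n / 2, n / 2, by omega, by omega, ?_, by omega⟩
      unfold Par
      omega
    · refine ⟨(n + 1) / 2, 1, 2 * ((n + 1) / 2 / 2), n - 2 * ((n + 1) / 2 / 2), rfl, by omega, ?_,
        by omega⟩
      unfold Par
      omega
  rw [← hm]
  have hcard := card_steps m n o hc
  obtain ⟨P0, hP0, hP0i⟩ := exP0 hn hPar
  have hA0 := adm_of hn hP0 hP0i hcard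
  have hlabr : ∀ v : Fin n, 1 - (q : ℤ) ≤ lab q v ∧ lab q v ≤ p := by
    intro v
    have := v.2
    unfold lab
    omega
  obtain ⟨P, s, hF, hS, hI⟩ := parity_main (d := fun k : Fin m => dl o k)
    (fun k f => Famm n o q k f)
    (fun k f a b hb h1 _ h3 hf => Famm_rev a b hb h1 h3 hf)
    (fun k f hf => hf.1) P0 hP0 hP0i
    (by
      intro P hP hPi
      have hA := adm_of hn hP hPi hcard
      funext k t
      apply lab_inj (q := q)
      have := Adm.unique hPar hA hA0 (by omega) (by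
        intro k x hk hx
        rw [FF_lt hk hx]
        exact hlabr _) k.2 t.2
      rw [FF_lt k.2 t.2, FF_lt k.2 t.2] at this
      exact this)
    hcard {e | e ∈ G.edgeSet}
  have hpath : ∀ k : Fin m, ∃ (u v : Fin n) (w : (⊤ : SimpleGraph (Fin n)).Walk u v), w.IsPath ∧
      ∀ e : Sym2 (Fin n), (∑ j ∈ Finset.univ.filter
        (fun j : Jx m n (fun k => dl o k) => j.1.1 = k),
        s j * (if edg P j = e then 1 else 0)) = if e ∈ w.edges then 1 else 0 := by
    intro k
    have := k.2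
    exact one_path P (fun k => (hF k).1) s k (by omega) (hI k)
  choose u v w hw he using hpath
  refine ⟨u, v, w, hw, fun a b hab => ?_⟩
  have hnd : ¬ (s(a, b)).IsDiag := by
    rw [Sym2.mk_isDiag_iff]
    exact hab
  have h1 := hS _ hnd
  unfold cnt at h1
  have h2 : (∑ j, s j * (if edg P j = s(a, b) then (1 : ZMod 2) else 0)) =
      ∑ k : Fin m, if s(a, b) ∈ (w k).edges then (1 : ZMod 2) else 0 := by
    rw [← Finset.sum_fiberwise Finset.univ (fun j : Jx m n (fun k => dl o k) => j.1.1)]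
    apply Finset.sum_congr rfl
    intro k _
    exact he k _
  rw [h2, ← Finset.natCast_card_filter] at h1
  rw [← ZMod.natCast_eq_one_iff_odd]
  have h3 : G.Adj a b ↔ s(a, b) ∈ {e | e ∈ G.edgeSet} := Iff.rfl
  rw [h3]
  constructor
  · intro h
    rw [if_pos h] at h1
    convert h1
  · intro h
    by_contra hc
    rw [if_neg hc] at h1
    have : ((Finset.univ.filter (fun i : Fin m => s(a, b) ∈ (w i).edges)).card : ZMod 2) = 0 := by
      convert h1
    rw [this] at h
    exact zero_ne_one h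

end Run7.h14
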