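import Pool.Agent.Run7.h14.OcList

/-!
From families of integer sequences to systems of classes, and uniqueness of the sequences.
-/

namespace Run7.h14

/-- consecutive entries of the sequence `F` (positions `d,…,n-1`) -/
def sr (n d : ℕ) (F : ℕ → ℤ) (x y : ℤ) : Prop :=
  ∃ t, d ≤ t ∧ t + 1 < n ∧ ((F t = x ∧ F (t + 1) = y) ∨ (F t = y ∧ F (t + 1) = x))

/-- zone conditions of the family `k` in pivot coordinates -/
def zones (n o k : ℕ) (h : ℕ → ℤ) : Prop :=
  ∀ x, x < n → (x < dl o k → h x = k) ∧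
        (dl o k ≤ x → x < k → 1 ≤ h x ∧ h x ≤ k - dl o k) ∧
        (x = k → h x = k + 1) ∧ (k < x → h x ≤ 0 ∨ (k : ℤ) + 1 < h x)

/-- injectivity below `n` -/
def injn (n : ℕ) (h : ℕ → ℤ) : Prop := ∀ x y, x < n → y < n → h x = h y → x = y

theorem sr_symm {n d : ℕ} {F : ℕ → ℤ} {x y : ℤ} (h : sr n d F x y) : sr n d F y x := by
  obtain ⟨t, h1, h2, h3⟩ := h
  exact ⟨t, h1, h2, h3.symm⟩

theorem sr_nb {n d : ℕ} {F : ℕ → ℤ} {x a : ℤ} (h : sr n d F x a) :
    ∃ u, u < n ∧ d ≤ u ∧ F u = x ∧ ((u + 1 < n ∧ a = F (u + 1)) ∨ (d + 1 ≤ u ∧ a = F (u - 1))) := by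
  obtain ⟨t, h1, h2, ⟨h3, h4⟩ | ⟨h3, h4⟩⟩ := h
  · exact ⟨t, by omega, h1, h3, Or.inl ⟨h2, h4.symm⟩⟩
  · exact ⟨t + 1, h2, by omega, h4, Or.inr ⟨by omega, by simpa using h3.symm⟩⟩

theorem sr_deg {n d : ℕ} {F : ℕ → ℤ} (hi : injn n F) {x a b c : ℤ} (ha : sr n d F x a)
    (hb : sr n d F x b) (hc : sr n d F x c) : a = b ∨ a = c ∨ b = c := by
  obtain ⟨u, hu, _, hux, hua⟩ := sr_nb ha
  obtain ⟨v, hv, _, hvx, hvb⟩ := sr_nb hb
  obtain ⟨w, hw, _, hwx, hwc⟩ := sr_nb hc
  have e1 : v = u := hi _ _ hv hu (by rw [hux, hvx])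
  have e2 : w = u := hi _ _ hw hu (by rw [hux, hwx])
  subst e1
  subst e2
  rcases hua with ⟨_, h1⟩ | ⟨_, h1⟩ <;> rcases hvb with ⟨_, h2⟩ | ⟨_, h2⟩ <;>
    rcases hwc with ⟨_, h3⟩ | ⟨_, h3⟩ <;> rw [h1, h2, h3] <;> simp

theorem loc_of_seq {n o k : ℕ} {h : ℕ → ℤ} (hz : zones n o k h) :
    Loc o k (sr n (dl o k) h) where
  zA x y hr h1 h2 := by
    obtain ⟨u, hu, hd, hux, hua⟩ := sr_nb hr
    have z1 := hz u hu
    have hdl := dl_spec o k
    rcases hua with ⟨h3, h4⟩ | ⟨h3, h4⟩
    · have z2 := hz (u + 1) h3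
      rw [← h4] at z2
      rw [hux] at z1
      omega
    · have z2 := hz (u - 1) (by omega)
      rw [← h4] at z2
      rw [hux] at z1
      omega
  zO ho hk y hr := by
    obtain ⟨u, hu, hd, hux, hua⟩ := sr_nb hr
    have z1 := hz u hu
    have hdl := dl_spec o k
    rw [hux] at z1
    omega
  pA a b ha hb h1 h2 h3 h4 := by
    obtain ⟨u, hu, hd, hux, hua⟩ := sr_nb ha
    obtain ⟨v, hv, hd', hvx, hvb⟩ := sr_nb hb
    have z1 := hz u hu
    have z2 := hz v hv
    have hdl := dl_spec o k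
    rw [hux] at z1
    rw [hvx] at z2
    have e1 : u = k := by omega
    have e2 : v = k := by omega
    subst e1
    subst e2
    rcases hua with ⟨h5, h6⟩ | ⟨h5, h6⟩
    · have z3 := hz _ h5
      rw [← h6] at z3
      omega
    · rcases hvb with ⟨h7, h8⟩ | ⟨h7, h8⟩
      · have z3 := hz _ h7
        rw [← h8] at z3
        omega
      · rw [h6, h8]
  pC a b ha hb h1 h2 := by
    obtain ⟨u, hu, hd, hux, hua⟩ := sr_nb ha
    obtain ⟨v, hv, hd', hvx, hvb⟩ := sr_nb hb
    have z1 := hz u hu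
    have z2 := hz v hv
    have hdl := dl_spec o k
    rw [hux] at z1
    rw [hvx] at z2
    have e1 : u = k := by omega
    have e2 : v = k := by omega
    subst e1
    subst e2
    rcases hua with ⟨h5, h6⟩ | ⟨h5, h6⟩
    · rcases hvb with ⟨h7, h8⟩ | ⟨h7, h8⟩
      · rw [h6, h8]
      · have z3 := hz (v - 1) (by omega)
        rw [← h8] at z3
        omega
    · have z3 := hz (v - 1) (by omega)
      rw [← h6] at z3
      omega

/-- the relation of a family of sequences -/
def RF (n m o : ℕ) (F : ℕ → ℕ → ℤ) (k : ℕ) (x y : ℤ) : Prop :=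
  k < m ∧ sr n (dl o k) (F k) x y

/-- pivot coordinates -/
def pv (k : ℕ) (h : ℕ → ℤ) : ℕ → ℤ := fun t => if k % 2 = 1 then h t else 1 - h t

/-- admissible families of sequences using every pair exactly once -/
structure Adm (n m o p q : ℕ) (F : ℕ → ℕ → ℤ) : Prop where
  inj : ∀ k, k < m → injn n (F k)
  zn : ∀ k, k < m → zones n o k (pv k (F k))
  ex : ∀ x y : ℤ, 1 - (q : ℤ) ≤ x → x ≤ p → 1 - (q : ℤ) ≤ y → y ≤ p → x ≠ y →
    ∃ k, RF n m o F k x y
  uniq : ∀ k k' x y, RF n m o F k x y → RF n m o F k' x y → k = k'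

theorem Loc.vac {o k : ℕ} {r : ℤ → ℤ → Prop} (h : ∀ x y, ¬ r x y) : Loc o k r where
  zA _ _ hr := absurd hr (h _ _)
  zO _ _ _ := h _ _
  pA _ _ hr := absurd hr (h _ _)
  pC _ _ hr := absurd hr (h _ _)

theorem Adm.sys {n m o p q : ℕ} {F : ℕ → ℕ → ℤ} (h : Adm n m o p q F) :
    Sys m o 0 p q (RF n m o F) where
  lt k x y hR := hR.1
  symm k x y hR := ⟨hR.1, sr_symm hR.2⟩
  ne k x y hR := by
    rintro rfl
    obtain ⟨hk, t, h1, h2, h3⟩ := hR
    have : t = t + 1 := h.inj k hk t (t + 1) (by omega) h2 (by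
      rcases h3 with ⟨h4, h5⟩ | ⟨h4, h5⟩
      · rw [h4, h5]
      · rw [h4, h5])
    omega
  ex := h.ex
  uniq := h.uniq
  deg k x a b c h1 h2 h3 := sr_deg (h.inj k h1.1) h1.2 h2.2 h3.2
  own k hk := by
    by_cases hkm : k < m
    · have hz := h.zn k hkm
      have e : pv k (F k) = F k := by
        funext t
        unfold pv
        rw [if_pos (by omega)]
      rw [e] at hz
      have e2 : RF n m o F k = sr n (dl o k) (F k) := by
        funext x y
        unfold RF
        simp [hkm]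
      rw [e2]
      exact loc_of_seq hz
    · exact Loc.vac (fun x y hR => hkm hR.1)
  opp k hk := by
    by_cases hkm : k < m
    · have hz := h.zn k hkm
      have e : pv k (F k) = fun t => 1 - F k t := by
        funext t
        unfold pv
        rw [if_neg (by omega)]
      rw [e] at hz
      have e2 : (fun x y => RF n m o F k (1 - x) (1 - y)) = sr n (dl o k) (fun t => 1 - F k t) := by
        funext x y
        unfold RF sr
        simp only [hkm, true_and, eq_iff_iff]
        constructor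
        · rintro ⟨t, h1, h2, h3⟩
          exact ⟨t, h1, h2, by omega⟩
        · rintro ⟨t, h1, h2, h3⟩
          exact ⟨t, h1, h2, by omega⟩
      rw [e2]
      exact loc_of_seq hz
    · exact Loc.vac (fun x y hR => hkm hR.1)

theorem Adm.toQ {n m o p q : ℕ} {F : ℕ → ℕ → ℤ} (hP : Par m o 0 p q) (h : Adm n m o p q F)
    {k : ℕ} {x y : ℤ} (h1 : 1 - (q : ℤ) ≤ x) (h2 : x < y) (h3 : y ≤ p)
    (hR : RF n m o F k x y) : Q m o k x y :=
  sys_Q hP h.sys h1 h2 h3 hR

/-- sequences are determined by their steps and zones -/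
theorem seq_unique {n o k : ℕ} {f g : ℕ → ℤ} (hk : k < n) (hf : injn n f) (hg : injn n g)
    (zf : zones n o k f) (zg : zones n o k g)
    (H : ∀ t, dl o k ≤ t → t + 1 < n → sr n (dl o k) g (f t) (f (t + 1))) :
    ∀ x, x < n → f x = g x := by
  have hdl := dl_spec o k
  have hbase : f k = g k := by
    have h1 := zf k hk
    have h2 := zg k hk
    omega
  have up : ∀ t, k + t < n → f (k + t) = g (k + t) ∧ (1 ≤ t → f (k + t - 1) = g (k + t - 1)) := by
    intro t
    induction t with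
    | zero => intro _; exact ⟨hbase, fun h => absurd h (by omega)⟩
    | succ t ih =>
      intro ht
      obtain ⟨i1, i2⟩ := ih (by omega)
      refine ⟨?_, fun _ => by simpa using i1⟩
      obtain ⟨y, hy1, hy2, ⟨hy3, hy4⟩ | ⟨hy3, hy4⟩⟩ := H (k + t) (by omega) (by omega)
      · rw [i1] at hy3
        have : y = k + t := hg _ _ (by omega) (by omega) hy3
        subst this
        exact hy4.symm
      · rw [i1] at hy4
        have e : y + 1 = k + t := hg _ _ (by omega) (by omega) hy4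
        exfalso
        rcases Nat.eq_zero_or_pos t with h0 | h0
        · subst h0
          have z1 := zf (k + 0 + 1) (by omega)
          have z2 := zg y (by omega)
          rw [hy3] at z2
          omega
        · have e2 : y = k + t - 1 := by omega
          have i3 := i2 h0
          rw [← e2] at i3
          rw [← i3] at hy3
          have := hf _ _ (by omega) (by omega) hy3
          omega
  have dn : ∀ t, t + dl o k ≤ k → f (k - t) = g (k - t) ∧
      (1 ≤ t → f (k - t + 1) = g (k - t + 1)) := by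
    intro t
    induction t with
    | zero => intro _; exact ⟨hbase, fun h => absurd h (by omega)⟩
    | succ t ih =>
      intro ht
      obtain ⟨i1, i2⟩ := ih (by omega)
      have e0 : k - (t + 1) + 1 = k - t := by omega
      refine ⟨?_, fun _ => by rw [e0]; exact i1⟩
      obtain ⟨y, hy1, hy2, ⟨hy3, hy4⟩ | ⟨hy3, hy4⟩⟩ := H (k - (t + 1)) (by omega) (by omega)
      · rw [e0, i1] at hy4
        have : y + 1 = k - t := hg _ _ (by omega) (by omega) hy4
        have e3 : y = k - (t + 1) := by omega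
        rw [e3] at hy3
        exact hy3.symm
      · rw [e0, i1] at hy3
        have e : y = k - t := hg _ _ (by omega) (by omega) hy3
        exfalso
        rcases Nat.eq_zero_or_pos t with h0 | h0
        · subst h0
          have z1 := zf (k - (0 + 1)) (by omega)
          have z2 := zg (y + 1) (by omega)
          rw [hy4] at z2
          omega
        · have i3 := i2 h0
          rw [e, ← i3] at hy4
          have := hf _ _ (by omega) (by omega) hy4
          omega
  intro x hx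
  by_cases h1 : k ≤ x
  · have := (up (x - k) (by omega)).1
    have e : k + (x - k) = x := by omega
    rwa [e] at this
  · by_cases h2 : dl o k ≤ x
    · have := (dn (k - x) (by omega)).1
      have e : k - (k - x) = x := by omega
      rwa [e] at this
    · have z1 := zf x hx
      have z2 := zg x hx
      omega

/-- two admissible families are equal -/
theorem Adm.unique {n m o p q : ℕ} {F F' : ℕ → ℕ → ℤ} (hP : Par m o 0 p q)
    (h : Adm n m o p q F) (h' : Adm n m o p q F') (hmn : m ≤ n)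
    (hrg : ∀ k x, k < m → x < n → 1 - (q : ℤ) ≤ F k x ∧ F k x ≤ p)
    {k x : ℕ} (hk : k < m) (hx : x < n) : F k x = F' k x := by
  have key : ∀ t, dl o k ≤ t → t + 1 < n → sr n (dl o k) (F' k) (F k t) (F k (t + 1)) := by
    intro t h1 h2
    have hR : RF n m o F k (F k t) (F k (t + 1)) := ⟨hk, t, h1, h2, Or.inl ⟨rfl, rfl⟩⟩
    have r1 := hrg k t hk (by omega)
    have r2 := hrg k (t + 1) hk h2
    have hne := h.sys.ne _ _ _ hR
    obtain ⟨k', hk'⟩ := h'.ex _ _ r1.1 r1.2 r2.1 r2.2 hne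
    have : k = k' := by
      rcases lt_or_gt_of_ne hne with hlt | hlt
      · exact Q_unique hk hk'.1 (h.toQ hP r1.1 hlt r2.2 hR) (h'.toQ hP r1.1 hlt r2.2 hk')
      · exact Q_unique hk hk'.1 (h.toQ hP r2.1 hlt r1.2 (h.sys.symm _ _ _ hR))
          (h'.toQ hP r2.1 hlt r1.2 (h'.sys.symm _ _ _ hk'))
    subst this
    exact hk'.2
  have hi : injn n (pv k (F k)) := by
    intro a b ha hb hab
    apply h.inj k hk a b ha hb
    unfold pv at hab
    split_ifs at hab
    · exact hab
    · omega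
  have hi' : injn n (pv k (F' k)) := by
    intro a b ha hb hab
    apply h'.inj k hk a b ha hb
    unfold pv at hab
    split_ifs at hab
    · exact hab
    · omega
  have := seq_unique (by omega) hi hi' (h.zn k hk) (h'.zn k hk) (by
    intro t h1 h2
    obtain ⟨y, h3, h4, h5⟩ := key t h1 h2
    refine ⟨y, h3, h4, ?_⟩
    unfold pv
    split_ifs
    · exact h5
    · omega) x hx
  unfold pv at this
  split_ifs at this
  · exact this
  · omega

theorem Cp_Q_odd {m o k : ℕ} {x y : ℤ} (hk : k % 2 = 1) (h : Cp m o k x y) (hxy : x < y) :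
    Q m o k x y := by
  rcases h with ⟨h1, h2, h3⟩ | ⟨h1, h2, h3⟩ | ⟨h1, h2⟩
  · rcases h3 with ⟨h4, h5⟩ | ⟨h4, h5⟩
    · exact Or.inr (Or.inl ⟨h1, hxy, k + 1, Or.inl ⟨hk, rfl⟩, h5⟩)
    · omega
  · rcases h3 with ⟨h4, h5⟩ | ⟨h4, h5⟩
    · omega
    · exact Or.inr (Or.inr ⟨hxy, h2, 2 * m - k, Or.inr ⟨hk, rfl⟩, h5⟩)
  · exact Or.inl ⟨by omega, by omega, Or.inl ⟨hk, h2⟩⟩

theorem Cp_Q_even {m o k : ℕ} {x y : ℤ} (hk : k % 2 = 0) (h : Cp m o k (1 - x) (1 - y))
    (hxy : x < y) : Q m o k x y := by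
  rcases h with ⟨h1, h2, h3⟩ | ⟨h1, h2, h3⟩ | ⟨h1, h2⟩
  · rcases h3 with ⟨h4, h5⟩ | ⟨h4, h5⟩
    · omega
    · exact Or.inr (Or.inr ⟨hxy, by omega, k + 1, Or.inl ⟨hk, rfl⟩, h5⟩)
  · rcases h3 with ⟨h4, h5⟩ | ⟨h4, h5⟩
    · simp only [sub_sub_cancel] at h5
      exact Or.inr (Or.inl ⟨by omega, hxy, 2 * m - k, Or.inr ⟨hk, rfl⟩, h5⟩)
    · omega
  · exact Or.inl ⟨by omega, by omega, Or.inr ⟨hk, by omega⟩⟩

/-- the explicit family of sequences -/
theorem exFam {m o p q : ℕ} (hP : Par m o 0 p q) : ∃ F : ℕ → ℕ → ℤ,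
    (∀ k, k < m → injn (p + q) (F k)) ∧ (∀ k, k < m → zones (p + q) o k (pv k (F k))) ∧
    (∀ k x, k < m → x < p + q → 1 - (q : ℤ) ≤ F k x ∧ F k x ≤ p) ∧
    (∀ k t, k < m → dl o k ≤ t → t + 1 < p + q →
      (F k t < F k (t + 1) → Q m o k (F k t) (F k (t + 1))) ∧
      (F k (t + 1) < F k t → Q m o k (F k (t + 1)) (F k t))) := by
  have hex : ∀ k, ∃ f : ℕ → ℤ, k < m → injn (p + q) f ∧ zones (p + q) o k (pv k f) ∧
      (∀ x, x < p + q → 1 - (q : ℤ) ≤ f x ∧ f x ≤ p) ∧
      (∀ t, dl o k ≤ t → t + 1 < p + q →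
        (f t < f (t + 1) → Q m o k (f t) (f (t + 1))) ∧
        (f (t + 1) < f t → Q m o k (f (t + 1)) (f t))) := by
    intro k
    by_cases hkm : k < m
    · have hP' := hP
      unfold Par at hP'
      rcases Nat.mod_two_eq_zero_or_one k with hk | hk
      · obtain ⟨h, h1, h2, h3, h4⟩ := exSeq (m := m) (o := o) (k := k) (M := q) (M' := p)
          (by omega) (by omega)
        refine ⟨fun t => 1 - h t, fun _ => ⟨?_, ?_, ?_, ?_⟩⟩
        · intro a b ha hb hab
          exact h2 a b (by omega) (by omega) (by simpa using hab)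
        · have e : pv k (fun t => 1 - h t) = h := by
            funext t
            unfold pv
            rw [if_neg (by omega)]
            ring
          rw [e]
          intro x hx
          exact h3 x (by omega)
        · intro x hx
          have := h1 x (by omega)
          show 1 - (q : ℤ) ≤ 1 - h x ∧ 1 - h x ≤ p
          omega
        · intro t ht ht2
          have hC := h4 t ht (by omega)
          refine ⟨fun hlt => ?_, fun hlt => ?_⟩
          · exact Cp_Q_even hk (by simpa using hC) hlt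
          · exact Cp_Q_even hk (by simpa using Cp_symm hC) hlt
      · obtain ⟨h, h1, h2, h3, h4⟩ := exSeq (m := m) (o := o) (k := k) (M := p) (M' := q)
          (by omega) (by omega)
        refine ⟨h, fun _ => ⟨h2, ?_, h1, ?_⟩⟩
        · have e : pv k h = h := by
            funext t
            unfold pv
            rw [if_pos hk]
          rw [e]
          exact h3
        · intro t ht ht2
          have hC := h4 t ht ht2
          exact ⟨fun hlt => Cp_Q_odd hk hC hlt, fun hlt => Cp_Q_odd hk (Cp_symm hC) hlt⟩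
    · exact ⟨fun _ => 0, fun h => absurd h hkm⟩
  choose F hF using hex
  exact ⟨F, fun k hk => (hF k hk).1, fun k hk => (hF k hk).2.1,
    fun k x hk hx => (hF k hk).2.2.1 x hx, fun k t hk h1 h2 => (hF k hk).2.2.2 t h1 h2⟩

end Run7.h14
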