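import Mathlib

/-!
Colourings of the edges of a complete graph on `{1,…,M}` that satisfy local degree and zone
conditions are unique.  Two variants (used for graphs of even and of odd order).
-/

namespace Run7.h14

/-- the rule giving the class `T` of the pair `i < j`, even order -/
def rule0 (T i j : ℤ) : Prop := T = i + j ∨ T = i + j - 1

/-- the rule giving the class `T` of the pair `i < j`, odd order -/
def rule1 (T i j : ℤ) : Prop :=
  (i % 2 = 0 ∧ (T = i + j ∨ T = i + j + 1)) ∨
  (i % 2 = 1 ∧ (T = i + j + 2 ∨ (j ≠ i + 1 ∧ T = i + j - 1) ∨ (j = i + 1 ∧ T = i + j + 1)))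

theorem side0 (M e : ℤ) (W : ℤ → ℤ → ℤ → Prop)
    (hs : ∀ T i j, W T i j → W T j i)
    (hex : ∀ i j, 1 ≤ i → i ≤ M → 1 ≤ j → j ≤ M → i ≠ j → ∃ T, W T i j)
    (hpar : ∀ T i j, W T i j → T % 2 = e)
    (hzp : ∀ T i j, W T i j → T ≤ M → i ≤ T)
    (hzs : ∀ T i j, W T i j → M < T → T - M ≤ i)
    (hdeg : ∀ T i a b c, W T i a → W T i b → W T i c → a = b ∨ a = c ∨ b = c)
    (hpp : ∀ T a b, T ≤ M → W T T a → W T T b → a = b)
    (hps : ∀ T a b, M < T → W T (T - M) a → W T (T - M) b → a = b) :
    ∀ (N : ℕ) (T i j : ℤ), (i - j + M).toNat = N → 1 ≤ i → i < j → j ≤ M → W T i j →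
      rule0 T i j := by
  intro N
  induction N using Nat.strong_induction_on with
  | _ N ih =>
    intro T i j hN hi hij hj hW
    have hT := hpar _ _ _ hW
    have key : ∀ i' j', 1 ≤ i' → i' < j' → j' ≤ M → i' - j' < i - j → rule0 T i' j' → W T i' j' := by
      intro i' j' h1 h2 h3 h4 h5
      obtain ⟨T', hT'⟩ := hex i' j' h1 (by omega) (by omega) h3 (by omega)
      have h6 := ih (i' - j' + M).toNat (by omega) T' i' j' rfl h1 h2 h3 hT'
      have h7 := hpar _ _ _ hT'
      have : T' = T := by
        unfold rule0 at h5 h6
        omega
      rwa [this] at hT'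
    by_contra hcon
    unfold rule0 at hcon
    rcases lt_or_ge (i + j) T with hlt | hge
    · by_cases h2 : T + 1 - i ≤ M
      · have a1 := key i (T - i) hi (by omega) (by omega) (by omega) (by unfold rule0; omega)
        have a2 := key i (T + 1 - i) hi (by omega) (by omega) (by omega) (by unfold rule0; omega)
        have := hdeg _ _ _ _ _ hW a1 a2
        omega
      · have h3 := hzs _ _ _ hW (by omega)
        have h4 : i = T - M := by omega
        have a1 := key i M hi (by omega) le_rfl (by omega) (by unfold rule0; omega)
        rw [h4] at hW a1
        have := hps T _ _ (by omega) hW a1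
        omega
    · by_cases h2 : 1 ≤ T - j
      · have a1 := key (T - j) j h2 (by omega) hj (by omega) (by unfold rule0; omega)
        have a2 := key (T + 1 - j) j (by omega) (by omega) hj (by omega) (by unfold rule0; omega)
        have := hdeg _ _ _ _ _ (hs _ _ _ hW) (hs _ _ _ a1) (hs _ _ _ a2)
        omega
      · have h3 := hzp _ _ _ (hs _ _ _ hW) (by omega)
        have h4 : j = T := by omega
        have a1 := key 1 j le_rfl (by omega) hj (by omega) (by unfold rule0; omega)
        rw [h4] at hW a1
        have := hpp T _ _ (by omega) (hs _ _ _ hW) (hs _ _ _ a1)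
        omega

theorem side1 (M : ℤ) (W : ℤ → ℤ → ℤ → Prop)
    (hs : ∀ T i j, W T i j → W T j i)
    (hex : ∀ i j, 1 ≤ i → i ≤ M → 1 ≤ j → j ≤ M → i ≠ j → ∃ T, W T i j)
    (hpar : ∀ T i j, W T i j → (T - M) % 2 = 0)
    (hzp : ∀ T i j, W T i j → T ≤ M → i ≤ T - 2 ∨ i = T)
    (hzs : ∀ T i j, W T i j → M < T → T - M - 1 ≤ i)
    (hdeg : ∀ T i a b c, W T i a → W T i b → W T i c → a = b ∨ a = c ∨ b = c)
    (hpp : ∀ T a b, T ≤ M → W T T a → W T T b → a = b)
    (hps : ∀ T a b, M < T → W T (T - M - 1) a → W T (T - M - 1) b → a = b) :
    ∀ (N : ℕ) (T i j : ℤ), (2 * (i - j) + 3 * ((j + M + 1) % 2) + 2 * M).toNat = N →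
      1 ≤ i → i < j → j ≤ M → W T i j → rule1 T i j := by
  intro N
  induction N using Nat.strong_induction_on with
  | _ N ih =>
    intro T i j hN hi hij hj hW
    have hT := hpar _ _ _ hW
    have key : ∀ i' j', 1 ≤ i' → i' < j' → j' ≤ M →
        2 * (i' - j') + 3 * ((j' + M + 1) % 2) < 2 * (i - j) + 3 * ((j + M + 1) % 2) →
        rule1 T i' j' → W T i' j' := by
      intro i' j' h1 h2 h3 h4 h5
      obtain ⟨T', hT'⟩ := hex i' j' h1 (by omega) (by omega) h3 (by omega)
      have h6 := ih (2 * (i' - j') + 3 * ((j' + M + 1) % 2) + 2 * M).toNat (by omega)
        T' i' j' rfl h1 h2 h3 hT'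
      have h7 := hpar _ _ _ hT'
      have : T' = T := by
        unfold rule1 at h5 h6
        omega
      rwa [this] at hT'
    by_contra hcon
    unfold rule1 at hcon
    have hzi := hzp _ _ _ hW
    have hzj := hzp _ _ _ (hs _ _ _ hW)
    have hzi' := hzs _ _ _ hW
    rcases Int.emod_two_eq_zero_or_one i with hi2 | hi2
    · -- `i` even
      rcases lt_or_ge (i + j) T with hlt | hge
      · have a1 := key i (T - 1 - i) hi (by omega) (by omega) (by omega) (by unfold rule1; omega)
        have a2 := key i (T - i) hi (by omega) (by omega) (by omega) (by unfold rule1; omega)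
        have := hdeg _ _ _ _ _ hW a1 a2
        omega
      · rcases Int.emod_two_eq_zero_or_one (T - j) with hj2 | hj2
        · by_cases h2 : 1 ≤ T - j
          · have a1 := key (T - j) j h2 (by omega) hj (by omega) (by unfold rule1; omega)
            have a2 := key (T - j + 1) j (by omega) (by omega) hj (by omega)
              (by unfold rule1; omega)
            have := hdeg _ _ _ _ _ (hs _ _ _ hW) (hs _ _ _ a1) (hs _ _ _ a2)
            omega
          · have h4 : j = T := by omega
            have a1 := key 1 j le_rfl (by omega) hj (by omega) (by unfold rule1; omega)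
            rw [h4] at hW a1
            have := hpp T _ _ (by omega) (hs _ _ _ hW) (hs _ _ _ a1)
            omega
        · have a1 := key (T - j - 1) j (by omega) (by omega) hj (by omega)
            (by unfold rule1; omega)
          have a2 := key (T - j - 2) j (by omega) (by omega) hj (by omega)
            (by unfold rule1; omega)
          have := hdeg _ _ _ _ _ (hs _ _ _ hW) (hs _ _ _ a1) (hs _ _ _ a2)
          omega
    · -- `i` odd
      rcases Int.emod_two_eq_zero_or_one (j - M) with hjM | hjM
      · by_cases hexc : j = i + 1
        · -- exceptional pair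
          rcases lt_or_ge (i + j + 1) T with hlt | hge
          · by_cases h2 : T + 1 - i ≤ M
            · have a1 := key i (T - 2 - i) hi (by omega) (by omega) (by omega)
                (by unfold rule1; omega)
              have a2 := key i (T + 1 - i) hi (by omega) (by omega) (by omega)
                (by unfold rule1; omega)
              have := hdeg _ _ _ _ _ hW a1 a2
              omega
            · have h4 : i = T - M - 1 := by omega
              have a1 := key i (M - 1) hi (by omega) (by omega) (by omega)
                (by unfold rule1; omega)
              rw [h4] at hW a1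
              have := hps T _ _ (by omega) hW a1
              omega
          · have a1 := key (T - i - 1) i (by omega) (by omega) (by omega) (by omega)
              (by unfold rule1; omega)
            have a2 := key (T - i - 2) i (by omega) (by omega) (by omega) (by omega)
              (by unfold rule1; omega)
            have := hdeg _ _ _ _ _ hW (hs _ _ _ a1) (hs _ _ _ a2)
            omega
        · rcases lt_or_ge (i + j) T with hlt | hge
          · by_cases h2 : T + 1 - i ≤ M
            · have a1 := key i (T - 2 - i) hi (by omega) (by omega) (by omega)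
                (by unfold rule1; omega)
              have a2 := key i (T + 1 - i) hi (by omega) (by omega) (by omega)
                (by unfold rule1; omega)
              have := hdeg _ _ _ _ _ hW a1 a2
              omega
            · have h4 : i = T - M - 1 := by omega
              have a1 := key i (M - 1) hi (by omega) (by omega) (by omega)
                (by unfold rule1; omega)
              rw [h4] at hW a1
              have := hps T _ _ (by omega) hW a1
              omega
          · by_cases h2 : 1 ≤ T - j
            · have a1 := key (T - j) j h2 (by omega) hj (by omega) (by unfold rule1; omega)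
              have a2 := key (T - j + 1) j (by omega) (by omega) hj (by omega)
                (by unfold rule1; omega)
              have := hdeg _ _ _ _ _ (hs _ _ _ hW) (hs _ _ _ a1) (hs _ _ _ a2)
              omega
            · have h4 : j = T := by omega
              have a1 := key 1 j le_rfl (by omega) hj (by omega) (by unfold rule1; omega)
              rw [h4] at hW a1
              have := hpp T _ _ (by omega) (hs _ _ _ hW) (hs _ _ _ a1)
              omega
      · rcases lt_or_ge (i + j + 2) T with hlt | hge
        · by_cases h2 : T + 1 - i ≤ M
          · have a1 := key i (T - 2 - i) hi (by omega) (by omega) (by omega)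
              (by unfold rule1; omega)
            have a2 := key i (T + 1 - i) hi (by omega) (by omega) (by omega)
              (by unfold rule1; omega)
            have := hdeg _ _ _ _ _ hW a1 a2
            omega
          · have h4 : i = T - M - 1 := by omega
            have a1 := key i (M - 1) hi (by omega) (by omega) (by omega)
              (by unfold rule1; omega)
            rw [h4] at hW a1
            have := hps T _ _ (by omega) hW a1
            omega
        · have a1 := key (T - j - 1) j (by omega) (by omega) hj (by omega)
            (by unfold rule1; omega)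
          have a2 := key (T - j - 2) j (by omega) (by omega) hj (by omega)
            (by unfold rule1; omega)
          have := hdeg _ _ _ _ _ (hs _ _ _ hW) (hs _ _ _ a1) (hs _ _ _ a2)
          omega

end Run7.h14
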