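import Pool.Agent.Run7.h14.OcSide

/-!
Systems of edge classes on an interval of integers `[1-q, p]`: the class of every pair is forced.
-/

namespace Run7.h14

/-- local conditions for the class `k`, written in the coordinate in which its pivot is `k+1` -/
structure Loc (o k : ℕ) (r : ℤ → ℤ → Prop) : Prop where
  zA : ∀ x y, r x y → 1 ≤ x → x ≤ k → 1 ≤ y ∧ y ≤ k + 1
  zO : o = 1 → 1 ≤ k → ∀ y, ¬ r k y
  pA : ∀ a b, r (k + 1) a → r (k + 1) b → 1 ≤ a → a ≤ k → 1 ≤ b → b ≤ k → a = b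
  pC : ∀ a b, r (k + 1) a → r (k + 1) b → (a < 1 ∨ (k : ℤ) + 1 < a) →
    (b < 1 ∨ (k : ℤ) + 1 < b) → a = b

/-- a system of edge classes -/
structure Sys (m o ε p q : ℕ) (R : ℕ → ℤ → ℤ → Prop) : Prop where
  lt : ∀ k x y, R k x y → k < m
  symm : ∀ k x y, R k x y → R k y x
  ne : ∀ k x y, R k x y → x ≠ y
  ex : ∀ x y : ℤ, 1 - (q : ℤ) ≤ x → x ≤ p → 1 - (q : ℤ) ≤ y → y ≤ p → x ≠ y → ∃ k, R k x y
  uniq : ∀ k k' x y, R k x y → R k' x y → k = k'
  deg : ∀ k x a b c, R k x a → R k x b → R k x c → a = b ∨ a = c ∨ b = c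
  own : ∀ k, (k + ε) % 2 = 1 → Loc o k (R k)
  opp : ∀ k, (k + ε) % 2 = 0 → Loc o k (fun x y => R k (1 - x) (1 - y))

/-- admissible parameters -/
def Par (m o ε p q : ℕ) : Prop :=
  (ε = 0 ∨ ε = 1) ∧
    ((o = 0 ∧ p = m ∧ q = m) ∨ (o = 1 ∧ p % 2 = ε ∧ p + q + 1 = 2 * m ∧ p ≤ m ∧ q ≤ m))

theorem Par.refl {m o ε p q : ℕ} (h : Par m o ε p q) : Par m o (1 - ε) q p := by
  unfold Par at *
  omega

theorem Sys.refl {m o ε p q : ℕ} {R : ℕ → ℤ → ℤ → Prop} (hP : Par m o ε p q)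
    (h : Sys m o ε p q R) : Sys m o (1 - ε) q p (fun k x y => R k (1 - x) (1 - y)) where
  lt k x y hR := h.lt _ _ _ hR
  symm k x y hR := h.symm _ _ _ hR
  ne k x y hR hxy := h.ne _ _ _ hR (by rw [hxy])
  ex x y h1 h2 h3 h4 h5 := h.ex _ _ (by omega) (by omega) (by omega) (by omega) (by omega)
  uniq k k' x y h1 h2 := h.uniq _ _ _ _ h1 h2
  deg k x a b c h1 h2 h3 := by
    have := h.deg _ _ _ _ _ h1 h2 h3
    omega
  own k hk := h.opp k (by unfold Par at hP; omega)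
  opp k hk := by
    have := h.own k (by unfold Par at hP; omega)
    simpa using this

theorem cross (m o : ℕ) : ∀ (N ε p q : ℕ) (R : ℕ → ℤ → ℤ → Prop), Par m o ε p q →
    Sys m o ε p q R → ∀ (k : ℕ) (x y : ℤ), (x - y).toNat = N → 1 ≤ x → x ≤ p → 1 - (q : ℤ) ≤ y →
    y ≤ 0 → R k x y →
    ((k + ε) % 2 = 1 → x + y = k + 1 ∨ x + y = k + 2) ∧
    ((k + ε) % 2 = 0 → 2 - x - y = k + 1 ∨ 2 - x - y = k + 2) := by
  intro N
  induction N using Nat.strong_induction_on with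
  | _ N ih =>
    have ownc : ∀ (ε p q : ℕ) (R : ℕ → ℤ → ℤ → Prop), Par m o ε p q →
        Sys m o ε p q R → ∀ (k : ℕ) (x y : ℤ), (x - y).toNat = N → 1 ≤ x → x ≤ p →
        1 - (q : ℤ) ≤ y → y ≤ 0 → R k x y → (k + ε) % 2 = 1 → x + y = k + 1 ∨ x + y = k + 2 := by
      intro ε p q R hP hS k x y hN hx hxp hyq hy hR hk
      have hk1 : (k : ℤ) + 1 ≤ x := by
        by_contra hc
        have := (hS.own k hk).zA x y hR hx (by omega)
        omega
      have key : ∀ x' y' : ℤ, 1 ≤ x' → x' ≤ p → 1 - (q : ℤ) ≤ y' → y' ≤ 0 → x' - y' < x - y →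
          (x' + y' = k + 1 ∨ x' + y' = k + 2) → R k x' y' := by
        intro x' y' h1 h2 h3 h4 h5 h6
        obtain ⟨k', hk'⟩ := hS.ex x' y' (by omega) h2 h3 (by omega) (by omega)
        have h7 := ih (x' - y').toNat (by omega) ε p q R hP hS k' x' y' rfl h1 h2 h3 h4 hk'
        have : k' = k := by
          rcases Nat.mod_two_eq_zero_or_one (k' + ε) with h | h
          · have := h7.2 h
            omega
          · have := h7.1 h
            omega
        rwa [this] at hk'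
      by_contra hc
      rcases lt_or_ge ((k : ℤ) + 2) (x + y) with hlt | hge
      · have a1 := key (k + 1 - y) y (by omega) (by omega) hyq hy (by omega) (by omega)
        have a2 := key (k + 2 - y) y (by omega) (by omega) hyq hy (by omega) (by omega)
        have := hS.deg _ _ _ _ _ (hS.symm _ _ _ hR) (hS.symm _ _ _ a1) (hS.symm _ _ _ a2)
        omega
      · by_cases hxk : x = k + 1
        · have a1 := key x 0 hx hxp (by omega) le_rfl (by omega) (by omega)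
          rw [hxk] at hR a1
          have := (hS.own k hk).pC _ _ hR a1 (by omega) (by omega)
          omega
        · have a1 := key x (k + 1 - x) hx hxp (by omega) (by omega) (by omega) (by omega)
          have a2 := key x (k + 2 - x) hx hxp (by omega) (by omega) (by omega) (by omega)
          have := hS.deg _ _ _ _ _ hR a1 a2
          omega
    intro ε p q R hP hS k x y hN hx hxp hyq hy hR
    refine ⟨fun hk => ownc ε p q R hP hS k x y hN hx hxp hyq hy hR hk, fun hk => ?_⟩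
    have h1 := ownc (1 - ε) q p _ hP.refl (hS.refl hP) k (1 - y) (1 - x) (by omega) (by omega)
      (by omega) (by omega) (by omega) (by simpa using hS.symm _ _ _ hR)
      (by unfold Par at hP; omega)
    omega

theorem crossOwn {m o ε p q : ℕ} {R : ℕ → ℤ → ℤ → Prop} (hP : Par m o ε p q)
    (hS : Sys m o ε p q R) {k : ℕ} (hk : (k + ε) % 2 = 1) {x y : ℤ} (h1 : 1 ≤ x) (h2 : x ≤ p)
    (h3 : 1 - (q : ℤ) ≤ y) (h4 : y ≤ 0) (h5 : x + y = k + 1 ∨ x + y = k + 2) : R k x y := by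
  obtain ⟨k', hk'⟩ := hS.ex x y (by omega) h2 h3 (by omega) (by omega)
  have h7 := cross m o _ ε p q R hP hS k' x y rfl h1 h2 h3 h4 hk'
  have : k' = k := by
    rcases Nat.mod_two_eq_zero_or_one (k' + ε) with h | h
    · have := h7.2 h
      omega
    · have := h7.1 h
      omega
  rwa [this] at hk'

theorem crossOpp {m o ε p q : ℕ} {R : ℕ → ℤ → ℤ → Prop} (hP : Par m o ε p q)
    (hS : Sys m o ε p q R) {k : ℕ} (hk : (k + ε) % 2 = 0) {x y : ℤ} (h1 : 1 ≤ x) (h2 : x ≤ p)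
    (h3 : 1 - (q : ℤ) ≤ y) (h4 : y ≤ 0) (h5 : 2 - x - y = k + 1 ∨ 2 - x - y = k + 2) :
    R k x y := by
  obtain ⟨k', hk'⟩ := hS.ex x y (by omega) h2 h3 (by omega) (by omega)
  have h7 := cross m o _ ε p q R hP hS k' x y rfl h1 h2 h3 h4 hk'
  have : k' = k := by
    rcases Nat.mod_two_eq_zero_or_one (k' + ε) with h | h
    · have := h7.2 h
      omega
    · have := h7.1 h
      omega
  rwa [this] at hk'

theorem ownZone {m o ε p q : ℕ} {R : ℕ → ℤ → ℤ → Prop} (hP : Par m o ε p q)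
    (hS : Sys m o ε p q R) {k : ℕ} (hk : (k + ε) % 2 = 1) {x y : ℤ} (h1 : 1 ≤ x) (h2 : x ≤ p)
    (h3 : 1 ≤ y) (h4 : y ≤ p) (hR : R k x y) : x ≤ k + 1 := by
  have hkm := hS.lt _ _ _ hR
  have hne := hS.ne _ _ _ hR
  by_contra hc
  by_cases hq : 1 - (q : ℤ) ≤ k + 1 - x
  · have a1 := crossOwn hP hS hk h1 h2 (y := k + 1 - x) hq (by omega) (by omega)
    have a2 := crossOwn hP hS hk h1 h2 (y := k + 2 - x) (by omega) (by omega) (by omega)
    have := hS.deg _ _ _ _ _ hR a1 a2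
    omega
  · have hP' := hP
    unfold Par at hP'
    have hk0 : k = 0 := by omega
    subst hk0
    have hxp : x = p := by omega
    by_cases hy : y = 1
    · have a1 := crossOwn hP hS hk (x := 1) (y := 0) le_rfl (by omega) (by omega) le_rfl
        (by omega)
      rw [hy] at hR
      have h5 := hS.symm _ _ _ hR
      have := (hS.own 0 hk).pC x 0 (by simpa using h5) (by simpa using a1) (by push_cast; omega)
        (by omega)
      omega
    · have a1 := crossOwn hP hS hk h3 h4 (y := (0 : ℕ) + 1 - y) (by push_cast; omega) (by omega)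
        (by omega)
      have a2 := crossOwn hP hS hk h3 h4 (y := (0 : ℕ) + 2 - y) (by push_cast; omega)
        (by push_cast; omega) (by omega)
      have := hS.deg _ _ _ _ _ (hS.symm _ _ _ hR) a1 a2
      omega

theorem oppZone {m o ε p q : ℕ} {R : ℕ → ℤ → ℤ → Prop} (hP : Par m o ε p q)
    (hS : Sys m o ε p q R) {k : ℕ} (hk : (k + ε) % 2 = 0) {x y : ℤ} (h1 : 1 ≤ x) (h2 : x ≤ p)
    (h3 : 1 ≤ y) (_h4 : y ≤ p) (hR : R k x y) : (q : ℤ) - k ≤ x := by
  by_contra hc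
  have a1 := crossOpp hP hS hk h1 h2 (y := 1 - k - x) (by omega) (by omega) (by omega)
  have a2 := crossOpp hP hS hk h1 h2 (y := - k - x) (by omega) (by omega) (by omega)
  have := hS.deg _ _ _ _ _ hR a1 a2
  omega

/-- the classes on the positive side, written with the parameter `T` -/
def Wd (m ε p : ℕ) (R : ℕ → ℤ → ℤ → Prop) (T i j : ℤ) : Prop :=
  1 ≤ i ∧ i ≤ p ∧ 1 ≤ j ∧ j ≤ p ∧ ∃ k : ℕ, R k i j ∧
    (((k + ε) % 2 = 1 ∧ T = k + 1) ∨ ((k + ε) % 2 = 0 ∧ T = 2 * m - k))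

/-- the rule, both parities -/
def ruleo (o : ℕ) (T i j : ℤ) : Prop := (o = 0 ∧ rule0 T i j) ∨ (o = 1 ∧ rule1 T i j)

theorem sideP {m o ε p q : ℕ} {R : ℕ → ℤ → ℤ → Prop} (hP : Par m o ε p q)
    (hS : Sys m o ε p q R) {k : ℕ} {i j T : ℤ} (h1 : 1 ≤ i) (h2 : i < j) (h3 : j ≤ p)
    (hR : R k i j) (hT : ((k + ε) % 2 = 1 ∧ T = k + 1) ∨ ((k + ε) % 2 = 0 ∧ T = 2 * m - k)) :
    ruleo o T i j := by
  have hP' := hP
  unfold Par at hP'
  have hs : ∀ T i j, Wd m ε p R T i j → Wd m ε p R T j i := by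
    rintro T i j ⟨a, b, c, d, k, e, f⟩
    exact ⟨c, d, a, b, k, hS.symm _ _ _ e, f⟩
  have hex : ∀ i j : ℤ, 1 ≤ i → i ≤ p → 1 ≤ j → j ≤ p → i ≠ j → ∃ T, Wd m ε p R T i j := by
    intro i j a b c d e
    obtain ⟨k, hk⟩ := hS.ex i j (by omega) b (by omega) d e
    rcases Nat.mod_two_eq_zero_or_one (k + ε) with h | h
    · exact ⟨2 * m - k, a, b, c, d, k, hk, Or.inr ⟨h, rfl⟩⟩
    · exact ⟨k + 1, a, b, c, d, k, hk, Or.inl ⟨h, rfl⟩⟩
  have same : ∀ (T i j i' j' : ℤ) (k k' : ℕ), R k i j → R k' i' j' →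
      (((k + ε) % 2 = 1 ∧ T = k + 1) ∨ ((k + ε) % 2 = 0 ∧ T = 2 * (m : ℤ) - k)) →
      (((k' + ε) % 2 = 1 ∧ T = k' + 1) ∨ ((k' + ε) % 2 = 0 ∧ T = 2 * (m : ℤ) - k')) → k = k' := by
    intro T i j i' j' k k' a b c d
    have := hS.lt _ _ _ a
    have := hS.lt _ _ _ b
    omega
  have hdeg : ∀ T i a b c, Wd m ε p R T i a → Wd m ε p R T i b → Wd m ε p R T i c →
      a = b ∨ a = c ∨ b = c := by
    rintro T i a b c ⟨-, -, -, -, k, hk, hk1⟩ ⟨-, -, -, -, k', hk', hk1'⟩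
      ⟨-, -, -, -, k'', hk'', hk1''⟩
    have e1 := same _ _ _ _ _ _ _ hk hk' hk1 hk1'
    have e2 := same _ _ _ _ _ _ _ hk hk'' hk1 hk1''
    subst e1
    subst e2
    exact hS.deg _ _ _ _ _ hk hk' hk''
  have hW : Wd m ε p R T i j := ⟨h1, by omega, by omega, h3, k, hR, hT⟩
  rcases hP'.2 with ⟨ho, hpm, hqm⟩ | ⟨ho, hpe, hpq, hpm, hqm⟩
  · left
    refine ⟨ho, side0 p ε (Wd m ε p R) hs hex ?_ ?_ ?_ hdeg ?_ ?_ _ T i j rfl h1 h2 h3 hW⟩
    · rintro T i j ⟨-, -, -, -, k, -, h⟩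
      omega
    · rintro T i j ⟨a, b, c, d, k, hk, h⟩ hTp
      have := hS.lt _ _ _ hk
      rcases h with ⟨h, h'⟩ | ⟨h, h'⟩
      · have := ownZone hP hS h a b c d hk
        omega
      · omega
    · rintro T i j ⟨a, b, c, d, k, hk, h⟩ hTp
      have := hS.lt _ _ _ hk
      rcases h with ⟨h, h'⟩ | ⟨h, h'⟩
      · omega
      · have := oppZone hP hS h a b c d hk
        omega
    · rintro T x y hTp ⟨a, b, c, d, k, hk, h⟩ ⟨a', b', c', d', k', hk', h'⟩
      have e1 := same _ _ _ _ _ _ _ hk hk' h h'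
      subst e1
      have := hS.lt _ _ _ hk
      rcases h with ⟨h, e2⟩ | ⟨h, e2⟩
      · have z1 := ownZone hP hS h c d a b (hS.symm _ _ _ hk)
        have z2 := ownZone hP hS h c' d' a' b' (hS.symm _ _ _ hk')
        have n1 := hS.ne _ _ _ hk
        have n2 := hS.ne _ _ _ hk'
        rw [e2] at hk hk'
        exact (hS.own k h).pA x y hk hk' c (by omega) c' (by omega)
      · omega
    · rintro T x y hTp ⟨a, b, c, d, k, hk, h⟩ ⟨a', b', c', d', k', hk', h'⟩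
      have e1 := same _ _ _ _ _ _ _ hk hk' h h'
      subst e1
      have := hS.lt _ _ _ hk
      rcases h with ⟨h, e2⟩ | ⟨h, e2⟩
      · omega
      · have a1 := crossOpp hP hS h a b (y := 1 - q) le_rfl (by omega) (by omega)
        have := hS.deg _ _ _ _ _ hk hk' a1
        omega
  · right
    refine ⟨ho, side1 p (Wd m ε p R) hs hex ?_ ?_ ?_ hdeg ?_ ?_ _ T i j rfl h1 h2 h3 hW⟩
    · rintro T i j ⟨-, -, -, -, k, -, h⟩
      omega
    · rintro T i j ⟨a, b, c, d, k, hk, h⟩ hTp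
      have := hS.lt _ _ _ hk
      rcases h with ⟨h, h'⟩ | ⟨h, h'⟩
      · have z := ownZone hP hS h a b c d hk
        have : i ≠ k := by
          intro hik
          rw [hik] at hk
          exact (hS.own k h).zO ho (by omega) j hk
        omega
      · omega
    · rintro T i j ⟨a, b, c, d, k, hk, h⟩ hTp
      have := hS.lt _ _ _ hk
      rcases h with ⟨h, h'⟩ | ⟨h, h'⟩
      · omega
      · have := oppZone hP hS h a b c d hk
        omega
    · rintro T x y hTp ⟨a, b, c, d, k, hk, h⟩ ⟨a', b', c', d', k', hk', h'⟩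
      have e1 := same _ _ _ _ _ _ _ hk hk' h h'
      subst e1
      have := hS.lt _ _ _ hk
      rcases h with ⟨h, e2⟩ | ⟨h, e2⟩
      · have z1 := ownZone hP hS h c d a b (hS.symm _ _ _ hk)
        have z2 := ownZone hP hS h c' d' a' b' (hS.symm _ _ _ hk')
        have n1 := hS.ne _ _ _ hk
        have n2 := hS.ne _ _ _ hk'
        rw [e2] at hk hk'
        exact (hS.own k h).pA x y hk hk' c (by omega) c' (by omega)
      · omega
    · rintro T x y hTp ⟨a, b, c, d, k, hk, h⟩ ⟨a', b', c', d', k', hk', h'⟩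
      have e1 := same _ _ _ _ _ _ _ hk hk' h h'
      subst e1
      have := hS.lt _ _ _ hk
      rcases h with ⟨h, e2⟩ | ⟨h, e2⟩
      · omega
      · have a1 := crossOpp hP hS h a b (y := 1 - q) le_rfl (by omega) (by omega)
        have := hS.deg _ _ _ _ _ hk hk' a1
        omega

/-- the explicit class predicate (standard orientation `ε = 0`) -/
def Q (m o k : ℕ) (x y : ℤ) : Prop :=
  (x ≤ 0 ∧ 1 ≤ y ∧
    ((k % 2 = 1 ∧ (x + y = k + 1 ∨ x + y = k + 2)) ∨
     (k % 2 = 0 ∧ (2 - x - y = k + 1 ∨ 2 - x - y = k + 2)))) ∨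
  (1 ≤ x ∧ x < y ∧ ∃ T : ℤ, ((k % 2 = 1 ∧ T = k + 1) ∨ (k % 2 = 0 ∧ T = 2 * m - k)) ∧
    ruleo o T x y) ∨
  (x < y ∧ y ≤ 0 ∧ ∃ T : ℤ, ((k % 2 = 0 ∧ T = k + 1) ∨ (k % 2 = 1 ∧ T = 2 * m - k)) ∧
    ruleo o T (1 - y) (1 - x))

theorem Q_unique {m o k k' : ℕ} {x y : ℤ} (hk : k < m) (hk' : k' < m) (h : Q m o k x y)
    (h' : Q m o k' x y) : k = k' := by
  unfold Q ruleo rule0 rule1 at *
  rcases h with h | ⟨h1, h2, T, hT, h3⟩ | ⟨h1, h2, T, hT, h3⟩
  · rcases h' with h' | ⟨h1', h2', T', hT', h3'⟩ | ⟨h1', h2', T', hT', h3'⟩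
    · omega
    · omega
    · omega
  · rcases h' with h' | ⟨h1', h2', T', hT', h3'⟩ | ⟨h1', h2', T', hT', h3'⟩
    · omega
    · have : T = T' := by omega
      omega
    · omega
  · rcases h' with h' | ⟨h1', h2', T', hT', h3'⟩ | ⟨h1', h2', T', hT', h3'⟩
    · omega
    · omega
    · have : T = T' := by omega
      omega

theorem sys_Q {m o p q : ℕ} {R : ℕ → ℤ → ℤ → Prop} (hP : Par m o 0 p q)
    (hS : Sys m o 0 p q R) {k : ℕ} {x y : ℤ} (h1 : 1 - (q : ℤ) ≤ x) (h2 : x < y) (h3 : y ≤ p)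
    (hR : R k x y) : Q m o k x y := by
  unfold Q
  by_cases hy : y ≤ 0
  · right; right
    refine ⟨h2, hy, ?_⟩
    have hR' : (fun k x y => R k (1 - x) (1 - y)) k (1 - y) (1 - x) := by
      simpa using hS.symm _ _ _ hR
    rcases Nat.mod_two_eq_zero_or_one k with h | h
    · exact ⟨k + 1, Or.inl ⟨h, rfl⟩, sideP hP.refl (hS.refl hP) (by omega) (by omega) (by omega)
        hR' (Or.inl ⟨by omega, rfl⟩)⟩
    · exact ⟨2 * m - k, Or.inr ⟨h, rfl⟩, sideP hP.refl (hS.refl hP) (by omega) (by omega)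
        (by omega) hR' (Or.inr ⟨by omega, rfl⟩)⟩
  · by_cases hx : x ≤ 0
    · left
      refine ⟨hx, by omega, ?_⟩
      have := cross m o _ 0 p q R hP hS k y x rfl (by omega) h3 h1 hx (hS.symm _ _ _ hR)
      omega
    · right; left
      refine ⟨by omega, h2, ?_⟩
      rcases Nat.mod_two_eq_zero_or_one k with h | h
      · exact ⟨2 * m - k, Or.inr ⟨h, rfl⟩, sideP hP hS (by omega) h2 h3 hR
          (Or.inr ⟨by omega, rfl⟩)⟩
      · exact ⟨k + 1, Or.inl ⟨h, rfl⟩, sideP hP hS (by omega) h2 h3 hR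
          (Or.inl ⟨by omega, rfl⟩)⟩

end Run7.h14
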